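import Pool.Agent.Work.MP_92f640_nt.PW.LevelP

/-! # Module HLA.BsetG: exceptional moduli for the family `AJ`, with large radicals -/

namespace Pool.Agent.HLA

open Finset Pool.Agent.BV Pool.Agent.HL Pool.Agent.HS Pool.Agent.HN Pool.Agent.PW Filter

/-- **Exceptional moduli**: `GoodF` outside the multiples of few integers with large radical -/
theorem bset_radP (κ ε η : ℝ) (hκ : 0 < κ) (hκ1 : κ ≤ 1 / 8) (hε : 0 < ε)
    (hη : 0 < η) (B₁ B9 B' : ℕ) : ∃ C : ℕ, ∀ A : ℕ, ∃ x₁ : ℕ, ∀ x : ℕ, x₁ ≤ x →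
    ∃ (B : Finset ℕ) (r₁ : ℕ), (B.card : ℝ) ≤ (Real.log x) ^ C ∧
      r₁ ∣ 4 * ∏ p ∈ r₁.primeFactors, p ∧
      (∀ b ∈ B, (Real.log x) ^ A < ((∏ p ∈ b.primeFactors, p : ℕ) : ℝ) ∧
        (Real.exp ((Real.log x) ^ (1 - η)) < ((∏ p ∈ b.primeFactors, p : ℕ) : ℝ) ∨
          ∃ g : ℕ, (g : ℝ) ≤ (Real.log x) ^ C ∧ b * g = r₁)) ∧
      ∀ q : ℕ, 1 ≤ q → (q : ℝ) ≤ (x : ℝ) ^ (4 / 5 - ε) → (∀ b ∈ B, ¬ b ∣ q) →
        GoodF x (wk κ x) (wk κ x * zx (2 / 3) x) (JJ x B') B9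
          (AJ (y0 x) (zx (2 / 3) x) (wk κ x) (1 / (Real.log x) ^ B'))
          ((Real.log x) ^ (A + 1 + B₁ + 1)) ((Real.log x) ^ B₁) q := by
  classical
  obtain ⟨C, hC⟩ := bsetP (4 / 5) κ ε (by norm_num) hκ hε (B' + 2) B₁ B9
  set η₀ : ℝ := min η (1 / 2) with hη₀
  have h00 : 0 < η₀ := lt_min hη (by norm_num)
  have h01 : η₀ ≤ 1 / 2 := min_le_right _ _
  have h02 : η₀ ≤ η := min_le_left _ _
  set η' : ℝ := η₀ / 2 with hη'
  have h0 : 0 < η' := by linarith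
  have h1 : η' ≤ 1 / 4 := by linarith
  have h2 : η' < η₀ := by linarith
  obtain ⟨x₅, hx₅⟩ := not_bad (2 / 3) κ (1 - η' / 8) (by norm_num) hκ hκ1 (by linarith)
    (by linarith) B' B9
  refine ⟨C + B₁, fun A => ?_⟩
  obtain ⟨x₁, hx₁⟩ := hC (A + 1)
  obtain ⟨x₂, hx₂⟩ := prime_sum_psi η' h0 h1 0 (B9 + 2)
  obtain ⟨x₃, hx₃⟩ := eventually_atTop.1 ((ev_rad η₀ η' h2 (by linarith) B₁).and
    ((evt_log 5).and ((ev_rad 1 (1 / 2) (by norm_num) (by norm_num) A).and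
    (ev_wz (2 / 3) κ (by norm_num) (by linarith) hκ))))
  refine ⟨max x₁ (max x₂ (max x₃ x₅)), fun x hx => ?_⟩
  simp only [max_le_iff] at hx
  obtain ⟨hxx1, hxx2, hxx3, hxx5⟩ := hx
  obtain ⟨hrad, hL5, hA, hwz⟩ := hx₃ x hxx3
  obtain ⟨r₁, hr1, hr2, hr3⟩ := hx₂ x hxx2
  set L := Real.log x with hL
  have hL0 : 0 < L := by linarith
  have hL1 : 1 ≤ L := by linarith
  have hJ : (JJ x B' : ℝ) ≤ L ^ (B' + 2) := by
    unfold JJ
    have b1 := Nat.ceil_lt_add_one (by positivity : 0 ≤ 2 * L ^ (B' + 1))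
    have b2 : 1 ≤ L ^ (B' + 1) := one_le_pow₀ hL1
    have b3 : L ^ (B' + 2) = L * L ^ (B' + 1) := by ring
    rw [b3]
    have b4 : 4 * L ^ (B' + 1) ≤ L * L ^ (B' + 1) :=
      mul_le_mul_of_nonneg_right (by linarith) (by positivity)
    linarith
  obtain ⟨B, hB1, hB2, hB3⟩ := hx₁ x hxx1 (wk κ x * zx (2 / 3) x) (JJ x B')
    (AJ (y0 x) (zx (2 / 3) x) (wk κ x) (1 / L ^ B')) (fun j c => abs_AJ_le _ _ _ _ j c) hwz hJ
  have hx1 : 1 ≤ x := by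
    by_contra h
    have : x = 0 := by omega
    subst this
    simp at hL
    linarith
  have hx1R : (1 : ℝ) ≤ x := by exact_mod_cast hx1
  refine ⟨B, r₁, ?_, hr2, fun b hb => ?_, hB3⟩
  · refine hB1.trans (pow_le_pow_right₀ hL1 (by omega))
  obtain ⟨r, g, b1, b2, b3, rfl, b5, b6, χ, hχ, hbad⟩ := hB2 b hb
  have hLA : 1 ≤ L ^ (A + 1 + B₁ + 1) := one_le_pow₀ hL1
  have hr : 1 < r := by
    have : (1 : ℝ) < r := lt_of_le_of_lt hLA b5
    exact_mod_cast this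
  have hrx : r ≤ x := by
    have : (r : ℝ) ≤ x := by
      calc (r : ℝ) ≤ (x : ℝ) ^ (4 / 5 : ℝ) := b6
        _ ≤ (x : ℝ) ^ (1 : ℝ) := Real.rpow_le_rpow_of_exponent_le hx1R (by norm_num)
        _ = x := Real.rpow_one _
    exact_mod_cast this
  by_cases hrr : r = r₁
  · subst hrr
    have hg0 : (0 : ℝ) < g := by exact_mod_cast b1
    have e1 := rad_of_dvd_four r g (by omega) b3 hr2
    have e2 : ((r / g : ℕ) : ℝ) ≤ 4 * ((∏ p ∈ (r / g).primeFactors, p : ℕ) : ℝ) := by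
      exact_mod_cast e1
    have e3 : (r : ℝ) = ((r / g : ℕ) : ℝ) * g := by
      exact_mod_cast (Nat.div_mul_cancel b3).symm
    refine ⟨?_, Or.inr ⟨g, b2.trans (pow_le_pow_right₀ hL1 (by omega)), Nat.div_mul_cancel b3⟩⟩
    by_contra hcon
    have e4 := not_lt.1 hcon
    have e5 : (r : ℝ) ≤ L ^ (A + 1 + B₁ + 1) := by
      rw [e3]
      calc ((r / g : ℕ) : ℝ) * g ≤ (4 * L ^ A) * L ^ B₁ := by
            gcongr
            linarith
        _ ≤ (L * L ^ A) * L ^ B₁ := by gcongr; linarith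
        _ = L ^ (A + 1 + B₁) := by ring
        _ ≤ L ^ (A + 1 + B₁ + 1) := pow_le_pow_right₀ hL1 (by omega)
    linarith
  · have hbig : Real.exp (L ^ (1 - η')) < (rd r : ℝ) := by
      by_contra hcon
      exact hx₅ x hxx5 r χ (fun u hu hux => hr3 r hr hrx hrr (not_lt.1 hcon) χ hχ u hu hux) _ hbad
    have h3 := rad_div r g (by omega) b3
    have h4 : (rd r : ℝ) ≤ g * ((∏ p ∈ (r / g).primeFactors, p : ℕ) : ℝ) := by
      exact_mod_cast h3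
    have h5 : Real.exp (L ^ (1 - η₀)) < ((∏ p ∈ (r / g).primeFactors, p : ℕ) : ℝ) := by
      by_contra hcon
      have h6 := not_lt.1 hcon
      have h7 : (rd r : ℝ) ≤ L ^ B₁ * Real.exp (L ^ (1 - η₀)) := by
        refine h4.trans ?_
        gcongr
      linarith
    have e2 : L ^ (1 - η) ≤ L ^ (1 - η₀) := Real.rpow_le_rpow_of_exponent_le hL1 (by linarith)
    have e3 : L ^ (1 / 2 : ℝ) ≤ L ^ (1 - η₀) :=
      Real.rpow_le_rpow_of_exponent_le hL1 (by linarith)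
    have e4 := Real.exp_le_exp.2 e2
    have e5 := Real.exp_le_exp.2 e3
    have e6 : L ^ A < Real.exp (L ^ (1 / 2 : ℝ)) := by
      have h8 : (1 : ℝ) - 1 / 2 = 1 / 2 := by norm_num
      rw [h8] at hA
      refine lt_of_le_of_lt ?_ hA
      have : 1 ≤ Real.exp (L ^ (1 - 1 : ℝ)) := Real.one_le_exp (by positivity)
      have h9 : 0 ≤ L ^ A := by positivity
      nlinarith
    exact ⟨by linarith, Or.inl (by linarith)⟩

end Pool.Agent.HLA
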