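import Pool.Agent.Work.GBM.C23

/-! # Module HLA.Conv: from the von Mangoldt function to primes

`RR n = ∑_{p + p' = n} log p log p'`; `RR_close`: it is the convolution of the von Mangoldt function on the
integers coprime to a divisor `q` of `n`, up to `O (√n log² n)`; `gc_close`: from `RR` to the number of
representations. -/

namespace Pool.Agent.HLA

open Finset Pool.Agent.BV Pool.Agent.HL Filter
open scoped ArithmeticFunction.vonMangoldt
open Pool.Agent.Work.MP_92f640_nt (goldbachCount)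

/-- the weighted number of representations -/
noncomputable def RR (n : ℕ) : ℝ :=
  ∑ p ∈ (range (n + 1)).filter (fun p : ℕ => p.Prime ∧ (n - p).Prime),
    Real.log (p : ℝ) * Real.log ((n - p : ℕ) : ℝ)

theorem RR_eq (n : ℕ) : RR n = ∑ k ∈ Ico 1 n,
    (if k.Prime ∧ (n - k).Prime then Real.log (k : ℝ) * Real.log ((n - k : ℕ) : ℝ) else 0) := by
  unfold RR
  rw [← sum_filter]
  refine sum_congr ?_ fun _ _ => rfl
  ext k
  rw [mem_filter, mem_filter, mem_range, mem_Ico]
  constructor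
  · rintro ⟨h1, h2, h3⟩
    have := h2.two_le
    have := h3.two_le
    exact ⟨⟨by omega, by omega⟩, h2, h3⟩
  · rintro ⟨⟨h1, h2⟩, h3, h4⟩
    exact ⟨by omega, h3, h4⟩

theorem fl_re (q k l : ℕ) : (FL q k * FL q l).re =
    if k.Coprime q ∧ l.Coprime q then Λ k * Λ l else 0 := by
  unfold FL
  by_cases h1 : k.Coprime q
  · by_cases h2 : l.Coprime q
    · rw [if_pos h1, if_pos h2, if_pos ⟨h1, h2⟩, ← Complex.ofReal_mul, Complex.ofReal_re]
    · have h3 : ¬ (k.Coprime q ∧ l.Coprime q) := fun h => h2 h.2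
      rw [if_neg h2, if_neg h3, mul_zero, Complex.zero_re]
  · have h3 : ¬ (k.Coprime q ∧ l.Coprime q) := fun h => h1 h.1
    rw [if_neg h1, if_neg h3, zero_mul, Complex.zero_re]

theorem prime_pair {q n k : ℕ} (hq : q ∣ n) (hkn : k < n) (hk : k.Prime) (hl : (n - k).Prime)
    (h : ¬ (k.Coprime q ∧ (n - k).Coprime q)) : 2 * k = n := by
  rw [hk.coprime_iff_not_dvd, hl.coprime_iff_not_dvd, not_and_or, not_not, not_not] at h
  rcases h with h | h
  · have h1 : k ∣ n - k := Nat.dvd_sub (h.trans hq) (dvd_refl k)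
    have h2 := (Nat.prime_dvd_prime_iff_eq hk hl).1 h1
    omega
  · have h1 : n - k ∣ n - (n - k) := Nat.dvd_sub (h.trans hq) (dvd_refl (n - k))
    rw [Nat.sub_sub_self hkn.le] at h1
    have h2 := (Nat.prime_dvd_prime_iff_eq hl hk).1 h1
    omega

theorem RR_close (q n : ℕ) (hq : q ∣ n) (hn : 3 ≤ n) :
    |RR n - (cv (FL q) (FL q) n).re| ≤ 5 * Real.sqrt n * (Real.log n) ^ 2 := by
  have hL1 : 1 ≤ Real.log n := one_le_log hn
  have hL : 0 ≤ Real.log n := by linarith
  have h2 : ∀ k ∈ Ico 1 n,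
      |(if k.Prime ∧ (n - k).Prime then Real.log (k : ℝ) * Real.log ((n - k : ℕ) : ℝ) else 0) -
        (FL q k * FL q (n - k)).re| ≤
      (if 2 * k = n then (Real.log n) ^ 2 else 0) +
      ((if ¬ k.Prime then Λ k else 0) * Real.log n +
      (if ¬ (n - k).Prime then Λ (n - k) else 0) * Real.log n) := by
    intro k hk
    rw [mem_Ico] at hk
    have a1 := mangoldt_le_log' hk.1 hk.2.le
    have a2 := mangoldt_le_log' (k := n - k) (n := n) (by omega) (by omega)
    have b1 : 0 ≤ Λ k := ArithmeticFunction.vonMangoldt_nonneg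
    have b2 : 0 ≤ Λ (n - k) := ArithmeticFunction.vonMangoldt_nonneg
    have b3 : 0 ≤ Λ k * Λ (n - k) := mul_nonneg b1 b2
    have b4 : Λ k * Λ (n - k) ≤ (Real.log n) ^ 2 := by
      rw [sq]
      exact mul_le_mul a1 a2 b2 hL
    rw [fl_re]
    by_cases c : k.Prime ∧ (n - k).Prime
    · rw [if_pos c, if_neg (not_not.2 c.1), if_neg (not_not.2 c.2),
        ← ArithmeticFunction.vonMangoldt_apply_prime c.1,
        ← ArithmeticFunction.vonMangoldt_apply_prime c.2]
      by_cases d : k.Coprime q ∧ (n - k).Coprime q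
      · rw [if_pos d, sub_self, abs_zero]
        split_ifs <;> simp
        positivity
      · rw [if_neg d, sub_zero, abs_of_nonneg b3, if_pos (prime_pair hq hk.2 c.1 c.2 d)]
        linarith
    · rw [if_neg c, zero_sub, abs_neg]
      have e1 : |(if k.Coprime q ∧ (n - k).Coprime q then Λ k * Λ (n - k) else 0)| ≤
          Λ k * Λ (n - k) := by
        split_ifs
        · rw [abs_of_nonneg b3]
        · rw [abs_zero]
          exact b3
      have e2 : (0 : ℝ) ≤ (if 2 * k = n then (Real.log n) ^ 2 else 0) := by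
        split_ifs <;> positivity
      rw [not_and_or] at c
      by_cases c1 : k.Prime
      · have c2 : ¬ (n - k).Prime := by tauto
        rw [if_neg (not_not.2 c1), if_pos c2]
        have : Λ k * Λ (n - k) ≤ Real.log n * Λ (n - k) := mul_le_mul_of_nonneg_right a1 b2
        linarith
      · rw [if_pos c1]
        have h3 : Λ k * Λ (n - k) ≤ Λ k * Real.log n := mul_le_mul_of_nonneg_left a2 b1
        have h4 : (0 : ℝ) ≤ (if ¬ (n - k).Prime then Λ (n - k) else 0) * Real.log n := by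
          split_ifs <;> positivity
        linarith
  have h3 : |RR n - (cv (FL q) (FL q) n).re| ≤ ∑ k ∈ Ico 1 n,
      ((if 2 * k = n then (Real.log n) ^ 2 else 0) +
      ((if ¬ k.Prime then Λ k else 0) * Real.log n +
      (if ¬ (n - k).Prime then Λ (n - k) else 0) * Real.log n)) := by
    rw [RR_eq]
    unfold cv
    rw [Complex.re_sum, ← sum_sub_distrib]
    exact (abs_sum_le_sum_abs _ _).trans (sum_le_sum h2)
  rw [sum_add_distrib, sum_add_distrib, ← sum_mul, ← sum_mul] at h3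
  have h4 : ∑ k ∈ Ico 1 n, (if 2 * k = n then (Real.log n) ^ 2 else 0) ≤ (Real.log n) ^ 2 := by
    rw [← sum_filter, sum_const, nsmul_eq_mul]
    have : ((Ico 1 n).filter (fun k => 2 * k = n)).card ≤ 1 := by
      rw [card_le_one]
      intro a ha b hb
      rw [mem_filter] at ha hb
      omega
    have h5 : (((Ico 1 n).filter (fun k => 2 * k = n)).card : ℝ) ≤ 1 := by exact_mod_cast this
    have h6 : 0 ≤ (Real.log n) ^ 2 := by positivity
    nlinarith
  have h5 : ∑ k ∈ Ico 1 n, (if ¬ k.Prime then Λ k else 0) ≤ 2 * Real.sqrt n * Real.log n := by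
    rw [← sum_filter]
    exact (not_prime_sum_le n).trans (primes_sub_le hn le_rfl)
  have h6 : ∑ k ∈ Ico 1 n, (if ¬ (n - k).Prime then Λ (n - k) else 0) ≤
      2 * Real.sqrt n * Real.log n := by
    have : ∑ k ∈ Ico 1 n, (if ¬ (n - k).Prime then Λ (n - k) else 0) =
        ∑ k ∈ Ico 1 n, (if ¬ k.Prime then Λ k else 0) := by
      apply sum_bij' (fun k _ => n - k) (fun k _ => n - k)
      · intro k hk; rw [mem_Ico] at *; omega
      · intro k hk; rw [mem_Ico] at *; omega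
      · intro k hk; rw [mem_Ico] at *; omega
      · intro k hk; rw [mem_Ico] at *; omega
      · intro k hk; rfl
    rw [this]
    exact h5
  have h7 : 1 ≤ Real.sqrt n := by
    rw [Real.one_le_sqrt]
    exact_mod_cast (by omega : 1 ≤ n)
  have h8 : (Real.log n) ^ 2 ≤ Real.sqrt n * (Real.log n) ^ 2 :=
    le_mul_of_one_le_left (by positivity) h7
  nlinarith [mul_le_mul_of_nonneg_right h5 hL, mul_le_mul_of_nonneg_right h6 hL]

/-- the pairs -/
def PS2 (n : ℕ) : Finset ℕ := (range (n + 1)).filter (fun p : ℕ => p.Prime ∧ (n - p).Prime)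

theorem gc_lower (n : ℕ) : RR n ≤ (Real.log n) ^ 2 * goldbachCount n := by
  unfold RR goldbachCount
  rw [mul_comm, ← nsmul_eq_mul]
  refine sum_le_card_nsmul _ _ _ fun p hp => ?_
  rw [mem_filter, mem_range] at hp
  obtain ⟨h1, h2, h3⟩ := hp
  have e1 : Real.log (p : ℝ) ≤ Real.log n :=
    Real.log_le_log (by exact_mod_cast h2.pos) (by exact_mod_cast (by omega : p ≤ n))
  have e2 : Real.log ((n - p : ℕ) : ℝ) ≤ Real.log n :=
    Real.log_le_log (by exact_mod_cast h3.pos) (by exact_mod_cast (by omega : n - p ≤ n))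
  rw [sq]
  exact mul_le_mul e1 e2 (Real.log_natCast_nonneg _) (Real.log_natCast_nonneg _)

theorem gc_upper (n : ℕ) (hn : 1 ≤ n) (δ : ℝ) (h0 : 0 < δ) (h1 : δ < 1) :
    (goldbachCount n : ℝ) * ((1 - δ) * Real.log n) ^ 2 ≤
      RR n + 2 * ((n : ℝ) ^ (1 - δ) + 1) * (Real.log n) ^ 2 := by
  classical
  have hn0 : (0 : ℝ) < n := by exact_mod_cast hn
  have hL : 0 ≤ Real.log n := Real.log_natCast_nonneg n
  set y : ℝ := (n : ℝ) ^ (1 - δ) with hy
  have hy0 : 0 < y := by positivity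
  have hly : Real.log y = (1 - δ) * Real.log n := Real.log_rpow hn0 _
  set S := (range (n + 1)).filter (fun p : ℕ => p.Prime ∧ (n - p).Prime) with hS
  set S₂ := S.filter (fun p : ℕ => (p : ℝ) < y ∨ ((n - p : ℕ) : ℝ) < y) with hS₂
  have e1 : ∀ p ∈ S, ((1 - δ) * Real.log n) ^ 2 ≤
      Real.log (p : ℝ) * Real.log ((n - p : ℕ) : ℝ) +
        (if (p : ℝ) < y ∨ ((n - p : ℕ) : ℝ) < y then (Real.log n) ^ 2 else 0) := by
    intro p hp
    have a1 : 0 ≤ Real.log (p : ℝ) := Real.log_natCast_nonneg _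
    have a2 : 0 ≤ Real.log ((n - p : ℕ) : ℝ) := Real.log_natCast_nonneg _
    split_ifs with h
    · have a3 : ((1 - δ) * Real.log n) ^ 2 ≤ (Real.log n) ^ 2 := by
        apply pow_le_pow_left₀ (mul_nonneg (by linarith) hL)
        nlinarith
      have := mul_nonneg a1 a2
      linarith
    · push Not at h
      have a4 := Real.log_le_log hy0 h.1
      have a5 := Real.log_le_log hy0 h.2
      rw [hly] at a4 a5
      rw [add_zero, sq]
      exact mul_le_mul a4 a5 (mul_nonneg (by linarith) hL) a1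
  have e2 : (goldbachCount n : ℝ) * ((1 - δ) * Real.log n) ^ 2 ≤
      RR n + (S₂.card : ℝ) * (Real.log n) ^ 2 := by
    have e3 := sum_le_sum e1
    rw [sum_const, nsmul_eq_mul, sum_add_distrib, ← sum_filter, sum_const, nsmul_eq_mul] at e3
    exact e3
  have e4 : S₂.card ≤ 2 * ⌈y⌉₊ := by
    have e5 : S₂ ⊆ (range ⌈y⌉₊) ∪ (range ⌈y⌉₊).image (fun k => n - k) := by
      intro p hp
      rw [hS₂, mem_filter, hS, mem_filter, mem_range] at hp
      rw [mem_union, mem_image]
      rcases hp.2 with h | h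
      · left
        rw [mem_range]
        exact Nat.lt_ceil.2 h
      · right
        refine ⟨n - p, ?_, by omega⟩
        rw [mem_range]
        exact Nat.lt_ceil.2 h
    refine (card_le_card e5).trans ((card_union_le _ _).trans ?_)
    have := card_image_le (s := range ⌈y⌉₊) (f := fun k => n - k)
    rw [card_range] at this ⊢
    omega
  have e6 : (S₂.card : ℝ) ≤ 2 * (y + 1) := by
    have e7 : (S₂.card : ℝ) ≤ 2 * (⌈y⌉₊ : ℕ) := by exact_mod_cast e4
    have e8 := Nat.ceil_lt_add_one hy0.le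
    linarith
  refine e2.trans ?_
  have : (S₂.card : ℝ) * (Real.log n) ^ 2 ≤ 2 * (y + 1) * (Real.log n) ^ 2 :=
    mul_le_mul_of_nonneg_right e6 (by positivity)
  linarith

/-- powers of the logarithm against `n ^ δ` -/
theorem ev_npow (k : ℕ) (δ c : ℝ) (hδ : 0 < δ) (hδ1 : δ ≤ 1) :
    ∀ᶠ n : ℕ in atTop, 2 * ((n : ℝ) ^ (1 - δ) + 1) * (Real.log n) ^ k * c ≤ n := by
  obtain ⟨C, hC, h⟩ := primes_logpow k (δ / 2) (by linarith)
  have h2 : Tendsto (fun x : ℕ => ((x : ℝ)) ^ (δ / 2)) atTop atTop :=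
    (tendsto_rpow_atTop (by linarith)).comp tendsto_natCast_atTop_atTop
  filter_upwards [h2.eventually_ge_atTop (4 * |c| * C), eventually_ge_atTop 1] with n hn hn1
  have hn1' : (1 : ℝ) ≤ n := by exact_mod_cast hn1
  have hn0 : (0 : ℝ) < n := by linarith
  have h3 := h n hn1'
  have h4 : (1 : ℝ) ≤ (n : ℝ) ^ (1 - δ) := Real.one_le_rpow hn1' (by linarith)
  have h0 : 0 ≤ Real.log n := Real.log_natCast_nonneg n
  calc 2 * ((n : ℝ) ^ (1 - δ) + 1) * (Real.log n) ^ k * c
      ≤ 2 * ((n : ℝ) ^ (1 - δ) + 1) * (Real.log n) ^ k * |c| := by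
        gcongr
        exact le_abs_self c
    _ ≤ 2 * ((n : ℝ) ^ (1 - δ) + (n : ℝ) ^ (1 - δ)) * (C * (n : ℝ) ^ (δ / 2)) * |c| := by gcongr
    _ = (4 * |c| * C) * (n : ℝ) ^ (δ / 2) * (n : ℝ) ^ (1 - δ) := by ring
    _ ≤ (n : ℝ) ^ (δ / 2) * (n : ℝ) ^ (δ / 2) * (n : ℝ) ^ (1 - δ) := by gcongr
    _ = n := by
        rw [← Real.rpow_add hn0, ← Real.rpow_add hn0]
        ring_nf
        exact Real.rpow_one _

/-- from the weighted count to the number of representations -/
theorem gc_close (κ : ℝ) (hκ : 0 < κ) : ∀ᶠ n : ℕ in atTop, ∀ S : ℝ, 1 ≤ S →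
    |RR n - S * n| ≤ n / Real.log n →
    |(goldbachCount n : ℝ) - S * n / (Real.log n) ^ 2| ≤ κ * (S * n / (Real.log n) ^ 2) := by
  set δ : ℝ := κ / (4 * (1 + κ)) with hδ
  have hδ0 : 0 < δ := by positivity
  have hδ1 : δ * (4 * (1 + κ)) = κ := by
    rw [hδ]
    field_simp
  have hδ2 : δ < 1 := by
    rw [hδ, div_lt_one (by positivity)]
    linarith
  filter_upwards [evt_log (4 / κ), evt_log 1, ev_npow 2 δ (4 / κ) hδ0 hδ2.le,
    eventually_ge_atTop 3] with n h1 h2 h3 h4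
  intro S hS hRR
  set L := Real.log (n : ℝ) with hL
  have hL0 : 0 < L := by linarith
  have hn0 : (0 : ℝ) < n := by exact_mod_cast (by omega : 0 < n)
  have hL2 : 0 < L ^ 2 := by positivity
  have e1 : (n : ℝ) / L ≤ κ / 4 * (S * n) := by
    rw [div_le_iff₀ hL0]
    have a1 : 4 / κ * κ = 4 := by field_simp
    have a2 : 4 ≤ L * κ := by
      calc (4 : ℝ) = 4 / κ * κ := a1.symm
        _ ≤ L * κ := mul_le_mul_of_nonneg_right h1 hκ.le
    calc (n : ℝ) = 1 / 4 * 4 * (1 * n) := by ring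
      _ ≤ 1 / 4 * (L * κ) * (S * n) := by gcongr
      _ = κ / 4 * (S * n) * L := by ring
  have e2 : 2 * ((n : ℝ) ^ (1 - δ) + 1) * L ^ 2 ≤ κ / 4 * (S * n) := by
    have a1 : 2 * ((n : ℝ) ^ (1 - δ) + 1) * L ^ 2 * (4 / κ) ≤ n := h3
    have a2 : 2 * ((n : ℝ) ^ (1 - δ) + 1) * L ^ 2 =
        κ / 4 * (2 * ((n : ℝ) ^ (1 - δ) + 1) * L ^ 2 * (4 / κ)) := by field_simp
    rw [a2]
    have a3 : (n : ℝ) ≤ S * n := le_mul_of_one_le_left hn0.le hS
    exact mul_le_mul_of_nonneg_left (a1.trans a3) (by positivity)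
  have e3 := abs_le.1 hRR
  have hSn : 0 < S * n := by positivity
  have e4 := gc_lower n
  have e5 := gc_upper n (by omega) δ hδ0 hδ2
  rw [← hL] at e4 e5
  set g : ℝ := (goldbachCount n : ℝ) with hg
  have e6 : g * L ^ 2 * (1 - δ) ^ 2 ≤ (1 + κ / 2) * (S * n) := by
    have : g * ((1 - δ) * L) ^ 2 = g * L ^ 2 * (1 - δ) ^ 2 := by ring
    rw [← this]
    linarith [e3.2]
  have e7 : (1 + κ / 2) ≤ (1 + κ) * (1 - δ) ^ 2 := by
    nlinarith [mul_pos (by linarith : (0 : ℝ) < 1 + κ) (mul_pos hδ0 hδ0)]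
  have e8 : g * L ^ 2 ≤ (1 + κ) * (S * n) := by
    by_contra hcon
    push Not at hcon
    have h5 : 0 < (1 - δ) ^ 2 := by
      have : 0 < 1 - δ := by linarith
      positivity
    have h6 : (1 + κ) * (S * n) * (1 - δ) ^ 2 < g * L ^ 2 * (1 - δ) ^ 2 :=
      mul_lt_mul_of_pos_right hcon h5
    have h7 : (1 + κ / 2) * (S * n) ≤ (1 + κ) * (1 - δ) ^ 2 * (S * n) :=
      mul_le_mul_of_nonneg_right e7 hSn.le
    linarith
  have e9 : (1 - κ) * (S * n) ≤ g * L ^ 2 := by
    have : (0 : ℝ) ≤ κ * (S * n) := by positivity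
    nlinarith [e3.1]
  have f1 : S * n / L ^ 2 * L ^ 2 = S * n := by field_simp
  have f2 : g - S * n / L ^ 2 = (g * L ^ 2 - S * n) / L ^ 2 := by field_simp
  have f3 : κ * (S * n / L ^ 2) = (κ * (S * n)) / L ^ 2 := by field_simp
  rw [f2, f3, abs_div, abs_of_pos hL2]
  apply div_le_div_of_nonneg_right _ hL2.le
  rw [abs_le]
  constructor <;> linarith

end Pool.Agent.HLA
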