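import Pool.Agent.Work.GBM.C18

/-! # Module HLA.SingB: the singular series of Hardy and Littlewood

`tw`, `HasProd` for the twin prime constant; `SS C₂ n = 2 C₂ ∏_{p ∣ n, p > 2} (p-1)/(p-2)`;
`PiN N n = ∏_{p ≤ N} (1 + G n p)` tends to `SS C₂ n` for even `n`, and differs from the truncated product
`(q/φ(q)) ∏_{p ≤ Q, p ∤ q} (1 + G n p)` by `O (log² n / Q)`. -/

namespace Pool.Agent.HLA

open Finset Pool.Agent.BV Pool.Agent.HL Pool.Agent.HL.Sing Filter

noncomputable section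

/-- the factor of the twin prime constant -/
def tf (p : ℕ) : ℝ := 1 - 1 / ((p : ℝ) - 1) ^ 2

theorem tw_summable : Summable (fun p : {p : ℕ // p.Prime ∧ 2 < p} =>
    -(1 / (((p : ℕ) : ℝ) - 1) ^ 2)) := by
  have h1 : Summable (fun n : ℕ => 4 * (1 / (n : ℝ) ^ 2)) :=
    (Real.summable_one_div_nat_pow.2 (by norm_num)).mul_left 4
  have h2 : Summable (fun p : {p : ℕ // p.Prime ∧ 2 < p} => 4 * (1 / (((p : ℕ) : ℝ)) ^ 2)) :=
    h1.comp_injective Subtype.val_injective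
  refine Summable.neg (Summable.of_nonneg_of_le (fun p => by positivity) (fun p => ?_) h2)
  obtain ⟨p, hp, hp2⟩ := p
  have h3 : (3 : ℝ) ≤ p := by exact_mod_cast hp2
  simp only
  rw [mul_one_div, div_le_div_iff₀ (by nlinarith) (by positivity)]
  nlinarith

theorem tw_hasProd : ∃ C₂ : ℝ, HasProd (fun p : {p : ℕ // p.Prime ∧ 2 < p} =>
    1 - 1 / (((p : ℕ) : ℝ) - 1) ^ 2) C₂ := by
  have h := Real.multipliable_one_add_of_summable tw_summable
  obtain ⟨c, hc⟩ := h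
  refine ⟨c, ?_⟩
  have e : (fun p : {p : ℕ // p.Prime ∧ 2 < p} => 1 - 1 / (((p : ℕ) : ℝ) - 1) ^ 2) =
      fun p : {p : ℕ // p.Prime ∧ 2 < p} => 1 + -(1 / (((p : ℕ) : ℝ) - 1) ^ 2) := by
    funext p
    ring
  rw [e]
  exact hc

/-- the odd primes up to `N` -/
def OP (N : ℕ) : Finset ℕ := (range (N + 1)).filter (fun p => p.Prime ∧ 2 < p)

theorem tw_tendsto (C₂ : ℝ) (h : HasProd (fun p : {p : ℕ // p.Prime ∧ 2 < p} =>
    1 - 1 / (((p : ℕ) : ℝ) - 1) ^ 2) C₂) :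
    Tendsto (fun N : ℕ => ∏ p ∈ OP N, tf p) atTop (nhds C₂) := by
  classical
  have h1 : HasProd (Set.mulIndicator {p : ℕ | p.Prime ∧ 2 < p} tf) C₂ := by
    rw [← hasProd_subtype_iff_mulIndicator]
    exact h
  have h2 := (h1.tendsto_prod_nat).comp (tendsto_add_atTop_nat 1)
  refine h2.congr fun N => ?_
  simp only [Function.comp_apply]
  unfold OP
  rw [prod_filter]
  refine prod_congr rfl fun p _ => ?_
  rw [Set.mulIndicator_apply]
  rfl

/-- the singular series -/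
def SS (C₂ : ℝ) (n : ℕ) : ℝ :=
  2 * C₂ * ∏ p ∈ n.primeFactors.filter (fun p => 2 < p), (((p : ℝ) - 1) / ((p : ℝ) - 2))

/-- the product over the primes `≤ N` -/
def PiN (N n : ℕ) : ℝ := ∏ p ∈ (Icc 1 N).filter Nat.Prime, (1 + G n p)

theorem loc_eq (n p : ℕ) (hp : 2 < p) :
    1 + G n p = tf p * (if p ∣ n then (((p : ℝ) - 1) / ((p : ℝ) - 2)) else 1) := by
  have h3 : (3 : ℝ) ≤ p := by exact_mod_cast hp
  have h1 : (p : ℝ) - 1 ≠ 0 := by
    have : 0 < (p : ℝ) - 1 := by linarith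
    exact this.ne'
  have h2 : (p : ℝ) - 2 ≠ 0 := by
    have : 0 < (p : ℝ) - 2 := by linarith
    exact this.ne'
  unfold G gp tf
  split_ifs
  · field_simp
    ring
  · field_simp
    ring

theorem PiN_eq (N n : ℕ) (hn : 1 ≤ n) (he : Even n) (hN : n ≤ N) :
    PiN N n = SS (∏ p ∈ OP N, tf p) n := by
  have hn2 : 2 ≤ n := by
    obtain ⟨k, hk⟩ := he
    omega
  have h2 : 2 ∈ (Icc 1 N).filter Nat.Prime := by
    rw [mem_filter, mem_Icc]
    exact ⟨⟨by norm_num, by omega⟩, Nat.prime_two⟩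
  unfold PiN SS
  rw [← mul_prod_erase _ _ h2]
  have e1 : 1 + G n 2 = 2 := by
    unfold G gp
    rw [if_pos he.two_dvd]
    norm_num
  have e2 : ((Icc 1 N).filter Nat.Prime).erase 2 = OP N := by
    ext p
    rw [mem_erase, mem_filter, mem_Icc, OP, mem_filter, mem_range]
    constructor
    · rintro ⟨h, ⟨h3, h4⟩, h5⟩
      have := h5.two_le
      exact ⟨by omega, h5, by omega⟩
    · rintro ⟨h3, h4, h5⟩
      exact ⟨by omega, ⟨by omega, by omega⟩, h4⟩
  rw [e1, e2]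
  have e3 : ∏ p ∈ OP N, (1 + G n p) = (∏ p ∈ OP N, tf p) *
      ∏ p ∈ OP N, (if p ∣ n then (((p : ℝ) - 1) / ((p : ℝ) - 2)) else 1) := by
    rw [← prod_mul_distrib]
    refine prod_congr rfl fun p hp => loc_eq n p ?_
    rw [OP, mem_filter] at hp
    exact hp.2.2
  have e4 : ∏ p ∈ OP N, (if p ∣ n then (((p : ℝ) - 1) / ((p : ℝ) - 2)) else 1) =
      ∏ p ∈ n.primeFactors.filter (fun p => 2 < p), (((p : ℝ) - 1) / ((p : ℝ) - 2)) := by
    rw [← prod_filter]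
    refine prod_congr ?_ fun _ _ => rfl
    ext p
    rw [mem_filter, OP, mem_filter, mem_range, mem_filter, Nat.mem_primeFactors]
    constructor
    · rintro ⟨⟨h3, h4, h5⟩, h6⟩
      exact ⟨⟨h4, h6, by omega⟩, h5⟩
    · rintro ⟨⟨h3, h4, h5⟩, h6⟩
      have := Nat.le_of_dvd (by omega) h4
      exact ⟨⟨by omega, h3, h6⟩, h4⟩
  rw [e3, e4]
  ring

theorem SS_tendsto (C₂ : ℝ) (h : HasProd (fun p : {p : ℕ // p.Prime ∧ 2 < p} =>
    1 - 1 / (((p : ℕ) : ℝ) - 1) ^ 2) C₂) (n : ℕ) (hn : 1 ≤ n) (he : Even n) :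
    Tendsto (fun N : ℕ => PiN N n) atTop (nhds (SS C₂ n)) := by
  have h1 := tw_tendsto C₂ h
  have h2 : Tendsto (fun N : ℕ => SS (∏ p ∈ OP N, tf p) n) atTop (nhds (SS C₂ n)) := by
    unfold SS
    exact (h1.const_mul 2).mul_const _
  refine h2.congr' ?_
  filter_upwards [eventually_ge_atTop n] with N hN
  exact (PiN_eq N n hn he hN).symm

theorem PiN_ge (N n : ℕ) (he : Even n) : 1 ≤ PiN N n := by
  have h := main_ge 1 N n le_rfl (by simpa using he)
  rw [Nat.totient_one] at h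
  have e : PP 1 N = (Icc 1 N).filter Nat.Prime := by
    unfold PP
    refine filter_congr fun p _ => ?_
    constructor
    · exact fun h => h.1
    · intro h
      exact ⟨h, fun h' => h.one_lt.ne' (Nat.dvd_one.1 h')⟩
  rw [e, one_mul] at h
  unfold PiN
  simpa using h

theorem SS_ge (C₂ : ℝ) (h : HasProd (fun p : {p : ℕ // p.Prime ∧ 2 < p} =>
    1 - 1 / (((p : ℕ) : ℝ) - 1) ^ 2) C₂) (n : ℕ) (hn : 1 ≤ n) (he : Even n) :
    1 ≤ SS C₂ n :=
  ge_of_tendsto' (SS_tendsto C₂ h n hn he) fun N => PiN_ge N n he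

theorem G_nonneg' {n p : ℕ} (hp : p.Prime) : 0 ≤ 1 + G n p := by
  refine le_trans ?_ (G_ge hp)
  have h1 : (1 : ℝ) ≤ ((p - 1 : ℕ) : ℝ) := by
    have := hp.two_le
    exact_mod_cast (by omega : 1 ≤ p - 1)
  have h2 : (1 : ℝ) ≤ (((p - 1 : ℕ) : ℝ)) ^ 2 := by nlinarith
  have := inv_le_one_of_one_le₀ h2
  linarith

/-- `q/φ(q)` as a product -/
theorem ratio_prod (q : ℕ) (hq : 1 ≤ q) (n : ℕ) (hn : q ∣ n) :
    (q : ℝ) / q.totient = ∏ p ∈ q.primeFactors, (1 + G n p) := by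
  have h1 := Nat.totient_mul_prod_primeFactors q
  have hφ : (0 : ℝ) < q.totient := by exact_mod_cast Nat.totient_pos.2 hq
  have hP : (0 : ℝ) < ((∏ p ∈ q.primeFactors, (p - 1) : ℕ) : ℝ) := by
    have : 0 < ∏ p ∈ q.primeFactors, (p - 1) := prod_pos fun p hp => by
      have := (Nat.prime_of_mem_primeFactors hp).two_le
      omega
    exact_mod_cast this
  have h2 : (q.totient : ℝ) * ((∏ p ∈ q.primeFactors, p : ℕ) : ℝ) =
      q * ((∏ p ∈ q.primeFactors, (p - 1) : ℕ) : ℝ) := by exact_mod_cast h1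
  have h3 : (q : ℝ) / q.totient = ((∏ p ∈ q.primeFactors, p : ℕ) : ℝ) /
      ((∏ p ∈ q.primeFactors, (p - 1) : ℕ) : ℝ) := by
    rw [div_eq_div_iff hφ.ne' hP.ne']
    linarith
  rw [h3]
  push_cast
  rw [← prod_div_distrib]
  refine prod_congr rfl fun p hp => ?_
  have hpp := Nat.prime_of_mem_primeFactors hp
  have hpn : p ∣ n := (Nat.dvd_of_mem_primeFactors hp).trans hn
  have h5 : (2 : ℝ) ≤ p := by exact_mod_cast hpp.two_le
  have h6 : (p : ℝ) - 1 ≠ 0 := by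
    have : 0 < (p : ℝ) - 1 := by linarith
    exact this.ne'
  unfold G gp
  rw [if_pos hpn]
  have h7 : ((p - 1 : ℕ) : ℝ) = (p : ℝ) - 1 := by
    rw [Nat.cast_sub hpp.one_lt.le, Nat.cast_one]
  rw [h7]
  field_simp
  ring

/-- the primes in `(Q, N]` not dividing `q` -/
def EP (q Q N : ℕ) : Finset ℕ := (Icc 1 N).filter (fun p => p.Prime ∧ ¬ p ∣ q ∧ Q < p)

theorem PiN_split (q Q N n : ℕ) (hq : 1 ≤ q) (hn : q ∣ n) (hqN : q ≤ N) (hQN : Q ≤ N) :
    PiN N n = (q : ℝ) / q.totient * (∏ p ∈ PP q Q, (1 + G n p)) * ∏ p ∈ EP q Q N, (1 + G n p) := by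
  unfold PiN
  rw [ratio_prod q hq n hn, ← prod_filter_mul_prod_filter_not _ (fun p => p ∣ q),
    ← prod_filter_mul_prod_filter_not (((Icc 1 N).filter Nat.Prime).filter (fun p => ¬ p ∣ q))
    (fun p => p ≤ Q), mul_assoc]
  congr 1
  · refine prod_congr ?_ fun _ _ => rfl
    ext p
    rw [mem_filter, mem_filter, mem_Icc, Nat.mem_primeFactors]
    constructor
    · rintro ⟨⟨⟨h3, h4⟩, h5⟩, h6⟩
      exact ⟨h5, h6, by omega⟩
    · rintro ⟨h3, h4, h5⟩
      have := Nat.le_of_dvd (by omega) h4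
      exact ⟨⟨⟨h3.one_lt.le, by omega⟩, h3⟩, h4⟩
  · congr 1
    · refine prod_congr ?_ fun _ _ => rfl
      ext p
      rw [mem_filter, mem_filter, mem_filter, mem_Icc, PP, mem_filter, mem_Icc]
      constructor
      · rintro ⟨⟨⟨⟨h3, h4⟩, h5⟩, h6⟩, h7⟩
        exact ⟨⟨h3, h7⟩, h5, h6⟩
      · rintro ⟨⟨h3, h4⟩, h5, h6⟩
        exact ⟨⟨⟨⟨h3, by omega⟩, h5⟩, h6⟩, h4⟩
    · refine prod_congr ?_ fun _ _ => rfl
      ext p
      rw [mem_filter, mem_filter, mem_filter, mem_Icc, EP, mem_filter, mem_Icc]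
      constructor
      · rintro ⟨⟨⟨⟨h3, h4⟩, h5⟩, h6⟩, h7⟩
        exact ⟨⟨h3, h4⟩, h5, h6, by omega⟩
      · rintro ⟨⟨h3, h4⟩, h5, h6, h7⟩
        exact ⟨⟨⟨⟨h3, h4⟩, h5⟩, h6⟩, by omega⟩

theorem card_pf_le (n : ℕ) (hn : 1 ≤ n) : (n.primeFactors.card : ℝ) ≤ 2 * Real.log n := by
  have h1 : 2 ^ n.primeFactors.card ≤ n := by
    calc 2 ^ n.primeFactors.card ≤ ∏ p ∈ n.primeFactors, p :=
          Finset.pow_card_le_prod _ _ _ fun p hp => (Nat.prime_of_mem_primeFactors hp).two_le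
      _ ≤ n := Nat.le_of_dvd hn (Nat.prod_primeFactors_dvd n)
  have h2 : (2 : ℝ) ^ n.primeFactors.card ≤ n := by exact_mod_cast h1
  have h3 := Real.log_le_log (by positivity) h2
  rw [Real.log_pow] at h3
  have h4 := Real.log_two_gt_d9
  have h5 : (0 : ℝ) ≤ n.primeFactors.card := by positivity
  nlinarith

/-- upper bound for the outer product -/
theorem EP_le (q Q N n : ℕ) (hn : 1 ≤ n) (hQ : 1 ≤ Q) :
    ∏ p ∈ EP q Q N, (1 + G n p) ≤ Real.exp (2 * Real.log n / Q) := by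
  have hQ0 : (0 : ℝ) < Q := by exact_mod_cast hQ
  calc ∏ p ∈ EP q Q N, (1 + G n p) ≤ ∏ p ∈ EP q Q N, Real.exp (if p ∣ n then 1 / (Q : ℝ) else 0) := by
        refine prod_le_prod (fun p hp => ?_) fun p hp => ?_
        · rw [EP, mem_filter] at hp
          exact G_nonneg' hp.2.1
        · rw [EP, mem_filter] at hp
          obtain ⟨-, hp1, -, hp2⟩ := hp
          have h1 : (Q : ℝ) + 1 ≤ p := by exact_mod_cast hp2
          have h2 : (Q : ℝ) ≤ (p : ℝ) - 1 := by linarith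
          unfold G gp
          split_ifs with h
          · have h3 : ((p : ℝ) - 1) / ((p : ℝ) - 1) ^ 2 = 1 / ((p : ℝ) - 1) := by
              have : (p : ℝ) - 1 ≠ 0 := by
                have : 0 < (p : ℝ) - 1 := by linarith
                exact this.ne'
              field_simp
            rw [h3]
            have h4 : 1 / ((p : ℝ) - 1) ≤ 1 / Q := one_div_le_one_div_of_le hQ0 h2
            have h5 := Real.add_one_le_exp (1 / (Q : ℝ))
            linarith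
          · rw [Real.exp_zero, neg_div]
            have : 0 ≤ 1 / ((p : ℝ) - 1) ^ 2 := by positivity
            linarith
    _ = Real.exp (∑ p ∈ EP q Q N, (if p ∣ n then 1 / (Q : ℝ) else 0)) := by rw [Real.exp_sum]
    _ ≤ Real.exp (2 * Real.log n / Q) := by
        rw [Real.exp_le_exp, ← sum_filter, sum_const, nsmul_eq_mul, mul_one_div]
        have h1 : ((EP q Q N).filter (fun p => p ∣ n)).card ≤ n.primeFactors.card := by
          refine card_le_card fun p hp => ?_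
          rw [mem_filter, EP, mem_filter] at hp
          rw [Nat.mem_primeFactors]
          exact ⟨hp.1.2.1, hp.2, by omega⟩
        have h2 : (((EP q Q N).filter (fun p => p ∣ n)).card : ℝ) ≤ n.primeFactors.card := by
          exact_mod_cast h1
        have h3 := card_pf_le n hn
        gcongr
        linarith

theorem one_sub_sum (S : Finset ℕ) (a : ℕ → ℝ) (h : ∀ p ∈ S, 0 ≤ a p ∧ a p ≤ 1) :
    1 - ∑ p ∈ S, a p ≤ ∏ p ∈ S, (1 - a p) := by
  classical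
  induction S using Finset.induction_on with
  | empty => simp
  | insert p S hp ih =>
    rw [sum_insert hp, prod_insert hp]
    have h1 := ih fun p' hp' => h p' (mem_insert_of_mem hp')
    have h2 := h p (mem_insert_self _ _)
    have h3 : ∏ p' ∈ S, (1 - a p') ≤ 1 := prod_le_one
      (fun p' hp' => by linarith [(h p' (mem_insert_of_mem hp')).2])
      (fun p' hp' => by linarith [(h p' (mem_insert_of_mem hp')).1])
    nlinarith

/-- lower bound for the outer product -/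
theorem EP_ge (q Q N n : ℕ) (hQ : 1 ≤ Q) :
    1 - 2 / (Q : ℝ) ≤ ∏ p ∈ EP q Q N, (1 + G n p) := by
  have hQ0 : (0 : ℝ) < Q := by exact_mod_cast hQ
  have h1 : ∀ p ∈ EP q Q N, 0 ≤ ((((p - 1 : ℕ) : ℝ)) ^ 2)⁻¹ ∧ ((((p - 1 : ℕ) : ℝ)) ^ 2)⁻¹ ≤ 1 := by
    intro p hp
    rw [EP, mem_filter] at hp
    have h1 : (1 : ℝ) ≤ ((p - 1 : ℕ) : ℝ) := by
      have := hp.2.1.two_le
      exact_mod_cast (by omega : 1 ≤ p - 1)
    have h2 : (1 : ℝ) ≤ (((p - 1 : ℕ) : ℝ)) ^ 2 := by nlinarith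
    exact ⟨by positivity, inv_le_one_of_one_le₀ h2⟩
  have h2 : ∑ p ∈ EP q Q N, ((((p - 1 : ℕ) : ℝ)) ^ 2)⁻¹ ≤ 2 / (Q : ℝ) := by
    have e1 : ∑ p ∈ EP q Q N, ((((p - 1 : ℕ) : ℝ)) ^ 2)⁻¹ =
        ∑ k ∈ (EP q Q N).image (fun p : ℕ => p - 1), ((((k : ℕ) : ℝ)) ^ 2)⁻¹ := by
      rw [sum_image]
      intro a ha b hb hab
      rw [SetLike.mem_coe, EP, mem_filter] at ha hb
      have := ha.2.1.two_le
      have := hb.2.1.two_le
      simp only at hab
      omega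
    rw [e1]
    calc ∑ k ∈ (EP q Q N).image (fun p : ℕ => p - 1), ((((k : ℕ) : ℝ)) ^ 2)⁻¹
        ≤ ∑ k ∈ Ioo (Q - 1) (N + 1), ((((k : ℕ) : ℝ)) ^ 2)⁻¹ := by
          refine sum_le_sum_of_subset_of_nonneg ?_ fun _ _ _ => by positivity
          intro k hk
          obtain ⟨p, hp, rfl⟩ := mem_image.1 hk
          rw [EP, mem_filter, mem_Icc] at hp
          rw [mem_Ioo]
          omega
      _ ≤ 2 / (((Q - 1 : ℕ) : ℝ) + 1) := sum_Ioo_inv_sq_le _ _
      _ = 2 / (Q : ℝ) := by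
          rw [Nat.cast_sub hQ]
          norm_num
  calc 1 - 2 / (Q : ℝ) ≤ 1 - ∑ p ∈ EP q Q N, ((((p - 1 : ℕ) : ℝ)) ^ 2)⁻¹ := by linarith
    _ ≤ ∏ p ∈ EP q Q N, (1 - ((((p - 1 : ℕ) : ℝ)) ^ 2)⁻¹) := one_sub_sum _ _ h1
    _ ≤ _ := by
        refine prod_le_prod (fun p hp => by linarith [(h1 p hp).2]) fun p hp => ?_
        rw [EP, mem_filter] at hp
        exact G_ge hp.2.1

theorem PiN_le (N n : ℕ) (hn : 1 ≤ n) (hN : n ≤ N) : PiN N n ≤ 2 * (1 + Real.log n) := by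
  refine le_trans ?_ (ratio_le n hn)
  rw [ratio_prod n hn n dvd_rfl]
  unfold PiN
  rw [← prod_filter_mul_prod_filter_not _ (fun p => p ∣ n)]
  have e1 : ((Icc 1 N).filter Nat.Prime).filter (fun p => p ∣ n) = n.primeFactors := by
    ext p
    rw [mem_filter, mem_filter, mem_Icc, Nat.mem_primeFactors]
    constructor
    · rintro ⟨⟨⟨h3, h4⟩, h5⟩, h6⟩
      exact ⟨h5, h6, by omega⟩
    · rintro ⟨h3, h4, h5⟩
      have := Nat.le_of_dvd (by omega) h4
      exact ⟨⟨⟨h3.one_lt.le, by omega⟩, h3⟩, h4⟩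
  rw [e1]
  have h1 : 0 ≤ ∏ p ∈ n.primeFactors, (1 + G n p) :=
    prod_nonneg fun p hp => G_nonneg' (Nat.prime_of_mem_primeFactors hp)
  refine mul_le_of_le_one_right h1 (prod_le_one (fun p hp => ?_) fun p hp => ?_)
  · rw [mem_filter, mem_filter] at hp
    exact G_nonneg' hp.1.2
  · rw [mem_filter, mem_filter] at hp
    unfold G gp
    rw [if_neg hp.2, neg_div]
    have : 0 ≤ 1 / ((p : ℝ) - 1) ^ 2 := by positivity
    linarith

/-- **Comparison** of the truncated product with the singular series -/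
theorem trunc_close (C₂ : ℝ) (h : HasProd (fun p : {p : ℕ // p.Prime ∧ 2 < p} =>
    1 - 1 / (((p : ℕ) : ℝ) - 1) ^ 2) C₂) (q Q m : ℕ) (hq : 1 ≤ q) (hm : 1 ≤ m)
    (he : Even (q * m)) (hQ : 4 ≤ Q) (hQn : 2 * Real.log ((q * m : ℕ) : ℝ) ≤ Q) :
    |(q : ℝ) / q.totient * (∏ p ∈ PP q Q, (1 + G (q * m) p)) - SS C₂ (q * m)| ≤
      16 * (1 + Real.log ((q * m : ℕ) : ℝ)) ^ 2 / Q := by
  set n := q * m with hn
  have hn1 : 1 ≤ n := Nat.mul_pos hq hm
  have hn2 : 2 ≤ n := by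
    obtain ⟨k, hk⟩ := he
    omega
  have hQ0 : (0 : ℝ) < Q := by exact_mod_cast (by omega : 0 < Q)
  have hQ4 : (4 : ℝ) ≤ Q := by exact_mod_cast hQ
  set l := Real.log (n : ℝ) with hl
  have hl0 : 0 ≤ l := Real.log_natCast_nonneg n
  set P := (q : ℝ) / q.totient * (∏ p ∈ PP q Q, (1 + G n p)) with hP
  have hP1 : 1 ≤ P := main_ge q Q m hq he
  have h1 : ∀ᶠ N : ℕ in atTop, |P - PiN N n| ≤ 16 * (1 + l) ^ 2 / Q := by
    filter_upwards [eventually_ge_atTop (max n (max q Q))] with N hN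
    simp only [max_le_iff] at hN
    obtain ⟨hN1, hN2, hN3⟩ := hN
    have e1 := PiN_split q Q N n hq (Dvd.intro m hn.symm) hN2 hN3
    rw [← hP] at e1
    set X := ∏ p ∈ EP q Q N, (1 + G n p) with hX
    have hX1 := EP_ge q Q N n (by omega)
    have hX2 := EP_le q Q N n hn1 (by omega)
    rw [← hX] at hX1 hX2
    rw [← hl] at hX2
    have hPi := PiN_le N n hn1 hN1
    have h2Q : 2 / (Q : ℝ) ≤ 1 / 2 := by
      rw [div_le_div_iff₀ hQ0 (by norm_num)]
      linarith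
    have hPX : P ≤ 4 * (1 + l) := by
      have : P * (1 / 2) ≤ P * X := mul_le_mul_of_nonneg_left (by linarith) (by linarith)
      rw [← e1] at this
      linarith
    have ht : 2 * l / Q ≤ 1 := by
      rw [div_le_one hQ0]
      exact hQn
    have ht0 : 0 ≤ 2 * l / Q := by positivity
    have hexp : Real.exp (2 * l / Q) ≤ 1 + 2 * (2 * l / Q) := by
      have := Real.abs_exp_sub_one_le (x := 2 * l / Q) (by rw [abs_of_nonneg ht0]; exact ht)
      rw [abs_of_nonneg ht0] at this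
      have h3 := (abs_le.1 this).2
      linarith
    have hXabs : |X - 1| ≤ 4 * (1 + l) / Q := by
      rw [abs_le]
      have e2 : 2 * (2 * l / Q) ≤ 4 * (1 + l) / Q := by
        rw [← mul_div_assoc, div_le_div_iff_of_pos_right hQ0]
        linarith
      have e3 : 2 / (Q : ℝ) ≤ 4 * (1 + l) / Q := by
        rw [div_le_div_iff_of_pos_right hQ0]
        linarith
      constructor <;> linarith
    rw [e1, abs_sub_comm]
    have e4 : P * X - P = P * (X - 1) := by ring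
    rw [e4, abs_mul, abs_of_nonneg (by linarith : 0 ≤ P)]
    calc P * |X - 1| ≤ (4 * (1 + l)) * (4 * (1 + l) / Q) := by gcongr
      _ = 16 * (1 + l) ^ 2 / Q := by ring
  have h2 : Tendsto (fun N : ℕ => |P - PiN N n|) atTop (nhds |P - SS C₂ n|) :=
    ((SS_tendsto C₂ h n hn1 he).const_sub P).abs
  exact le_of_tendsto h2 h1

theorem Sg_abs (q Q m : ℕ) : |Sg q Q m - ∏ p ∈ PP q Q, (1 + G (q * m) p)| ≤ T q Q m := by
  rw [prod_one_add, ← sum_filter_add_sum_filter_not _ (fun W => ∏ p ∈ W, p ≤ Q), ← Sg_eq]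
  have e : Sg q Q m - (Sg q Q m +
      ∑ W ∈ (PP q Q).powerset.filter (fun W => ¬ ∏ p ∈ W, p ≤ Q), ∏ p ∈ W, G (q * m) p) =
      -∑ W ∈ (PP q Q).powerset.filter (fun W => ¬ ∏ p ∈ W, p ≤ Q), ∏ p ∈ W, G (q * m) p := by ring
  rw [e, abs_neg]
  unfold T
  refine (abs_sum_le_sum_abs _ _).trans (le_of_eq (sum_congr rfl fun W _ => abs_prod _ _))

/-- few `m` with a large tail -/
theorem T_count (q Q M : ℕ) (hQ : 1 ≤ Q) (t : ℝ) (ht : 0 < t) :
    (((Icc 1 M).filter (fun m => t ≤ T q Q m)).card : ℝ) ≤ C1 * M / √(Q : ℝ) / t := by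
  rw [le_div_iff₀ ht]
  refine le_trans ?_ (sum_T_le q Q M hQ)
  calc (((Icc 1 M).filter (fun m => t ≤ T q Q m)).card : ℝ) * t =
        ∑ m ∈ (Icc 1 M).filter (fun m => t ≤ T q Q m), t := by
        rw [sum_const, nsmul_eq_mul]
    _ ≤ ∑ m ∈ (Icc 1 M).filter (fun m => t ≤ T q Q m), T q Q m :=
        sum_le_sum fun m hm => (mem_filter.1 hm).2
    _ ≤ _ := sum_le_sum_of_subset_of_nonneg (filter_subset _ _) fun m _ _ => T_nonneg q Q m

end

end Pool.Agent.HLA
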