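import Pool.Agent.Work.MP_92f640_nt.HLA.TMainG
import Pool.Agent.Work.MP_92f640_nt.HLA.TL2G
import Pool.Agent.Work.MP_92f640_nt.HLA.SingG
import Pool.Agent.Work.MP_92f640_nt.HLA.ConvG

/-! # Module HLA.CountG: counting, and the deterministic part

As `HL.Final2`, with the asymptotic formula in place of a lower bound. -/

namespace Pool.Agent.HLA

open Finset Pool.Agent.BV Pool.Agent.HL Pool.Agent.HL.Sing Filter
open scoped ArithmeticFunction.vonMangoldt

theorem cv_comm' (f g : ℕ → ℂ) (n : ℕ) : cv f g n = cv g f n := by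
  unfold cv
  refine sum_nbij' (fun k => n - k) (fun k => n - k) ?_ ?_ ?_ ?_ ?_
  · intro k hk
    simp only [mem_Ico] at hk ⊢
    omega
  · intro k hk
    simp only [mem_Ico] at hk ⊢
    omega
  · intro k hk
    simp only [mem_Ico] at hk
    omega
  · intro k hk
    simp only [mem_Ico] at hk
    omega
  · intro k hk
    simp only [mem_Ico] at hk
    rw [Nat.sub_sub_self hk.2.le, mul_comm]

theorem cv_diff (f g : ℕ → ℂ) (n : ℕ) :
    cv f f n - cv g g n = cv (fun k => f k - g k) f n + cv (fun k => f k - g k) g n := by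
  have h1 : cv (fun k => f k - g k) g n = cv g (fun k => f k - g k) n := cv_comm' _ _ _
  rw [h1]
  unfold cv
  rw [← sum_sub_distrib, ← sum_add_distrib]
  apply sum_congr rfl
  intro k _
  ring

theorem count_gen (q x B'' Q : ℕ) (C t : ℝ) (hC : 0 ≤ C) (ht : 0 < t) (hx : 3 ≤ x) (hq : 1 ≤ q)
    (hV : ∀ α, VV q x (fun n => FL q n - TM q Q n) α ≤ (x : ℝ) ^ 2 / (q * (Real.log x) ^ B''))
    (hT : ∑ n ∈ Icc 1 x, ‖TM q Q n‖ ^ 2 ≤ C * x * (Real.log x) ^ 3) :
    (((Icc 1 (x / q)).filter (fun m => (x : ℝ) / t ≤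
      ‖cv (FL q) (FL q) (q * m) - cv (TM q Q) (TM q Q) (q * m)‖)).card : ℝ) ≤
      2 * t ^ 2 * (1 + C) * x * (Real.log x) ^ 3 / (q * (Real.log x) ^ B'') := by
  have hL := one_le_log hx
  have hx0 : (0 : ℝ) < x := by exact_mod_cast (by omega : 0 < x)
  have hq0 : (0 : ℝ) < q := by exact_mod_cast hq
  set L := Real.log x with hLdef
  set K : ℝ := (x : ℝ) ^ 2 / (q * L ^ B'') with hK
  have hK0 : 0 ≤ K := by positivity
  have h1 := circle q x hq _ (FL q) K hV
  have h2 := circle q x hq _ (TM q Q) K hV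
  have hF := fl_sq_sum_le q x
  set D : ℕ → ℝ := fun m => ‖cv (FL q) (FL q) (q * m) - cv (TM q Q) (TM q Q) (q * m)‖ with hD
  have h3 : ∑ m ∈ Icc 1 (x / q), D m ^ 2 ≤ 2 * K * ((1 + C) * x * L ^ 3) := by
    have h4 : ∀ m ∈ Icc 1 (x / q), D m ^ 2 ≤
        2 * ‖cv (fun n => FL q n - TM q Q n) (FL q) (q * m)‖ ^ 2 +
        2 * ‖cv (fun n => FL q n - TM q Q n) (TM q Q) (q * m)‖ ^ 2 := by
      intro m _
      have h5 : D m ≤ ‖cv (fun n => FL q n - TM q Q n) (FL q) (q * m)‖ +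
          ‖cv (fun n => FL q n - TM q Q n) (TM q Q) (q * m)‖ := by
        rw [hD]
        beta_reduce
        rw [cv_diff]
        exact norm_add_le _ _
      have h6 : 0 ≤ D m := norm_nonneg _
      nlinarith [sq_nonneg (‖cv (fun n => FL q n - TM q Q n) (FL q) (q * m)‖ -
          ‖cv (fun n => FL q n - TM q Q n) (TM q Q) (q * m)‖)]
    refine (sum_le_sum h4).trans ?_
    rw [sum_add_distrib, ← mul_sum, ← mul_sum]
    have h7 : K * ∑ n ∈ Icc 1 x, ‖FL q n‖ ^ 2 ≤ K * (x * L ^ 3) := by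
      apply mul_le_mul_of_nonneg_left _ hK0
      refine hF.trans ?_
      apply mul_le_mul_of_nonneg_left _ hx0.le
      exact pow_le_pow_right₀ hL (by norm_num)
    have h8 : K * ∑ n ∈ Icc 1 x, ‖TM q Q n‖ ^ 2 ≤ K * (C * x * L ^ 3) :=
      mul_le_mul_of_nonneg_left hT hK0
    nlinarith [h1, h2, h7, h8]
  set S := (Icc 1 (x / q)).filter (fun m => (x : ℝ) / t ≤ D m) with hS
  have h9 : (S.card : ℝ) * ((x : ℝ) / t) ^ 2 ≤ 2 * K * ((1 + C) * x * L ^ 3) := by
    calc (S.card : ℝ) * ((x : ℝ) / t) ^ 2 = ∑ m ∈ S, ((x : ℝ) / t) ^ 2 := by simp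
      _ ≤ ∑ m ∈ S, D m ^ 2 := by
          apply sum_le_sum
          intro m hm
          rw [hS, mem_filter] at hm
          exact pow_le_pow_left₀ (by positivity) hm.2 2
      _ ≤ ∑ m ∈ Icc 1 (x / q), D m ^ 2 := by
          apply sum_le_sum_of_subset_of_nonneg (filter_subset _ _)
          intro m _ _
          positivity
      _ ≤ _ := h3
  have h10 : (S.card : ℝ) ≤ 2 * K * ((1 + C) * x * L ^ 3) / ((x : ℝ) / t) ^ 2 := by
    rw [le_div_iff₀ (by positivity)]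
    exact h9
  refine h10.trans (le_of_eq ?_)
  rw [hK]
  have hLB : 0 < L ^ B'' := by positivity
  field_simp

/-- the deterministic part: good `m` give the asymptotic formula -/
theorem good_asym (C₂ : ℝ) (h : HasProd (fun p : {p : ℕ // p.Prime ∧ 2 < p} =>
    1 - 1 / (((p : ℕ) : ℝ) - 1) ^ 2) C₂) (K q Q m x B₁ : ℕ) (hq : 1 ≤ q) (hm : 1 ≤ m)
    (hB₁ : 4 * K + 12 ≤ B₁) (hx3 : 3 ≤ x) (hL64 : 64 ≤ Real.log x)
    (hn3 : 3 ≤ q * m) (hn : q * m ≤ x) (hx2 : x < 2 * (q * m)) (hev : Even (q * m))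
    (hQ : (Real.log x) ^ B₁ ≤ (Q : ℝ))
    (hr : (q : ℝ) / q.totient ≤ 4 * Real.log x)
    (hd : ‖cv (FL q) (FL q) (q * m) - cv (TM q Q) (TM q Q) (q * m)‖ <
      (x : ℝ) / (Real.log x) ^ (K + 2))
    (hT : T q Q m < 1 / (Real.log x) ^ (K + 3))
    (he : 4 * ((q : ℝ) / q.totient) * q * (Q : ℝ) ^ 4 ≤ (x : ℝ) / (Real.log x) ^ (K + 2))
    (hp : 5 * Real.sqrt x * (Real.log x) ^ 2 ≤ (x : ℝ) / (Real.log x) ^ (K + 2)) :
    |RR (q * m) - SS C₂ (q * m) * ((q * m : ℕ) : ℝ)| ≤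
      ((q * m : ℕ) : ℝ) / (Real.log ((q * m : ℕ) : ℝ)) ^ K := by
  set L := Real.log (x : ℝ) with hLdef
  have hL0 : 0 < L := by linarith
  have hL1 : 1 ≤ L := by linarith
  have hLB : L ≤ L ^ B₁ := by
    calc L = L ^ 1 := (pow_one L).symm
      _ ≤ L ^ B₁ := pow_le_pow_right₀ hL1 (by omega)
  have hLB2 : L ^ 2 ≤ L ^ B₁ := pow_le_pow_right₀ hL1 (by omega)
  have hQ4 : 4 ≤ Q := by
    have : (4 : ℝ) ≤ Q := by linarith
    exact_mod_cast this
  have hTm := T_main q Q m hq (by omega) hm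
  have hR := RR_close q (q * m) (Dvd.intro m rfl) hn3
  set n := q * m with hndef
  have hn0 : (0 : ℝ) < n := by exact_mod_cast (by omega : 0 < n)
  have hnx : (n : ℝ) ≤ x := by exact_mod_cast hn
  have hx2' : (x : ℝ) < 2 * n := by exact_mod_cast hx2
  have hx0 : (0 : ℝ) < x := by linarith
  have hl1 : 1 ≤ Real.log n := one_le_log hn3
  have hlL : Real.log n ≤ L := Real.log_le_log hn0 hnx
  have hQn : 2 * Real.log (n : ℝ) ≤ Q := by
    have : 2 * L ≤ L ^ 2 := by nlinarith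
    linarith
  have hc := trunc_close C₂ h q Q m hq hm hev hQ4 hQn
  rw [← hndef] at hc
  have hQ0 : (0 : ℝ) < Q := by linarith
  set ρ : ℝ := (q : ℝ) / q.totient with hρ
  have hρ0 : 0 ≤ ρ := by positivity
  set E : ℝ := (x : ℝ) / L ^ (K + 2) with hE
  have hE0 : 0 < E := by positivity
  -- the five errors
  have a1 : |(cv (FL q) (FL q) n).re - (cv (TM q Q) (TM q Q) n).re| ≤ E := by
    have := (Complex.abs_re_le_norm (cv (FL q) (FL q) n - cv (TM q Q) (TM q Q) n)).trans hd.le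
    rwa [Complex.sub_re] at this
  have a2 : |(cv (TM q Q) (TM q Q) n).re - ρ * (n : ℝ) * Sg q Q m| ≤ E := by
    have := (Complex.abs_re_le_norm (cv (TM q Q) (TM q Q) n -
        ((ρ * (n : ℝ) * Sg q Q m : ℝ) : ℂ))).trans (hTm.trans he)
    rwa [Complex.sub_re, Complex.ofReal_re] at this
  set W : ℝ := ∏ p ∈ PP q Q, (1 + G n p) with hW
  have a3 : |ρ * (n : ℝ) * Sg q Q m - n * (ρ * W)| ≤ 4 * E := by
    have e1 : ρ * (n : ℝ) * Sg q Q m - n * (ρ * W) = ρ * n * (Sg q Q m - W) := by ring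
    rw [e1, abs_mul, abs_of_nonneg (by positivity : 0 ≤ ρ * (n : ℝ))]
    have e2 : |Sg q Q m - W| ≤ 1 / L ^ (K + 3) := (Sg_abs q Q m).trans hT.le
    calc ρ * n * |Sg q Q m - W| ≤ (4 * L) * x * (1 / L ^ (K + 3)) := by gcongr
      _ = 4 * E := by
          rw [hE, show L ^ (K + 3) = L ^ (K + 2) * L by ring]
          field_simp
  have a4 : |n * (ρ * W) - SS C₂ n * n| ≤ E := by
    have e1 : n * (ρ * W) - SS C₂ n * n = n * (ρ * W - SS C₂ n) := by ring
    rw [e1, abs_mul, abs_of_nonneg hn0.le]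
    calc (n : ℝ) * |ρ * W - SS C₂ n| ≤ n * (16 * (1 + Real.log n) ^ 2 / Q) := by gcongr
      _ ≤ x * (16 * (2 * L) ^ 2 / L ^ B₁) := by
          have e2 : 1 + Real.log (n : ℝ) ≤ 2 * L := by linarith
          have e3 : 16 * (1 + Real.log (n : ℝ)) ^ 2 ≤ 16 * (2 * L) ^ 2 := by gcongr
          have e4 : 16 * (1 + Real.log (n : ℝ)) ^ 2 / Q ≤ 16 * (2 * L) ^ 2 / L ^ B₁ :=
            div_le_div₀ (by positivity) e3 (by positivity) hQ
          exact mul_le_mul hnx e4 (by positivity) hx0.le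
      _ ≤ x * (1 / L ^ (K + 2)) := by
          apply mul_le_mul_of_nonneg_left _ hx0.le
          rw [div_le_div_iff₀ (by positivity) (by positivity), one_mul]
          calc 16 * (2 * L) ^ 2 * L ^ (K + 2) = 64 * L ^ (K + 4) := by ring
            _ ≤ L * L ^ (K + 4) := by gcongr
            _ = L ^ (K + 5) := by ring
            _ ≤ L ^ B₁ := pow_le_pow_right₀ hL1 (by omega)
      _ = E := by rw [hE]; ring
  have a5 : |RR n - (cv (FL q) (FL q) n).re| ≤ E := by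
    refine hR.trans (le_trans ?_ hp)
    have e1 : Real.sqrt n ≤ Real.sqrt x := Real.sqrt_le_sqrt hnx
    have e2 : (Real.log n) ^ 2 ≤ L ^ 2 := pow_le_pow_left₀ (by linarith) hlL 2
    gcongr
  have a6 : |RR n - SS C₂ n * n| ≤ 8 * E := by
    rw [abs_le] at a1 a2 a3 a4 a5 ⊢
    constructor <;> linarith [a1.1, a1.2, a2.1, a2.2, a3.1, a3.2, a4.1, a4.2, a5.1, a5.2]
  refine a6.trans ?_
  have hlK : (Real.log (n : ℝ)) ^ K ≤ L ^ K := pow_le_pow_left₀ (by linarith) hlL K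
  have hlK0 : 0 < (Real.log (n : ℝ)) ^ K := by
    have : 0 < Real.log (n : ℝ) := by linarith
    positivity
  calc 8 * E = 8 * x / L ^ (K + 2) := by rw [hE]; ring
    _ ≤ (n : ℝ) * L ^ 2 / L ^ (K + 2) := by
        apply div_le_div_of_nonneg_right _ (by positivity)
        have : (16 : ℝ) ≤ L ^ 2 := by nlinarith
        nlinarith
    _ = (n : ℝ) / L ^ K := by
        rw [show L ^ (K + 2) = L ^ K * L ^ 2 by ring]
        field_simp
    _ ≤ (n : ℝ) / (Real.log (n : ℝ)) ^ K := by gcongr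

end Pool.Agent.HLA
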