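import Pool.Agent.Work.MP_92f640_nt.HLA.PrimeId
import Pool.Agent.Work.GBM.C23

/-! # Module HLA.DensG: the density of the primes

`vv z n = 1 / log n` for `n ≥ z`, of bounded variation; `dens_P`: `|∑_{n ≤ y} (Pf z n - vv z n)| ≤ x/L^B` for `z = zx (2/3) x`. -/

namespace Pool.Agent.HLA

open Finset Filter Pool.Agent.BV Pool.Agent.HL Pool.Agent.HS

noncomputable section

/-- the density -/
def vv (z n : ℕ) : ℝ := if z ≤ n then 1 / Real.log n else 0

theorem inv_log_anti {z n : ℕ} (hz : 3 ≤ z) (hn : z ≤ n) :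
    1 / Real.log ((n + 1 : ℕ) : ℝ) ≤ 1 / Real.log (n : ℝ) := by
  have h1 : (1 : ℝ) < n := by exact_mod_cast (by omega : 1 < n)
  have h2 : 0 < Real.log (n : ℝ) := Real.log_pos h1
  refine div_le_div_of_nonneg_left zero_le_one h2 ?_
  refine Real.log_le_log (by linarith) ?_
  push_cast
  linarith

theorem inv_log_le {z n : ℕ} (hz : 3 ≤ z) (hn : z ≤ n) : 1 / Real.log (n : ℝ) ≤ 1 := by
  have h1 : (3 : ℝ) ≤ n := by exact_mod_cast (by omega : 3 ≤ n)
  have h2 : 1 ≤ Real.log (n : ℝ) := by
    rw [Real.le_log_iff_exp_le (by linarith)]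
    linarith [Real.exp_one_lt_d9]
  rw [div_le_one (by linarith)]
  exact h2

theorem inv_log_nonneg (n : ℕ) : 0 ≤ 1 / Real.log (n : ℝ) := by
  have := Real.log_natCast_nonneg n
  positivity

theorem vv_bvar (x z : ℕ) (hz : 3 ≤ z) : BVar x 2 (vv z) where
  bd := by
    intro n
    unfold vv
    split_ifs with h
    · rw [abs_of_nonneg (inv_log_nonneg n)]
      linarith [inv_log_le hz h]
    · simp
  tv := by
    have key : ∀ N : ℕ, (N < z → ∑ n ∈ range N, |vv z (n + 1) - vv z n| = 0) ∧
        (z ≤ N → ∑ n ∈ range N, |vv z (n + 1) - vv z n| ≤ 2 * (1 / Real.log (z : ℝ)) -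
          1 / Real.log (N : ℝ)) := by
      intro N
      induction N with
      | zero => exact ⟨fun _ => by simp, fun h => by omega⟩
      | succ N ih =>
        obtain ⟨ih1, ih2⟩ := ih
        refine ⟨fun h => ?_, fun h => ?_⟩
        · rw [sum_range_succ, ih1 (by omega)]
          unfold vv
          rw [if_neg (by omega), if_neg (by omega)]
          simp
        · rw [sum_range_succ]
          rcases Nat.lt_or_ge N z with h1 | h1
          · have h2 : N + 1 = z := by omega
            rw [ih1 h1]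
            unfold vv
            rw [if_pos h, if_neg (by omega), h2, sub_zero, abs_of_nonneg (inv_log_nonneg z)]
            linarith
          · have h2 := ih2 h1
            have h3 := inv_log_anti hz h1
            have h4 : |vv z (N + 1) - vv z N| = 1 / Real.log (N : ℝ) -
                1 / Real.log ((N + 1 : ℕ) : ℝ) := by
              unfold vv
              rw [if_pos h, if_pos h1, abs_sub_comm, abs_of_nonneg (by linarith)]
            rw [h4]
            linarith
    obtain ⟨k1, k2⟩ := key x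
    rcases Nat.lt_or_ge x z with h | h
    · rw [k1 h]
      norm_num
    · have := k2 h
      have h3 := inv_log_nonneg x
      have h4 := inv_log_le hz (le_refl z)
      linarith

theorem dens_P (B : ℕ) : ∃ x₁ : ℕ, ∀ x : ℕ, x₁ ≤ x → ∀ y ≤ x,
    |∑ n ∈ Icc 1 y, (Pf (zx (2 / 3) x) n - vv (zx (2 / 3) x) n)| ≤ (x : ℝ) / (Real.log x) ^ B := by
  obtain ⟨C, hC, hpnt⟩ := theta_pnt (B + 1)
  have hev : ∀ᶠ x : ℕ in atTop, ∀ y ≤ x,
      |∑ n ∈ Icc 1 y, (Pf (zx (2 / 3) x) n - vv (zx (2 / 3) x) n)| ≤
        (x : ℝ) / (Real.log x) ^ B := by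
    filter_upwards [eventually_ge_atTop 3, HL.evt_log (4 * C * 4 ^ (B + 1)), HL.evt_log 1,
      evt_pow 8 0 (1 / 12) (by norm_num)] with x hx3 hLC hL1 hp y hyx
    set X : ℝ := (x : ℝ) with hX
    set L : ℝ := Real.log X with hL
    have hL0 : 0 < L := by linarith
    have hX3 : (3 : ℝ) ≤ X := by rw [hX]; exact_mod_cast hx3
    have hX0 : 0 < X := by linarith
    have hX1 : 1 ≤ X := by linarith
    rw [pow_zero, mul_one] at hp
    have hz1 : X ^ (1 / 3 : ℝ) ≤ zx (2 / 3) x := by
      have h1 : X ^ (1 - 2 / 3 : ℝ) ≤ zx (2 / 3) x := Nat.le_ceil _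
      rwa [show (1 : ℝ) - 2 / 3 = 1 / 3 by norm_num] at h1
    set z : ℕ := zx (2 / 3) x with hz
    have h14 : 1 ≤ X ^ (1 / 4 : ℝ) := Real.one_le_rpow hX1 (by norm_num)
    have h13 : 8 * X ^ (1 / 4 : ℝ) ≤ X ^ (1 / 3 : ℝ) := by
      calc 8 * X ^ (1 / 4 : ℝ) ≤ X ^ (1 / 12 : ℝ) * X ^ (1 / 4 : ℝ) := by gcongr
        _ = X ^ (1 / 3 : ℝ) := by rw [← Real.rpow_add hX0]; norm_num
    have hz8 : 8 ≤ z := by
      have : (8 : ℝ) ≤ z := by linarith
      exact_mod_cast this
    have hl : L / 4 ≤ Real.log ((z - 1 : ℕ) : ℝ) := by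
      have h1 : X ^ (1 / 4 : ℝ) ≤ ((z - 1 : ℕ) : ℝ) := by
        rw [Nat.cast_sub (by omega)]
        push_cast
        linarith
      calc L / 4 = Real.log (X ^ (1 / 4 : ℝ)) := by rw [Real.log_rpow hX0]; ring
        _ ≤ _ := Real.log_le_log (by positivity) h1
    -- Abel summation
    set g : ℕ → ℝ := fun t => 1 / Real.log ((max t z : ℕ) : ℝ) with hg
    have hg1 : ∀ t, |g t| ≤ 1 := by
      intro t
      rw [hg]
      simp only
      rw [abs_of_nonneg (inv_log_nonneg _)]
      exact inv_log_le (by omega : 3 ≤ z) (le_max_right _ _)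
    have hgtv : ∑ t ∈ Ico z x, |g (t + 1) - g t| ≤ 1 := by
      have key : ∀ N : ℕ, z ≤ N → ∑ t ∈ Ico z N, |g (t + 1) - g t| ≤ g z - g N := by
        intro N hN
        induction N, hN using Nat.le_induction with
        | base => simp
        | succ N hN ih =>
          rw [sum_Ico_succ_top hN]
          have h3 := inv_log_anti (by omega : 3 ≤ z) hN
          have h4 : |g (N + 1) - g N| = g N - g (N + 1) := by
            rw [abs_sub_comm, abs_of_nonneg]
            rw [hg]
            simp only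
            rw [max_eq_left hN, max_eq_left (by omega : z ≤ N + 1)]
            linarith
          rw [h4]
          linarith
      rcases Nat.lt_or_ge x z with h | h
      · rw [Ico_eq_empty (by omega), sum_empty]
        norm_num
      · have h1 := key x h
        have h2 := hg1 z
        have h3 : 0 ≤ g x := inv_log_nonneg _
        rw [abs_le] at h2
        linarith
    have h1 := abel_tv (x := x) (z := z) (T := y) (B := 1)
      (E := (2 * C / (L / 4) ^ (B + 1)) * (y : ℕ)) g hg1 hgtv hyx
      (by omega) (fun t => (if t.Prime then ((Real.log t : ℝ) : ℂ) * 1 else 0) - 1) (by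
        intro T' hT'
        rcases le_or_gt z T' with h5 | h5
        · refine (prime_int hC hpnt (by positivity) (by omega) hl h5).trans ?_
          apply mul_le_mul_of_nonneg_left _ (by positivity)
          exact_mod_cast hT'
        · rw [Icc_eq_empty (by omega), sum_empty, norm_zero]
          positivity)
    have h2 : ∑ t ∈ Icc z y, ((if t.Prime then ((Real.log t : ℝ) : ℂ) * 1 else 0) - 1) *
        ((g t : ℝ) : ℂ) = ((∑ n ∈ Icc 1 y, (Pf z n - vv z n) : ℝ) : ℂ) := by
      have e1 : ∑ n ∈ Icc 1 y, (Pf z n - vv z n) = ∑ n ∈ Icc z y, (Pf z n - vv z n) := by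
        symm
        apply sum_subset
        · intro n hn
          rw [mem_Icc] at hn ⊢
          omega
        · intro n hn hn'
          rw [mem_Icc] at hn hn'
          have : ¬ z ≤ n := by omega
          unfold Pf vv
          rw [if_neg this, if_neg (fun h => this h.2), sub_zero]
      rw [e1]
      push_cast
      refine sum_congr rfl fun t ht => ?_
      rw [mem_Icc] at ht
      have hlt : Real.log (t : ℝ) ≠ 0 := by
        have : (1 : ℝ) < t := by exact_mod_cast (by omega : 1 < t)
        exact (Real.log_pos this).ne'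
      rw [hg]
      simp only
      rw [max_eq_left ht.1]
      unfold Pf vv
      rw [if_pos ht.1]
      have hR : (Real.log (t : ℝ) - 1) * (1 / Real.log (t : ℝ)) = 1 - 1 / Real.log (t : ℝ) := by
        field_simp
      by_cases hp : t.Prime
      · rw [if_pos hp, if_pos ⟨hp, ht.1⟩]
        have e5 : (((1 : ℝ)) : ℂ) - ((1 / Real.log (t : ℝ) : ℝ) : ℂ) =
            (((Real.log (t : ℝ) - 1) * (1 / Real.log (t : ℝ)) : ℝ) : ℂ) := by
          rw [hR]
          push_cast
          ring
        rw [e5]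
        push_cast
        ring
      · rw [if_neg hp, if_neg (fun h => hp h.1)]
        push_cast
        ring
    rw [h2, Complex.norm_real, Real.norm_eq_abs] at h1
    refine h1.trans ?_
    have hyX : (y : ℝ) ≤ X := by rw [hX]; exact_mod_cast hyx
    have h3 : 2 * 1 * (2 * C / (L / 4) ^ (B + 1) * (y : ℝ)) ≤
        (4 * C * 4 ^ (B + 1)) * (X / L ^ (B + 1)) := by
      rw [div_pow]
      calc 2 * 1 * (2 * C / (L ^ (B + 1) / 4 ^ (B + 1)) * (y : ℝ)) =
          (4 * C * 4 ^ (B + 1)) * ((y : ℝ) / L ^ (B + 1)) := by field_simp; ring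
        _ ≤ _ := by gcongr
    refine h3.trans ?_
    calc (4 * C * 4 ^ (B + 1)) * (X / L ^ (B + 1)) ≤ L * (X / L ^ (B + 1)) := by gcongr
      _ = X / L ^ B := by
          rw [pow_succ' L B]
          field_simp
  obtain ⟨x₀, hx₀⟩ := eventually_atTop.1 hev
  exact ⟨x₀, hx₀⟩

end

end Pool.Agent.HLA
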