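import Pool.Agent.Work.MP_92f640_nt.HLA.MainG

/-! # Module HLA.FinalG: the final form -/

namespace Pool.Agent.HLA

open Finset Filter Pool.Agent.HL
open Pool.Agent.Work.MP_92f640_nt (goldbachCount)

theorem nat_form (C₂ : ℝ) (h : HasProd (fun p : {p : ℕ // p.Prime ∧ 2 < p} =>
    1 - 1 / (((p : ℕ) : ℝ) - 1) ^ 2) C₂) (θ η : ℝ) (hθ : θ < 4 / 5) (hη : 0 < η) (K : ℕ) :
    NatForm θ η K (fun n => Even n ∧ ¬ |RR n - SS C₂ n * n| ≤ n / (Real.log n) ^ K) := by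
  classical
  obtain ⟨C, hC⟩ := nat_asym C₂ h (4 / 5 - θ) η (by linarith) hη K
  refine ⟨C, fun A => ?_⟩
  obtain ⟨x₀, hx₀⟩ := hC A
  refine ⟨x₀, fun x hx => ?_⟩
  obtain ⟨B, r₁, hB1, hB2, hB3, hB4⟩ := hx₀ x hx
  refine ⟨B, r₁, hB1, hB2, hB3, fun q hq hqx hqB S hS => ?_⟩
  have h1 := hB4 q hq (by rw [show (4 : ℝ) / 5 - (4 / 5 - θ) = θ by ring]; exact hqx) hqB
  refine le_trans ?_ h1
  have h2 : S ⊆ (Icc 1 x).filter (fun n => x < 2 * n ∧ Even n ∧ q ∣ n ∧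
      ¬ |RR n - SS C₂ n * n| ≤ n / (Real.log n) ^ K) := by
    intro n hn
    obtain ⟨a1, a2, a3, a4, a5, a6, a7⟩ := hS n hn
    rw [mem_filter, mem_Icc]
    exact ⟨⟨a1, a2⟩, a3, a4, a5, a7⟩
  exact_mod_cast card_le_card h2

/-- the final form: exceptional set, with both asymptotic formulas -/
theorem final_form (C₂ : ℝ) (h : HasProd (fun p : {p : ℕ // p.Prime ∧ 2 < p} =>
    1 - 1 / (((p : ℕ) : ℝ) - 1) ^ 2) C₂) (ε η κ : ℝ) (hε : 0 < ε) (hη : 0 < η) (hκ : 0 < κ) (K : ℕ) :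
    ∃ C : ℕ, ∀ A : ℕ, ∃ x₀ : ℝ, ∀ x : ℝ, x₀ ≤ x →
    ∃ (B : Finset ℕ) (r₁ : ℕ), (B.card : ℝ) ≤ (Real.log x) ^ C ∧
      r₁ ∣ 4 * ∏ p ∈ r₁.primeFactors, p ∧
      (∀ b ∈ B, (Real.log x) ^ A < ((∏ p ∈ b.primeFactors, p : ℕ) : ℝ) ∧
        (Real.exp ((Real.log x) ^ (1 - η)) < ((∏ p ∈ b.primeFactors, p : ℕ) : ℝ) ∨
          ∃ g : ℕ, (g : ℝ) ≤ (Real.log x) ^ C ∧ b * g = r₁)) ∧
      ∀ q : ℕ, 1 ≤ q → (q : ℝ) ≤ x ^ (4 / 5 - ε) → (∀ b ∈ B, ¬ b ∣ q) → ∀ S : Finset ℕ,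
        (∀ n ∈ S, 1 ≤ n ∧ x / 2 < (n : ℝ) ∧ (n : ℝ) ≤ x ∧ Even n ∧ q ∣ n ∧
          (Even n ∧ ¬ (|RR n - SS C₂ n * n| ≤ n / (Real.log n) ^ K ∧
            |(goldbachCount n : ℝ) - SS C₂ n * n / (Real.log n) ^ 2| ≤
              κ * (SS C₂ n * n / (Real.log n) ^ 2)))) →
        (S.card : ℝ) ≤ x / (q * (Real.log x) ^ K) := by
  have h1 : 0 < min (η / 2) (1 / 2) := lt_min (by linarith) (by norm_num)
  refine to_real (4 / 5) ε η hε hη K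
    (fun n => Even n ∧ ¬ |RR n - SS C₂ n * n| ≤ n / (Real.log n) ^ (K + 1)) _ ?_
    (nat_form C₂ h (4 / 5 - ε / 2) (min (η / 2) (1 / 2)) (by linarith) h1 (K + 1))
  filter_upwards [gc_close κ hκ, evt_log 1, eventually_ge_atTop 1] with n hg hL1 hn1
  rintro ⟨hev, hbad⟩
  refine ⟨hev, fun hgood => hbad ?_⟩
  have hn0 : (0 : ℝ) ≤ n := Nat.cast_nonneg n
  have hL0 : 0 < Real.log (n : ℝ) := by linarith
  refine ⟨hgood.trans ?_, hg _ (SS_ge C₂ h n hn1 hev) (hgood.trans ?_)⟩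
  · exact div_le_div_of_nonneg_left hn0 (by positivity) (pow_le_pow_right₀ hL1 (by omega))
  · refine div_le_div_of_nonneg_left hn0 hL0 ?_
    calc Real.log (n : ℝ) = (Real.log (n : ℝ)) ^ 1 := (pow_one _).symm
      _ ≤ _ := pow_le_pow_right₀ hL1 (by omega)

end Pool.Agent.HLA
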