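import Pool.Agent.Work.GBM.C13

/-! # Module HLA.LargeV2: the variance of controlled functions for moduli up to `x^(4/5)`

As `HN.large_v`, `HN.ctl_varN` (GBM/C13) with the fourth moment of the short sum in place of the tenth. -/

namespace Pool.Agent.HLA

open Finset Pool.Agent.BV Pool.Agent.HL Pool.Agent.HS Pool.Agent.HN
open Pool.Agent.HN.LargeVaux (pcc pcc_norm pcc_sum)
open Pool.Agent.HT (tau_sum tau_short)
open Pool.Agent.HS.CtlVar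

/-- the fourth moment of a character sum -/
lemma fourthm {C₃ : ℝ} (hτ : ∀ x N : ℕ, 3 ≤ x → N ≤ x →
      ∑ n ∈ Icc 1 N, (n.divisors.card : ℝ) ^ 2 ≤ C₃ * N * (Real.log x) ^ (2 ^ 2))
    (k : ℕ) [NeZero k] (x v u : ℕ) (a : ℕ → ℂ) (hx : 3 ≤ x) (hux : u ≤ x)
    (ha : ∀ c, ‖a c‖ ≤ 1) (X : Finset (DirichletCharacter ℂ k)) :
    ∑ χ ∈ X, ‖∑ c ∈ Ioc v u, a c * χ (c : ZMod k)‖ ^ 4 ≤
      ((u : ℝ) ^ 2 + k) * (C₃ * (u : ℝ) ^ 2 * (2 * Real.log x) ^ 4) := by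
  set f : ℕ → ℂ := fun c => if v < c then a c else 0 with hf
  have hf1 : ∀ c, ‖f c‖ ≤ 1 := by
    intro c
    rw [hf]
    simp only
    split_ifs
    · exact ha c
    · simp
  have e1 : ∀ χ ∈ X, ‖∑ c ∈ Ioc v u, a c * χ (c : ZMod k)‖ ^ 4 =
      ‖∑ n ∈ Icc 1 (u ^ 2), pcc f u 2 n * χ (n : ZMod k)‖ ^ 2 := by
    intro χ _
    rw [pcc_sum f (fun n => χ (n : ZMod k)) (by simp) (fun a b => by push_cast; rw [map_mul]) 2,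
      norm_pow, ← pow_mul]
    congr 2
    rw [hf]
    simp only [ite_mul, zero_mul]
    rw [← sum_filter]
    refine sum_congr ?_ fun _ _ => rfl
    ext n
    simp only [mem_filter, mem_Icc, mem_Ioc]
    omega
  rw [sum_congr rfl e1]
  refine (HS.CtlVar.mv1 k (u ^ 2) (pcc f u 2) X).trans ?_
  push_cast
  refine mul_le_mul_of_nonneg_left ?_ (by positivity)
  have h1 : ∀ n ∈ Icc 1 (u ^ 2), ‖pcc f u 2 n‖ ^ 2 ≤ (n.divisors.card : ℝ) ^ 2 := by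
    intro n hn
    rw [mem_Icc] at hn
    have h2 := pow_le_pow_left₀ (norm_nonneg _) (pcc_norm hf1 u 1 n hn.1) 2
    rw [← pow_mul] at h2
    exact h2
  refine (sum_le_sum h1).trans ?_
  have h4 := hτ (x ^ 2) (u ^ 2) (le_trans hx (Nat.le_self_pow (by omega) x))
    (Nat.pow_le_pow_left hux 2)
  push_cast at h4
  rw [Real.log_pow] at h4
  norm_num at h4
  exact h4


theorem large_v2 : ∃ (C : ℝ) (c : ℕ), 0 < C ∧ ∀ (x k v u K : ℕ) [NeZero k] (a b : ℕ → ℂ) (U ρ : ℝ),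
    3 ≤ x → k ≤ x → 1 ≤ u → u ≤ x → u * K ≤ x → (∀ c, ‖a c‖ ≤ 1) →
    (∀ l, ‖b l‖ ≤ (l.divisors.card : ℝ) ^ 2) → 1 ≤ U → 0 ≤ ρ →
    ∀ X : Finset (DirichletCharacter ℂ k),
    (∀ χ ∈ X, ‖∑ c ∈ Ioc v u, a c * χ (c : ZMod k)‖ ≤ 2 * ρ * u) →
    ∑ χ ∈ X, ‖∑ c ∈ Ioc v u, a c * χ (c : ZMod k)‖ ^ 2 * ‖∑ l ∈ Icc 1 K, b l * χ (l : ZMod k)‖ ^ 2 ≤
      C * (Real.log x) ^ c * (ρ ^ 2 * (x : ℝ) ^ 2 + (x : ℝ) * (x + k * u) / U ^ 2 +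
        (x : ℝ) * u * Real.sqrt k * U ^ 2 * (1 + (k : ℝ) / (u : ℝ) ^ 2)) := by
  classical
  obtain ⟨C₁, hC₁, hpv⟩ := pv
  obtain ⟨C₂, hC₂, hτ4⟩ := HT.tau_sum 4
  obtain ⟨C₃, hC₃, hτ8⟩ := HT.tau_sum 2
  obtain ⟨c5, hc5⟩ : ∃ c5 : ℝ, c5 = 2 ^ 4 := ⟨_, rfl⟩
  have hc5' : 0 < c5 := by rw [hc5]; positivity
  refine ⟨8 * C₂ + C₂ + 4 * C₁ * C₂ * C₃ * c5, 21, by positivity, ?_⟩
  intro x k v u K _ a b U ρ hx hkx hu hux huK ha hb hU hρ X hX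
  have hL : 1 ≤ Real.log x := DivSum_log x hx
  set L := Real.log x with hLdef
  have hL0 : 0 < L := by linarith
  have hx0 : (0 : ℝ) < x := by exact_mod_cast (by omega : 0 < x)
  have hk0 : (0 : ℝ) < k := by exact_mod_cast Nat.pos_of_ne_zero (NeZero.ne k)
  have hu0 : (0 : ℝ) < u := by exact_mod_cast hu
  have hU0 : 0 < U := by linarith
  have huK' : (u : ℝ) * K ≤ x := by exact_mod_cast huK
  rcases Nat.eq_zero_or_pos K with rfl | hK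
  · have : ∑ χ ∈ X, ‖∑ c ∈ Ioc v u, a c * χ (c : ZMod k)‖ ^ 2 *
        ‖∑ l ∈ Icc 1 0, b l * χ (l : ZMod k)‖ ^ 2 = 0 := by
      refine sum_eq_zero fun χ _ => ?_
      simp
    rw [this]
    positivity
  have hK0 : (0 : ℝ) < K := by exact_mod_cast hK
  set A : DirichletCharacter ℂ k → ℝ := fun χ => ‖∑ c ∈ Ioc v u, a c * χ (c : ZMod k)‖ with hA
  set B : DirichletCharacter ℂ k → ℝ := fun χ => ‖∑ l ∈ Icc 1 K, b l * χ (l : ZMod k)‖ with hB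
  have hA0 : ∀ χ, 0 ≤ A χ := fun χ => norm_nonneg _
  have hB0 : ∀ χ, 0 ≤ B χ := fun χ => norm_nonneg _
  have hKx : K ≤ x := (Nat.le_mul_of_pos_left K hu).trans huK
  set G : ℝ := C₂ * K * L ^ 16 with hG
  have hG0 : 0 < G := by positivity
  have hbG : ∑ l ∈ Icc 1 K, ‖b l‖ ^ 2 ≤ G := by
    refine le_trans ?_ (hτ4 x K hx hKx)
    refine sum_le_sum fun l _ => ?_
    calc ‖b l‖ ^ 2 ≤ ((l.divisors.card : ℝ) ^ 2) ^ 2 :=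
          pow_le_pow_left₀ (norm_nonneg _) (hb l) 2
      _ = _ := by ring
  set P : ℝ := 2 * C₁ * Real.sqrt k * L with hP
  have hsk : 0 < Real.sqrt k := Real.sqrt_pos.2 hk0
  have hP0 : 0 < P := by positivity
  have hPb : ∀ χ : DirichletCharacter ℂ k, χ ≠ 1 → ∀ N : ℕ,
      ‖∑ n ∈ Icc 1 N, χ (n : ZMod k)‖ ≤ P := by
    intro χ hχ N
    refine (hpv k χ hχ N).trans ?_
    have h1 : Real.log k ≤ L := Real.log_le_log hk0 (by exact_mod_cast hkx)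
    have h2 : 1 + Real.log k ≤ 2 * L := by linarith
    calc C₁ * Real.sqrt k * (1 + Real.log k) ≤ C₁ * Real.sqrt k * (2 * L) :=
          mul_le_mul_of_nonneg_left h2 (by positivity)
      _ = _ := by rw [hP]; ring
  set W : ℝ := Real.sqrt (2 * G * P) with hW
  have hW0 : 0 < W := Real.sqrt_pos.2 (by positivity)
  have hW2 : W ^ 2 = 2 * G * P := Real.sq_sqrt (by positivity)
  have hWP : 2 * (∑ n ∈ Icc 1 K, ‖b n‖ ^ 2) * P ≤ W ^ 2 := by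
    rw [hW2]
    have := mul_le_mul_of_nonneg_right hbG hP0.le
    linarith
  -- the three parts
  have hpt : ∀ χ ∈ X, A χ ^ 2 * B χ ^ 2 ≤ (if W ≤ B χ then (2 * ρ * u) ^ 2 * B χ ^ 2 else 0) +
      (u / U) ^ 2 * B χ ^ 2 + W ^ 2 * (U / u) ^ 2 * A χ ^ 4 := by
    intro χ hχ
    have h1 : 0 ≤ (u / U) ^ 2 * B χ ^ 2 := by positivity
    have h2 : 0 ≤ W ^ 2 * (U / u) ^ 2 * A χ ^ 4 := by
      have := hA0 χ
      positivity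
    by_cases hc1 : W ≤ B χ
    · rw [if_pos hc1]
      have h3 : A χ ^ 2 ≤ (2 * ρ * u) ^ 2 := pow_le_pow_left₀ (hA0 χ) (hX χ hχ) 2
      have h4 := mul_le_mul_of_nonneg_right h3 (sq_nonneg (B χ))
      linarith
    · rw [if_neg hc1, zero_add]
      push Not at hc1
      by_cases hc2 : A χ ≤ u / U
      · have h3 : A χ ^ 2 ≤ (u / U) ^ 2 := pow_le_pow_left₀ (hA0 χ) hc2 2
        have h4 := mul_le_mul_of_nonneg_right h3 (sq_nonneg (B χ))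
        linarith
      · push Not at hc2
        have h3 : B χ ^ 2 ≤ W ^ 2 := pow_le_pow_left₀ (hB0 χ) hc1.le 2
        have h5 : 1 ≤ A χ * (U / u) := by
          have h6 : u / U * (U / u) ≤ A χ * (U / u) :=
            mul_le_mul_of_nonneg_right hc2.le (by positivity)
          have h7 : (u : ℝ) / U * (U / u) = 1 := by field_simp
          linarith
        have h8 : 1 ≤ (A χ * (U / u)) ^ 2 := one_le_pow₀ h5
        have h9 : A χ ^ 2 * B χ ^ 2 ≤ A χ ^ 2 * W ^ 2 :=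
          mul_le_mul_of_nonneg_left h3 (sq_nonneg _)
        have h10 : A χ ^ 2 * W ^ 2 ≤ A χ ^ 2 * W ^ 2 * (A χ * (U / u)) ^ 2 :=
          le_mul_of_one_le_right (by positivity) h8
        have h11 : A χ ^ 2 * W ^ 2 * (A χ * (U / u)) ^ 2 = W ^ 2 * (U / u) ^ 2 * A χ ^ 4 := by
          ring
        linarith
  refine (sum_le_sum hpt).trans ?_
  rw [sum_add_distrib, sum_add_distrib, ← sum_filter, ← mul_sum, ← mul_sum, ← mul_sum]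
  have s1 : ∑ χ ∈ X.filter (fun χ => W ≤ B χ), B χ ^ 2 ≤ 2 * K * G := by
    refine (hal_mont k P hPb K b W hW0 hWP (X.filter (fun χ => W ≤ B χ))
      (fun χ hχ => (mem_filter.1 hχ).2)).trans ?_
    exact mul_le_mul_of_nonneg_left hbG (by positivity)
  have s2 : ∑ χ ∈ X, B χ ^ 2 ≤ (K + k) * G := by
    refine (Pool.Agent.HS.CtlVar.mv1 k K b X).trans ?_
    exact mul_le_mul_of_nonneg_left hbG (by positivity)
  have s3 := fourthm hτ8 k x v u a hx hux ha X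
  rw [mul_pow, ← hc5] at s3
  -- sizes
  have huK0 : (0 : ℝ) ≤ u * K := by positivity
  have t1 : (2 * ρ * u) ^ 2 * (2 * K * G) ≤ 8 * C₂ * L ^ 21 * (ρ ^ 2 * (x : ℝ) ^ 2) := by
    have h1 : ((u : ℝ) * K) ^ 2 ≤ (x : ℝ) ^ 2 := pow_le_pow_left₀ huK0 huK' 2
    have h2 : L ^ 16 ≤ L ^ 21 := pow_le_pow_right₀ hL (by norm_num)
    calc (2 * ρ * u) ^ 2 * (2 * K * G) = 8 * C₂ * L ^ 16 * (ρ ^ 2 * ((u : ℝ) * K) ^ 2) := by
          rw [hG]; ring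
      _ ≤ 8 * C₂ * L ^ 21 * (ρ ^ 2 * (x : ℝ) ^ 2) := by gcongr
  have t2 : (u / U) ^ 2 * ((K + k) * G) ≤ C₂ * L ^ 21 * ((x : ℝ) * (x + k * u) / U ^ 2) := by
    have h1 : ((u : ℝ) * K) * (u * K + k * u) ≤ (x : ℝ) * (x + k * u) :=
      mul_le_mul huK' (by linarith) (by positivity) hx0.le
    have h2 : L ^ 16 ≤ L ^ 21 := pow_le_pow_right₀ hL (by norm_num)
    calc (u / U) ^ 2 * ((K + k) * G) = C₂ * L ^ 16 * (((u : ℝ) * K) * (u * K + k * u) / U ^ 2) := by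
          rw [hG]; field_simp
      _ ≤ C₂ * L ^ 21 * ((x : ℝ) * (x + k * u) / U ^ 2) := by gcongr
  have t3 : W ^ 2 * (U / u) ^ 2 * (((u : ℝ) ^ 2 + k) * (C₃ * (u : ℝ) ^ 2 * (c5 * L ^ 4))) ≤
      4 * C₁ * C₂ * C₃ * c5 * L ^ 21 *
        ((x : ℝ) * u * Real.sqrt k * U ^ 2 * (1 + (k : ℝ) / (u : ℝ) ^ 2)) := by
    calc W ^ 2 * (U / u) ^ 2 * (((u : ℝ) ^ 2 + k) * (C₃ * (u : ℝ) ^ 2 * (c5 * L ^ 4)))
        = 4 * C₁ * C₂ * C₃ * c5 * L ^ 21 *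
          (((u : ℝ) * K) * u * Real.sqrt k * U ^ 2 * (1 + (k : ℝ) / (u : ℝ) ^ 2)) := by
          rw [hW2, hG, hP]
          field_simp
          ring
      _ ≤ _ := by gcongr
  have r1 := mul_le_mul_of_nonneg_left s1 (sq_nonneg (2 * ρ * u))
  have r2 := mul_le_mul_of_nonneg_left s2 (sq_nonneg ((u : ℝ) / U))
  have r3 := mul_le_mul_of_nonneg_left s3 (by positivity : 0 ≤ W ^ 2 * (U / u) ^ 2)
  set T1 := ρ ^ 2 * (x : ℝ) ^ 2 with hT1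
  set T2 := (x : ℝ) * (x + k * u) / U ^ 2 with hT2
  set T3 := (x : ℝ) * u * Real.sqrt k * U ^ 2 * (1 + (k : ℝ) / (u : ℝ) ^ 2) with hT3
  have hT10 : 0 ≤ T1 := by positivity
  have hT20 : 0 ≤ T2 := by positivity
  have hT30 : 0 ≤ T3 := by positivity
  have hκ0 : 0 ≤ 4 * C₁ * C₂ * C₃ * c5 := by positivity
  have hZ0 : 0 ≤ L ^ 21 := pow_nonneg hL0.le _
  generalize L ^ 21 = Z at *
  generalize 4 * C₁ * C₂ * C₃ * c5 = κ at *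
  have p1 : 0 ≤ C₂ * (Z * T1) := by positivity
  have p2 : 0 ≤ C₂ * (Z * T2) := by positivity
  have p3 : 0 ≤ C₂ * (Z * T3) := by positivity
  have p4 : 0 ≤ κ * (Z * T1) := by positivity
  have p5 : 0 ≤ κ * (Z * T2) := by positivity
  calc _ ≤ 8 * C₂ * Z * T1 + C₂ * Z * T2 + κ * Z * T3 :=
        add_le_add (add_le_add (r1.trans t1) (r2.trans t2)) (r3.trans t3)
    _ ≤ 8 * C₂ * Z * T1 + C₂ * Z * T2 + κ * Z * T3 + (C₂ * (Z * T1) + 8 * (C₂ * (Z * T2)) +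
        9 * (C₂ * (Z * T3)) + κ * (Z * T1) + κ * (Z * T2)) := by linarith
    _ = _ := by ring




/-- the bound for one cell -/
noncomputable def PP2 (x k w₂ : ℕ) (ρ Δ : ℝ) : ℝ := ρ ^ 2 * (x : ℝ) ^ 2 + (x : ℝ) ^ 2 / Δ +
  Δ * ((w₂ : ℝ) ^ 2 * (k : ℝ) * Real.sqrt k + (k : ℝ) ^ 2 * Real.sqrt k)

lemma PP2_nonneg (x k w₂ : ℕ) (ρ : ℝ) {Δ : ℝ} (hΔ : 0 ≤ Δ) : 0 ≤ PP2 x k w₂ ρ Δ := by
  unfold PP2
  positivity

/-- the product of two sums, one cell -/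
lemma cell {C₀ C₃ : ℝ} {c₃ : ℕ} (hC₀ : 0 < C₀) (hC₃ : 0 < C₃) (hτ : ∀ x N : ℕ, 3 ≤ x → N ≤ x →
      ∑ n ∈ Icc 1 N, (n.divisors.card : ℝ) ^ 4 ≤ C₀ * N * (Real.log x) ^ (2 ^ 4))
    (hlv : ∀ (x k v u K : ℕ) [NeZero k] (a b : ℕ → ℂ) (U ρ : ℝ),
      3 ≤ x → k ≤ x → 1 ≤ u → u ≤ x → u * K ≤ x → (∀ c, ‖a c‖ ≤ 1) →
      (∀ l, ‖b l‖ ≤ (l.divisors.card : ℝ) ^ 2) → 1 ≤ U → 0 ≤ ρ →
      ∀ X : Finset (DirichletCharacter ℂ k),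
      (∀ χ ∈ X, ‖∑ c ∈ Ioc v u, a c * χ (c : ZMod k)‖ ≤ 2 * ρ * u) →
      ∑ χ ∈ X, ‖∑ c ∈ Ioc v u, a c * χ (c : ZMod k)‖ ^ 2 *
        ‖∑ l ∈ Icc 1 K, b l * χ (l : ZMod k)‖ ^ 2 ≤
        C₃ * (Real.log x) ^ c₃ * (ρ ^ 2 * (x : ℝ) ^ 2 + (x : ℝ) * (x + k * u) / U ^ 2 +
          (x : ℝ) * u * Real.sqrt k * U ^ 2 * (1 + (k : ℝ) / (u : ℝ) ^ 2)))
    (k : ℕ) [NeZero k] (a b : ℕ → ℂ) (ha : ∀ c, ‖a c‖ ≤ 1)
    (hb : ∀ l, ‖b l‖ ≤ (l.divisors.card : ℝ) ^ 2) (v u K x w₂ : ℕ) (ρ Δ : ℝ) (hx : 3 ≤ x)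
    (hkx : k ≤ x) (hw₂ : w₂ ≤ x) (huw : u ≤ w₂) (hKx : K ≤ x) (huK : u * K ≤ x) (hρ : 0 ≤ ρ)
    (hΔ : 1 ≤ Δ) (X : Finset (DirichletCharacter ℂ k))
    (hA : ∀ χ ∈ X, ‖∑ c ∈ Ioc v u, a c * χ (c : ZMod k)‖ ≤ 2 * ρ * u) :
    ∑ χ ∈ X, ‖∑ c ∈ Ioc v u, a c * χ (c : ZMod k)‖ ^ 2 *
        ‖∑ l ∈ Icc 1 K, b l * χ (l : ZMod k)‖ ^ 2 ≤
      (8 * C₀ + 2 * C₃) * (Real.log x) ^ (16 + c₃) * PP2 x k w₂ ρ Δ := by
  have hL : 1 ≤ Real.log x := DivSum_log x hx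
  set L := Real.log x with hLd
  have hL0 : 0 < L := by linarith
  have hx0 : (0 : ℝ) < x := by exact_mod_cast (by omega : 0 < x)
  have hk0 : (0 : ℝ) < k := by exact_mod_cast Nat.pos_of_ne_zero (NeZero.ne k)
  have hΔ0 : 0 < Δ := by linarith
  have hPP : 0 ≤ PP2 x k w₂ ρ Δ := PP2_nonneg x k w₂ ρ hΔ0.le
  have huK' : (u : ℝ) * K ≤ x := by exact_mod_cast huK
  have huw' : (u : ℝ) ≤ w₂ := by exact_mod_cast huw
  have l16 : L ^ 16 ≤ L ^ (16 + c₃) := pow_le_pow_right₀ hL (by omega)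
  have lc : L ^ c₃ ≤ L ^ (16 + c₃) := pow_le_pow_right₀ hL (by omega)
  have hρx : ρ ^ 2 * (x : ℝ) ^ 2 ≤ PP2 x k w₂ ρ Δ := by
    unfold PP2
    have h1 : 0 ≤ (x : ℝ) ^ 2 / Δ := by positivity
    have h2 : 0 ≤ Δ * ((w₂ : ℝ) ^ 2 * (k : ℝ) * Real.sqrt k +
      (k : ℝ) ^ 2 * Real.sqrt k) := by positivity
    linarith
  rcases le_or_gt ((k : ℝ) * u) x with hku | hku
  · -- small `u`
    have h1 : ∀ χ ∈ X, ‖∑ c ∈ Ioc v u, a c * χ (c : ZMod k)‖ ^ 2 *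
        ‖∑ l ∈ Icc 1 K, b l * χ (l : ZMod k)‖ ^ 2 ≤
        (2 * ρ * u) ^ 2 * ‖∑ l ∈ Icc 1 K, b l * χ (l : ZMod k)‖ ^ 2 := fun χ hχ =>
      mul_le_mul_of_nonneg_right (pow_le_pow_left₀ (norm_nonneg _) (hA χ hχ) 2) (sq_nonneg _)
    refine (sum_le_sum h1).trans ?_
    rw [← mul_sum]
    have h3 : ∑ χ ∈ X, ‖∑ l ∈ Icc 1 K, b l * χ (l : ZMod k)‖ ^ 2 ≤
        ((K : ℝ) + k) * (C₀ * K * L ^ 16) := by
      refine (mv1 k K b X).trans ?_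
      refine mul_le_mul_of_nonneg_left ?_ (by positivity)
      refine le_trans ?_ (hτ x K hx hKx)
      refine Finset.sum_le_sum fun l _ => ?_
      calc ‖b l‖ ^ 2 ≤ ((l.divisors.card : ℝ) ^ 2) ^ 2 :=
            pow_le_pow_left₀ (norm_nonneg _) (hb l) 2
        _ = _ := by ring
    refine (mul_le_mul_of_nonneg_left h3 (sq_nonneg _)).trans ?_
    have h10 : 0 ≤ (u : ℝ) * K := by positivity
    have h11 : ((u : ℝ) * K) * (u * K) ≤ x * x := mul_le_mul huK' huK' h10 hx0.le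
    have h12 : ((k : ℝ) * u) * (u * K) ≤ x * x := mul_le_mul hku huK' h10 hx0.le
    calc (2 * ρ * (u : ℝ)) ^ 2 * (((K : ℝ) + k) * (C₀ * K * L ^ 16))
        = 4 * ρ ^ 2 * (C₀ * L ^ 16 * (((u : ℝ) * K) * (u * K) + ((k : ℝ) * u) * (u * K))) := by
          ring
      _ ≤ 4 * ρ ^ 2 * (C₀ * L ^ 16 * (x * x + x * x)) := by gcongr
      _ = 8 * C₀ * L ^ 16 * (ρ ^ 2 * (x : ℝ) ^ 2) := by ring
      _ ≤ 8 * C₀ * L ^ (16 + c₃) * PP2 x k w₂ ρ Δ := by gcongr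
      _ ≤ _ := by
        have : 0 ≤ 2 * C₃ * L ^ (16 + c₃) * PP2 x k w₂ ρ Δ := by positivity
        linarith
  · -- large `u`
    have hu1 : 1 ≤ u := by
      rcases Nat.eq_zero_or_pos u with h | h
      · rw [h, Nat.cast_zero, mul_zero] at hku
        linarith
      · exact h
    have hu0 : (0 : ℝ) < u := by exact_mod_cast hu1
    set V : ℝ := (k : ℝ) * u / x * Δ with hV
    have hV1 : 1 ≤ V := by
      have h1 : 1 ≤ (k : ℝ) * u / x := by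
        rw [le_div_iff₀ hx0]
        linarith
      calc (1 : ℝ) = 1 * 1 := by ring
        _ ≤ _ := mul_le_mul h1 hΔ (by norm_num) (by positivity)
    have hV0 : 0 < V := by linarith
    have hU2 : (Real.sqrt V) ^ 2 = V := Real.sq_sqrt hV0.le
    have h1 := hlv x k v u K a b (Real.sqrt V) ρ hx hkx hu1 (huw.trans hw₂) huK ha hb
      (Real.one_le_sqrt.2 hV1) hρ X hA
    rw [hU2] at h1
    have t2 : (x : ℝ) * (x + k * u) / V ≤ 2 * ((x : ℝ) ^ 2 / Δ) := by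
      rw [div_le_iff₀ hV0]
      have : 2 * ((x : ℝ) ^ 2 / Δ) * V = x * (2 * (k * u)) := by
        rw [hV]
        field_simp
      rw [this]
      exact mul_le_mul_of_nonneg_left (by linarith) hx0.le
    have t3 : (x : ℝ) * u * Real.sqrt k * V * (1 + (k : ℝ) / (u : ℝ) ^ 2) ≤
        Δ * ((w₂ : ℝ) ^ 2 * (k : ℝ) * Real.sqrt k + (k : ℝ) ^ 2 * Real.sqrt k) := by
      calc (x : ℝ) * u * Real.sqrt k * V * (1 + (k : ℝ) / (u : ℝ) ^ 2)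
          = Δ * ((u : ℝ) ^ 2 * (k : ℝ) * Real.sqrt k + (k : ℝ) ^ 2 * Real.sqrt k) := by
            rw [hV]
            field_simp
        _ ≤ _ := by gcongr
    have t4 : ρ ^ 2 * (x : ℝ) ^ 2 + (x : ℝ) * (x + k * u) / V +
        (x : ℝ) * u * Real.sqrt k * V * (1 + (k : ℝ) / (u : ℝ) ^ 2) ≤
        2 * PP2 x k w₂ ρ Δ := by
      unfold PP2
      have g1 : 0 ≤ ρ ^ 2 * (x : ℝ) ^ 2 := by positivity
      have g2 : 0 ≤ Δ * ((w₂ : ℝ) ^ 2 * (k : ℝ) * Real.sqrt k +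
        (k : ℝ) ^ 2 * Real.sqrt k) := by positivity
      linarith
    refine h1.trans ?_
    calc C₃ * L ^ c₃ * (ρ ^ 2 * (x : ℝ) ^ 2 + (x : ℝ) * (x + k * u) / V +
          (x : ℝ) * u * Real.sqrt k * V * (1 + (k : ℝ) / (u : ℝ) ^ 2))
        ≤ C₃ * L ^ c₃ * (2 * PP2 x k w₂ ρ Δ) := mul_le_mul_of_nonneg_left t4 (by positivity)
      _ ≤ C₃ * L ^ (16 + c₃) * (2 * PP2 x k w₂ ρ Δ) := by gcongr
      _ ≤ _ := by
        have : 0 ≤ 8 * C₀ * L ^ (16 + c₃) * PP2 x k w₂ ρ Δ := by positivity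
        linarith

/-- mean square of the main term -/
theorem main_ms2 {Cm : ℝ} {cm : ℕ} (k : ℕ) [NeZero k] (a b : ℕ → ℂ)
    (g : ℕ → ℕ) (y I x w₂ : ℕ) (ρ Δ : ℝ) (X : Finset (DirichletCharacter ℂ k))
    (hcell : ∀ i < I, ∑ χ ∈ X, ‖∑ c ∈ Ioc (g i) (g (i + 1)), a c * χ (c : ZMod k)‖ ^ 2 *
        ‖∑ l ∈ Icc 1 (y / g (i + 1)), b l * χ (l : ZMod k)‖ ^ 2 ≤
      Cm * (Real.log x) ^ cm * PP2 x k w₂ ρ Δ) :
    ∑ χ ∈ X, ‖∑ i ∈ range I, (∑ c ∈ Ioc (g i) (g (i + 1)), a c * χ (c : ZMod k)) *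
        (∑ l ∈ Icc 1 (y / g (i + 1)), b l * χ (l : ZMod k))‖ ^ 2 ≤
      (I : ℝ) ^ 2 * (Cm * (Real.log x) ^ cm * PP2 x k w₂ ρ Δ) := by
  have h1 : ∀ χ ∈ X, ‖∑ i ∈ range I, (∑ c ∈ Ioc (g i) (g (i + 1)), a c * χ (c : ZMod k)) *
      (∑ l ∈ Icc 1 (y / g (i + 1)), b l * χ (l : ZMod k))‖ ^ 2 ≤ (I : ℝ) * ∑ i ∈ range I,
        ‖∑ c ∈ Ioc (g i) (g (i + 1)), a c * χ (c : ZMod k)‖ ^ 2 *
        ‖∑ l ∈ Icc 1 (y / g (i + 1)), b l * χ (l : ZMod k)‖ ^ 2 := by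
    intro χ _
    refine (sq_sum_le _ _).trans ?_
    rw [card_range]
    refine mul_le_mul_of_nonneg_left (sum_le_sum fun i _ => ?_) (Nat.cast_nonneg _)
    rw [norm_mul, mul_pow]
  refine (Finset.sum_le_sum h1).trans ?_
  rw [← Finset.mul_sum, Finset.sum_comm]
  calc (I : ℝ) * ∑ i ∈ range I, ∑ χ ∈ X,
        ‖∑ c ∈ Ioc (g i) (g (i + 1)), a c * χ (c : ZMod k)‖ ^ 2 *
        ‖∑ l ∈ Icc 1 (y / g (i + 1)), b l * χ (l : ZMod k)‖ ^ 2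
      ≤ (I : ℝ) * ∑ i ∈ range I, Cm * (Real.log x) ^ cm * PP2 x k w₂ ρ Δ :=
        mul_le_mul_of_nonneg_left (Finset.sum_le_sum fun i hi => hcell i (mem_range.1 hi))
          (Nat.cast_nonneg _)
    _ = _ := by
        rw [Finset.sum_const, nsmul_eq_mul, card_range]
        ring

/-- type II part -/
theorem partII2 {C₀ C₁ C₃ : ℝ} {c₃ : ℕ} (hC₀ : 0 < C₀) (hC₁ : 0 < C₁) (hC₃ : 0 < C₃)
    (hτ : ∀ x N : ℕ, 3 ≤ x → N ≤ x →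
      ∑ n ∈ Icc 1 N, (n.divisors.card : ℝ) ^ 4 ≤ C₀ * N * (Real.log x) ^ (2 ^ 4))
    (hlv : ∀ (x k v u K : ℕ) [NeZero k] (a b : ℕ → ℂ) (U ρ : ℝ),
      3 ≤ x → k ≤ x → 1 ≤ u → u ≤ x → u * K ≤ x → (∀ c, ‖a c‖ ≤ 1) →
      (∀ l, ‖b l‖ ≤ (l.divisors.card : ℝ) ^ 2) → 1 ≤ U → 0 ≤ ρ →
      ∀ X : Finset (DirichletCharacter ℂ k),
      (∀ χ ∈ X, ‖∑ c ∈ Ioc v u, a c * χ (c : ZMod k)‖ ≤ 2 * ρ * u) →
      ∑ χ ∈ X, ‖∑ c ∈ Ioc v u, a c * χ (c : ZMod k)‖ ^ 2 *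
        ‖∑ l ∈ Icc 1 K, b l * χ (l : ZMod k)‖ ^ 2 ≤
        C₃ * (Real.log x) ^ c₃ * (ρ ^ 2 * (x : ℝ) ^ 2 + (x : ℝ) * (x + k * u) / U ^ 2 +
          (x : ℝ) * u * Real.sqrt k * U ^ 2 * (1 + (k : ℝ) / (u : ℝ) ^ 2)))
    (hτs : ∀ x a b : ℕ, 3 ≤ x → a ≤ b → b ≤ x →
      ∑ n ∈ Ioc a b, (n.divisors.card : ℝ) ^ 6 ≤
        C₁ * Real.sqrt ((b : ℝ) - a) * Real.sqrt x * (Real.log x) ^ (2 ^ (2 * 6)))
    {x y k w₁ w₂ : ℕ} [NeZero k] {a b : ℕ → ℂ} {η ρ Δ : ℝ} (ha : ∀ c, ‖a c‖ ≤ 1)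
    (has : ∀ c, a c ≠ 0 → w₁ ≤ c ∧ c ≤ w₂) (hb : ∀ l, ‖b l‖ ≤ (l.divisors.card : ℝ) ^ 2)
    (hx : 3 ≤ x) (hkx : k ≤ x) (hyx : y ≤ x) (h1 : 1 ≤ w₁) (h12 : w₁ ≤ w₂) (h2 : w₂ ≤ x) (hη : 0 < η)
    (hη1 : η ≤ 1) (hηw : 2 ≤ η * w₁) (hρ : 0 ≤ ρ) (hΔ : 1 ≤ Δ)
    (X : Finset (DirichletCharacter ℂ k))
    (hA : ∀ χ ∈ X, ∀ u : ℕ, w₁ ≤ u → u ≤ w₂ → ‖∑ c ∈ Icc 1 u, a c * χ (c : ZMod k)‖ ≤ u * ρ) :
    ∑ χ ∈ X, ‖∑ n ∈ Icc 1 y, (∑ p ∈ n.divisorsAntidiagonal, a p.1 * b p.2) *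
        χ (n : ZMod k)‖ ^ 2 ≤ (50 * (8 * C₀ + 2 * C₃) + 6 * C₁) * (Real.log x) ^ (4096 + 18 + c₃) *
        (1 / η ^ 2 * PP2 x k w₂ ρ Δ + (η * x + k) * Real.sqrt η * x) := by
  have hL : 1 ≤ Real.log x := DivSum_log x hx
  have hx0 : (0 : ℝ) < x := by exact_mod_cast (by omega : 0 < x)
  have hyx' : (y : ℝ) ≤ x := by exact_mod_cast hyx
  have hηx : 1 ≤ η * x := by
    have h3 : (w₁ : ℝ) ≤ x := by exact_mod_cast h12.trans h2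
    have h4 : η * w₁ ≤ η * x := mul_le_mul_of_nonneg_left h3 hη.le
    linarith
  set I : ℕ := ⌊4 * Real.log x / η⌋₊ + 1 with hI
  have hI1 : 4 * Real.log x / η < I := by
    rw [hI]
    push_cast
    exact Nat.lt_floor_add_one _
  have hI2 : (I : ℝ) ≤ 5 * Real.log x / η := by
    rw [hI]
    push_cast
    have h3 : (⌊4 * Real.log x / η⌋₊ : ℝ) ≤ 4 * Real.log x / η := Nat.floor_le (by positivity)
    have h4 : 1 ≤ Real.log x / η := by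
      rw [le_div_iff₀ hη]
      linarith
    calc (⌊4 * Real.log x / η⌋₊ : ℝ) + 1 ≤ 4 * Real.log x / η + Real.log x / η := by linarith
      _ = _ := by ring
  set g := gg η w₁ w₂ with hg
  have hgm : Monotone g := gg_mono hη.le w₁ w₂
  have hg0 : g 0 = w₁ - 1 := gg_zero h12
  have hgI : g I = w₂ := gg_end hη hη1 hx h1 h2 hI1
  obtain ⟨M, hMle, hMlt⟩ : ∃ M : ℕ, (M : ℝ) ≤ (y : ℝ) * (1 - η) ∧
      (y : ℝ) * (1 - η) < M + 1 :=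
    ⟨⌊(y : ℝ) * (1 - η)⌋₊, Nat.floor_le (mul_nonneg (Nat.cast_nonneg _) (by linarith)),
      Nat.lt_floor_add_one _⟩
  have hηy : 0 ≤ η * y := mul_nonneg hη.le (Nat.cast_nonneg _)
  have hηyx : η * y ≤ η * x := mul_le_mul_of_nonneg_left hyx' hη.le
  have hMy : M ≤ y := by
    have : (M : ℝ) ≤ y := by linarith
    exact_mod_cast this
  have hMd : (y : ℝ) - M ≤ 2 * (η * x) := by linarith
  have hM : ∀ i < I, ∀ c ∈ Ioc (g i) (g (i + 1)), ∀ l, y / g (i + 1) < l → M < c * l := by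
    intro i _ c hc l hl
    rw [mem_Ioc] at hc
    have hgp : 0 < g (i + 1) := by omega
    rw [Nat.div_lt_iff_lt_mul hgp] at hl
    have h4 : (y : ℝ) < l * g (i + 1) := by exact_mod_cast hl
    have h5 : (g (i + 1) : ℝ) ≤ (1 + η) * c :=
      gg_ratio hη hc.1 (hc.2.trans (gg_le η w₁ w₂ (i + 1)))
    have hl0 : 0 < l := Nat.pos_of_ne_zero (by rintro rfl; simp at hl)
    have hc0 : 0 < c := by omega
    have hcl : (0 : ℝ) < c * l := by exact_mod_cast Nat.mul_pos hc0 hl0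
    have h6 : (y : ℝ) ≤ (1 + η) * (c * l) := by
      calc (y : ℝ) ≤ l * g (i + 1) := h4.le
        _ ≤ l * ((1 + η) * c) := mul_le_mul_of_nonneg_left h5 (Nat.cast_nonneg _)
        _ = _ := by ring
    have h7 : (M : ℝ) < c * l := by
      calc (M : ℝ) ≤ (y : ℝ) * (1 - η) := hMle
        _ ≤ ((1 + η) * (c * l)) * (1 - η) := mul_le_mul_of_nonneg_right h6 (by linarith)
        _ = (c * l) - η * η * (c * l) := by ring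
        _ < c * l := by
            have : 0 < η * η * ((c : ℝ) * l) := by positivity
            linarith
    exact_mod_cast h7
  have hsup : ∀ c, a c ≠ 0 → g 0 < c ∧ c ≤ g I := by
    intro c hc
    have := has c hc
    rw [hg0, hgI]
    omega
  have hS : ∀ χ ∈ X, ∀ i, ‖∑ c ∈ Ioc 0 (g i), a c * χ (c : ZMod k)‖ ≤ g i * ρ := by
    intro χ hχ i
    rcases Nat.eq_zero_or_pos i with h0 | h0
    · subst h0
      rw [Finset.sum_eq_zero]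
      · rw [norm_zero]
        positivity
      · intro c hc
        rw [mem_Ioc] at hc
        have h3 : a c = 0 := by
          by_contra h
          have := (hsup c h).1
          omega
        rw [h3, zero_mul]
    · exact hA χ hχ (g i) (le_gg hη h1 h12 (by omega)) (gg_le η w₁ w₂ i)
  have hcell : ∀ χ ∈ X, ∀ i < I, ‖∑ c ∈ Ioc (g i) (g (i + 1)), a c * χ (c : ZMod k)‖ ≤
      2 * ρ * g (i + 1) := by
    intro χ hχ i _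
    have h3 := Finset.sum_Ioc_consecutive (fun c : ℕ => a c * χ (c : ZMod k)) (Nat.zero_le (g i))
      (hgm (Nat.le_succ i))
    have h4 : ∑ c ∈ Ioc (g i) (g (i + 1)), a c * χ (c : ZMod k) =
        ∑ c ∈ Ioc 0 (g (i + 1)), a c * χ (c : ZMod k) - ∑ c ∈ Ioc 0 (g i), a c * χ (c : ZMod k) := by
      rw [← h3]
      ring
    rw [h4]
    have h5 : (g i : ℝ) * ρ ≤ g (i + 1) * ρ := by
      refine mul_le_mul_of_nonneg_right ?_ hρ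
      exact_mod_cast hgm (Nat.le_succ i)
    calc _ ≤ ‖∑ c ∈ Ioc 0 (g (i + 1)), a c * χ (c : ZMod k)‖ +
          ‖∑ c ∈ Ioc 0 (g i), a c * χ (c : ZMod k)‖ := norm_sub_le _ _
      _ ≤ g (i + 1) * ρ + g (i + 1) * ρ := add_le_add (hS χ hχ _) ((hS χ hχ _).trans h5)
      _ = _ := by ring
  have hcell2 : ∀ i < I, ∑ χ ∈ X, ‖∑ c ∈ Ioc (g i) (g (i + 1)), a c * χ (c : ZMod k)‖ ^ 2 *
        ‖∑ l ∈ Icc 1 (y / g (i + 1)), b l * χ (l : ZMod k)‖ ^ 2 ≤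
      (8 * C₀ + 2 * C₃) * (Real.log x) ^ (16 + c₃) * PP2 x k w₂ ρ Δ := by
    intro i hi
    exact cell hC₀ hC₃ hτ (fun x k v u K _ => hlv x k v u K) k a b ha hb (g i) (g (i + 1))
      (y / g (i + 1)) x w₂ ρ Δ hx hkx h2 (gg_le η w₁ w₂ (i + 1)) ((Nat.div_le_self _ _).trans hyx)
      ((Nat.mul_div_le y (g (i + 1))).trans hyx) hρ hΔ X (fun χ hχ => hcell χ hχ i hi)
  have hMain := main_ms2 k a b g y I x w₂ ρ Δ X hcell2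
  have hErr := err_ms hC₁ hτs k a b ha hb g hgm y I M x η hη hx hMy hyx hMd X
  have hpt : ∀ χ ∈ X, ‖∑ n ∈ Icc 1 y, (∑ p ∈ n.divisorsAntidiagonal, a p.1 * b p.2) *
        χ (n : ZMod k)‖ ^ 2 ≤
      2 * ‖∑ i ∈ range I, (∑ c ∈ Ioc (g i) (g (i + 1)), a c * χ (c : ZMod k)) *
        (∑ l ∈ Icc 1 (y / g (i + 1)), b l * χ (l : ZMod k))‖ ^ 2 +
      2 * ‖∑ n ∈ Ioc M y, ecf a b g y I n * χ (n : ZMod k)‖ ^ 2 := by
    intro χ _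
    rw [decomp χ a b g hgm y I M hM hsup]
    set u := ∑ i ∈ range I, (∑ c ∈ Ioc (g i) (g (i + 1)), a c * χ (c : ZMod k)) *
        (∑ l ∈ Icc 1 (y / g (i + 1)), b l * χ (l : ZMod k))
    set v := ∑ n ∈ Ioc M y, ecf a b g y I n * χ (n : ZMod k)
    have h4 := pow_le_pow_left₀ (norm_nonneg _) (norm_add_le u v) 2
    nlinarith [sq_nonneg (‖u‖ - ‖v‖)]
  refine (Finset.sum_le_sum hpt).trans ?_
  rw [Finset.sum_add_distrib, ← Finset.mul_sum, ← Finset.mul_sum]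
  refine (add_le_add (mul_le_mul_of_nonneg_left hMain (by norm_num))
    (mul_le_mul_of_nonneg_left hErr (by norm_num))).trans ?_
  set P : ℝ := PP2 x k w₂ ρ Δ with hP
  have hP0 : 0 ≤ P := PP2_nonneg x k w₂ ρ (by linarith)
  set Q : ℝ := (η * x + k) * Real.sqrt η * x with hQ
  have hQ0 : 0 ≤ Q := by positivity
  have hI3 : (I : ℝ) ^ 2 ≤ (5 * Real.log x / η) ^ 2 := pow_le_pow_left₀ (Nat.cast_nonneg _) hI2 2
  set Z := (Real.log x) ^ (4096 + 18 + c₃) with hZ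
  have hL18 : (Real.log x) ^ (18 + c₃) ≤ Z := pow_le_pow_right₀ hL (by omega)
  have hL4 : (Real.log x) ^ 4096 ≤ Z := pow_le_pow_right₀ hL (by omega)
  have hZ0 : 0 ≤ Z := by positivity
  set Cm : ℝ := 8 * C₀ + 2 * C₃ with hCm
  have hCm0 : 0 ≤ Cm := by positivity
  have e1 : 2 * ((I : ℝ) ^ 2 * (Cm * (Real.log x) ^ (16 + c₃) * P)) ≤
      50 * Cm * Z * (1 / η ^ 2 * P) := by
    calc 2 * ((I : ℝ) ^ 2 * (Cm * (Real.log x) ^ (16 + c₃) * P))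
        ≤ 2 * ((5 * Real.log x / η) ^ 2 * (Cm * (Real.log x) ^ (16 + c₃) * P)) := by
          refine mul_le_mul_of_nonneg_left (mul_le_mul_of_nonneg_right hI3 ?_) (by norm_num)
          positivity
      _ = 50 * Cm * (Real.log x) ^ (18 + c₃) * (1 / η ^ 2 * P) := by
          rw [show 18 + c₃ = (16 + c₃) + 2 by ring, pow_add (Real.log x) (16 + c₃) 2]
          field_simp
          ring
      _ ≤ _ := by
          refine mul_le_mul_of_nonneg_right ?_ (by positivity)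
          exact mul_le_mul_of_nonneg_left hL18 (by positivity)
  have e2 : 2 * (3 * C₁ * (Real.log x) ^ 4096 * Q) ≤ 6 * C₁ * Z * Q := by
    calc 2 * (3 * C₁ * (Real.log x) ^ 4096 * Q) = 6 * C₁ * (Real.log x) ^ 4096 * Q := by ring
      _ ≤ _ := by gcongr
  have g1 : 0 ≤ 50 * Cm * Z * Q := by positivity
  have g2 : 0 ≤ 6 * C₁ * Z * (1 / η ^ 2 * P) := by positivity
  calc _ ≤ 50 * Cm * Z * (1 / η ^ 2 * P) + 6 * C₁ * Z * Q := add_le_add e1 e2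
    _ ≤ 50 * Cm * Z * (1 / η ^ 2 * P) + 6 * C₁ * Z * Q + (50 * Cm * Z * Q +
        6 * C₁ * Z * (1 / η ^ 2 * P)) := by linarith
    _ = _ := by ring


theorem ctl_var2 : ∃ (C : ℝ) (c : ℕ), 0 < C ∧ ∀ (x D w₁ w₂ J k : ℕ) [NeZero k] (A B : ℕ → ℕ → ℝ)
    (β err f : ℕ → ℝ) (M η ρ Δ : ℝ), Ctl x D w₁ w₂ J A B β err f → ∑ n ∈ Icc 1 x, (err n) ^ 2 ≤ M →
    3 ≤ x → k ≤ x → D ≤ x → 1 ≤ w₁ → w₁ ≤ w₂ → w₂ ≤ x → 0 < η → η ≤ 1 → 2 ≤ η * w₁ → 0 ≤ ρ →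
    1 ≤ Δ → ∀ X : Finset (DirichletCharacter ℂ k), (∀ χ ∈ X, χ ≠ 1) →
    (∀ χ ∈ X, ∀ j < J, ∀ u : ℕ, w₁ ≤ u → u ≤ w₂ →
      ‖∑ c ∈ Icc 1 u, ((A j c : ℝ) : ℂ) * χ (c : ZMod k)‖ ≤ u * ρ) → ∀ y : ℕ, y ≤ x →
    ∑ χ ∈ X, ‖∑ n ∈ Icc 1 y, ((f n : ℝ) : ℂ) * χ (n : ZMod k)‖ ^ 2 ≤ C * (Real.log x) ^ c *
      (k * ((D : ℝ) ^ 2 + x) + (J : ℝ) ^ 2 * (1 / η ^ 2 * (ρ ^ 2 * (x : ℝ) ^ 2 + (x : ℝ) ^ 2 / Δ +
        Δ * ((w₂ : ℝ) ^ 2 * (k : ℝ) * Real.sqrt k + (k : ℝ) ^ 2 * Real.sqrt k)) +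
        (η * x + k) * Real.sqrt η * x) + (x + k) * M) := by
  obtain ⟨C₁, c₁, hC₁, hI⟩ := typeI_var
  obtain ⟨C₂, hC₂, hτ2⟩ := tau_sum 2
  obtain ⟨C₄, hC₄, hτ4⟩ := tau_sum 4
  obtain ⟨C₆, hC₆, hτ6⟩ := tau_short 6
  obtain ⟨C₃, c₃, hC₃, hlv⟩ := large_v2
  refine ⟨3 * (C₁ + 3 * C₂) + 3 * (50 * (8 * C₄ + 2 * C₃) + 6 * C₆) + 3,
    c₁ + 4 + (4096 + 18 + c₃), by positivity, ?_⟩
  intro x D w₁ w₂ J k _ A B β err f M η ρ Δ hctl hM hx hkx hDx h1 h12 h2 hη hη1 hηw hρ hΔ X hX hA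
    y hyx
  have hL : 1 ≤ Real.log x := DivSum_log x hx
  have hx0 : (0 : ℝ) < x := by exact_mod_cast (by omega : 0 < x)
  have hyx' : (y : ℝ) ≤ x := by exact_mod_cast hyx
  have hM0 : 0 ≤ M := (sum_nonneg fun _ _ => sq_nonneg _).trans hM
  have hPP : ρ ^ 2 * (x : ℝ) ^ 2 + (x : ℝ) ^ 2 / Δ +
        Δ * ((w₂ : ℝ) ^ 2 * (k : ℝ) * Real.sqrt k + (k : ℝ) ^ 2 * Real.sqrt k) = PP2 x k w₂ ρ Δ := rfl
  rw [hPP]
  have hPP0 := PP2_nonneg x k w₂ ρ (Δ := Δ) (by linarith)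
  set P : ℝ := 1 / η ^ 2 * PP2 x k w₂ ρ Δ + (η * x + k) * Real.sqrt η * x with hP
  have hP0 : 0 ≤ P := by positivity
  set SI : DirichletCharacter ℂ k → ℂ := fun χ =>
    ∑ n ∈ Icc 1 y, ((∑ m ∈ n.divisors, β m : ℝ) : ℂ) * χ (n : ZMod k) with hSI
  set SJ : ℕ → DirichletCharacter ℂ k → ℂ := fun j χ =>
    ∑ n ∈ Icc 1 y, (∑ p ∈ n.divisorsAntidiagonal, ((A j p.1 : ℝ) : ℂ) * ((B j p.2 : ℝ) : ℂ)) *
      χ (n : ZMod k) with hSJ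
  set SE : DirichletCharacter ℂ k → ℂ := fun χ =>
    ∑ n ∈ Icc 1 y, ((err n : ℝ) : ℂ) * χ (n : ZMod k) with hSE
  have hsplit : ∀ χ ∈ X, ‖∑ n ∈ Icc 1 y, ((f n : ℝ) : ℂ) * χ (n : ZMod k)‖ ^ 2 ≤
      3 * ‖SI χ‖ ^ 2 + 3 * (J * ∑ j ∈ range J, ‖SJ j χ‖ ^ 2) + 3 * ‖SE χ‖ ^ 2 := by
    intro χ _
    have e1 : ∑ n ∈ Icc 1 y, ((f n : ℝ) : ℂ) * χ (n : ZMod k) =
        SI χ + ∑ j ∈ range J, SJ j χ + SE χ := by
      rw [hSI, hSJ, hSE]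
      simp only
      rw [sum_comm (s := range J), ← sum_add_distrib, ← sum_add_distrib]
      refine sum_congr rfl fun n hn => ?_
      obtain ⟨hn1, hn2⟩ := mem_Icc.mp hn
      rw [hctl.eq n hn1 (hn2.trans hyx), ← sum_mul]
      push_cast
      ring
    rw [e1]
    have e2 := sq_sum_le (range J) (fun j => SJ j χ)
    rw [card_range] at e2
    set u := SI χ
    set v := ∑ j ∈ range J, SJ j χ
    set w := SE χ
    have b1 : ‖u + v + w‖ ≤ ‖u‖ + ‖v‖ + ‖w‖ :=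
      (norm_add_le _ _).trans (add_le_add_left (norm_add_le _ _) _)
    have b2 := pow_le_pow_left₀ (norm_nonneg _) b1 2
    nlinarith [sq_nonneg (‖u‖ - ‖v‖), sq_nonneg (‖u‖ - ‖w‖), sq_nonneg (‖v‖ - ‖w‖)]
  refine (sum_le_sum hsplit).trans ?_
  rw [sum_add_distrib, sum_add_distrib, ← mul_sum, ← mul_sum, ← mul_sum, ← mul_sum, sum_comm]
  have a1 : ∑ χ ∈ X, ‖SI χ‖ ^ 2 ≤
      (C₁ + 3 * C₂) * (Real.log x) ^ (c₁ + 4) * (k * ((D : ℝ) ^ 2 + x)) :=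
    partI hC₁ hC₂ (fun k D y _ w W => hI k D y w W) hτ2 hctl.hβ hctl.hβD hx hyx X hX
  have a2 : ∀ j ∈ range J, ∑ χ ∈ X, ‖SJ j χ‖ ^ 2 ≤
      (50 * (8 * C₄ + 2 * C₃) + 6 * C₆) * (Real.log x) ^ (4096 + 18 + c₃) * P := by
    intro j hj
    refine partII2 hC₄ hC₆ hC₃ hτ4 (fun x k v u K _ => hlv x k v u K) hτ6
      (a := fun c => ((A j c : ℝ) : ℂ))
      (b := fun l => ((B j l : ℝ) : ℂ)) ?_ ?_ ?_ hx hkx hyx h1 h12 h2 hη hη1 hηw hρ hΔ X ?_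
    · intro c
      rw [Complex.norm_real, Real.norm_eq_abs]
      exact hctl.hA j c
    · intro c hc
      refine hctl.hAs j c ?_
      simpa using hc
    · intro l
      rw [Complex.norm_real, Real.norm_eq_abs]
      exact hctl.hB j l
    · intro χ hχ u hu1 hu2
      exact hA χ hχ j (mem_range.1 hj) u hu1 hu2
  have a3 : (J : ℝ) * ∑ j ∈ range J, ∑ χ ∈ X, ‖SJ j χ‖ ^ 2 ≤
      (50 * (8 * C₄ + 2 * C₃) + 6 * C₆) * (Real.log x) ^ (4096 + 18 + c₃) * ((J : ℝ) ^ 2 * P) := by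
    calc (J : ℝ) * ∑ j ∈ range J, ∑ χ ∈ X, ‖SJ j χ‖ ^ 2
        ≤ J * ∑ _j ∈ range J, (50 * (8 * C₄ + 2 * C₃) + 6 * C₆) * (Real.log x) ^ (4096 + 18 + c₃) * P :=
          mul_le_mul_of_nonneg_left (sum_le_sum a2) (Nat.cast_nonneg _)
      _ = _ := by
          rw [sum_const, card_range, nsmul_eq_mul]
          ring
  have a4 : ∑ χ ∈ X, ‖SE χ‖ ^ 2 ≤ (x + k) * M := by
    refine (mv1 k y (fun n => ((err n : ℝ) : ℂ)) X).trans ?_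
    have h3 : ∑ n ∈ Icc 1 y, ‖((err n : ℝ) : ℂ)‖ ^ 2 ≤ M := by
      refine le_trans ?_ hM
      calc ∑ n ∈ Icc 1 y, ‖((err n : ℝ) : ℂ)‖ ^ 2 = ∑ n ∈ Icc 1 y, (err n) ^ 2 := by
            refine sum_congr rfl fun n _ => ?_
            rw [Complex.norm_real, Real.norm_eq_abs, sq_abs]
        _ ≤ _ := sum_le_sum_of_subset_of_nonneg (Icc_subset_Icc_right hyx)
            (fun _ _ _ => sq_nonneg _)
    exact mul_le_mul (by linarith) h3 (sum_nonneg fun _ _ => sq_nonneg _) (by positivity)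
  set E : ℕ := c₁ + 4 + (4096 + 18 + c₃) with hE
  have l1 : (Real.log x) ^ (c₁ + 4) ≤ (Real.log x) ^ E := pow_le_pow_right₀ hL (by omega)
  have l2 : (Real.log x) ^ (4096 + 18 + c₃) ≤ (Real.log x) ^ E := pow_le_pow_right₀ hL (by omega)
  have l3 : 1 ≤ (Real.log x) ^ E := one_le_pow₀ hL
  set Z := (Real.log x) ^ E with hZ
  have hZ0 : 0 ≤ Z := by positivity
  set T₁ := (k : ℝ) * ((D : ℝ) ^ 2 + x) with hT₁
  have hT₁0 : 0 ≤ T₁ := by positivity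
  set T₂ := (J : ℝ) ^ 2 * P with hT₂
  have hT₂0 : 0 ≤ T₂ := by positivity
  set T₃ := ((x : ℝ) + k) * M with hT₃
  have hT₃0 : 0 ≤ T₃ := by positivity
  have b1 : ∑ χ ∈ X, ‖SI χ‖ ^ 2 ≤ (C₁ + 3 * C₂) * (Z * T₁) := by
    refine a1.trans ?_
    rw [mul_assoc]
    exact mul_le_mul_of_nonneg_left (mul_le_mul_of_nonneg_right l1 hT₁0) (by positivity)
  have b2 : (J : ℝ) * ∑ j ∈ range J, ∑ χ ∈ X, ‖SJ j χ‖ ^ 2 ≤
      (50 * (8 * C₄ + 2 * C₃) + 6 * C₆) * (Z * T₂) := by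
    refine a3.trans ?_
    rw [mul_assoc]
    exact mul_le_mul_of_nonneg_left (mul_le_mul_of_nonneg_right l2 hT₂0) (by positivity)
  have b3 : ∑ χ ∈ X, ‖SE χ‖ ^ 2 ≤ Z * T₃ := a4.trans (le_mul_of_one_le_left hT₃0 l3)
  set K₁ := C₁ + 3 * C₂ with hK₁
  have hK₁0 : 0 ≤ K₁ := by positivity
  set K₂ := 50 * (8 * C₄ + 2 * C₃) + 6 * C₆ with hK₂
  have hK₂0 : 0 ≤ K₂ := by positivity
  have p5 : 0 ≤ Z * T₁ := mul_nonneg hZ0 hT₁0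
  have p6 : 0 ≤ Z * T₂ := mul_nonneg hZ0 hT₂0
  have p7 : 0 ≤ Z * T₃ := mul_nonneg hZ0 hT₃0
  have p1 : 0 ≤ K₁ * (Z * T₂) := mul_nonneg hK₁0 p6
  have p2 : 0 ≤ K₁ * (Z * T₃) := mul_nonneg hK₁0 p7
  have p3 : 0 ≤ K₂ * (Z * T₁) := mul_nonneg hK₂0 p5
  have p4 : 0 ≤ K₂ * (Z * T₃) := mul_nonneg hK₂0 p7
  calc _ ≤ 3 * (K₁ * (Z * T₁)) + 3 * (K₂ * (Z * T₂)) + 3 * (Z * T₃) := by linarith
    _ ≤ 3 * (K₁ * (Z * T₁)) + 3 * (K₂ * (Z * T₂)) + 3 * (Z * T₃) +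
        (3 * (K₁ * (Z * T₂)) + 3 * (K₁ * (Z * T₃)) + 3 * (K₂ * (Z * T₁)) +
          3 * (K₂ * (Z * T₃)) + 3 * (Z * T₁) + 3 * (Z * T₂)) := by linarith
    _ = _ := by ring


end Pool.Agent.HLA
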