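import Pool.Agent.Work.GBM.C23

/-! # Module HLA.Real: from natural to real `x` -/

namespace Pool.Agent.HLA

open Finset Filter Pool.Agent.HL

/-- the exceptional set for natural `x`, moduli `q ≤ x ^ θ`, exceptional numbers `b`, saving `K` -/
def NatForm (θ η : ℝ) (K : ℕ) (bad : ℕ → Prop) : Prop :=
  ∃ C : ℕ, ∀ A : ℕ, ∃ x₀ : ℕ, ∀ x : ℕ, x₀ ≤ x →
    ∃ (B : Finset ℕ) (r₁ : ℕ), (B.card : ℝ) ≤ (Real.log x) ^ C ∧
      r₁ ∣ 4 * ∏ p ∈ r₁.primeFactors, p ∧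
      (∀ b ∈ B, (Real.log x) ^ A < ((∏ p ∈ b.primeFactors, p : ℕ) : ℝ) ∧
        (Real.exp ((Real.log x) ^ (1 - η)) < ((∏ p ∈ b.primeFactors, p : ℕ) : ℝ) ∨
          ∃ g : ℕ, (g : ℝ) ≤ (Real.log x) ^ C ∧ b * g = r₁)) ∧
      ∀ q : ℕ, 1 ≤ q → (q : ℝ) ≤ (x : ℝ) ^ θ → (∀ b ∈ B, ¬ b ∣ q) → ∀ S : Finset ℕ,
        (∀ n ∈ S, 1 ≤ n ∧ n ≤ x ∧ x < 2 * n ∧ Even n ∧ q ∣ n ∧ bad n) →
        (S.card : ℝ) ≤ (x : ℝ) / (q * (Real.log x) ^ K)

theorem to_real (θ ε η : ℝ) (hε : 0 < ε) (hη : 0 < η) (K : ℕ) (bad bad' : ℕ → Prop)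
    (hbad : ∀ᶠ n : ℕ in atTop, bad' n → bad n)
    (hnat : NatForm (θ - ε / 2) (min (η / 2) (1 / 2)) (K + 1) bad) :
    ∃ C : ℕ, ∀ A : ℕ, ∃ x₀ : ℝ, ∀ x : ℝ, x₀ ≤ x →
    ∃ (B : Finset ℕ) (r₁ : ℕ), (B.card : ℝ) ≤ (Real.log x) ^ C ∧
      r₁ ∣ 4 * ∏ p ∈ r₁.primeFactors, p ∧
      (∀ b ∈ B, (Real.log x) ^ A < ((∏ p ∈ b.primeFactors, p : ℕ) : ℝ) ∧
        (Real.exp ((Real.log x) ^ (1 - η)) < ((∏ p ∈ b.primeFactors, p : ℕ) : ℝ) ∨
          ∃ g : ℕ, (g : ℝ) ≤ (Real.log x) ^ C ∧ b * g = r₁)) ∧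
      ∀ q : ℕ, 1 ≤ q → (q : ℝ) ≤ x ^ (θ - ε) → (∀ b ∈ B, ¬ b ∣ q) → ∀ S : Finset ℕ,
        (∀ n ∈ S, 1 ≤ n ∧ x / 2 < (n : ℝ) ∧ (n : ℝ) ≤ x ∧ Even n ∧ q ∣ n ∧ bad' n) →
        (S.card : ℝ) ≤ x / (q * (Real.log x) ^ K) := by
  set η₂ : ℝ := min (η / 2) (1 / 2) with hη₂
  have h20 : 0 < η₂ := lt_min (by linarith) (by norm_num)
  have h21 : η₂ ≤ 1 / 2 := min_le_right _ _
  have h22 : η₂ < η := lt_of_le_of_lt (min_le_left _ _) (by linarith)
  obtain ⟨C, hC⟩ := hnat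
  obtain ⟨n₀, hn₀⟩ := eventually_atTop.1 hbad
  refine ⟨C, fun A => ?_⟩
  obtain ⟨x₁, hx₁⟩ := hC (A + 1)
  have hev : ∀ᶠ X : ℕ in Filter.atTop, (2 : ℝ) ^ K ≤ (Real.log X) ^ 1 ∧
      (2 : ℝ) ^ A ≤ (Real.log X) ^ 1 ∧ 2 ^ |θ - ε| ≤ (X : ℝ) ^ (ε / 2) ∧ 3 ≤ X ∧ x₁ ≤ X ∧
      2 * (Real.log X) ^ (1 - η) ≤ (Real.log X) ^ (1 - η₂) ∧ 2 * n₀ ≤ X := by
    have h1 : ∀ᶠ X : ℕ in Filter.atTop, 2 ^ |θ - ε| ≤ (X : ℝ) ^ (ε / 2) :=
      ((tendsto_rpow_atTop (by linarith : (0 : ℝ) < ε / 2)).comp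
        tendsto_natCast_atTop_atTop).eventually_ge_atTop _
    have hlog : Tendsto (fun x : ℕ => Real.log (x : ℝ)) atTop atTop :=
      Real.tendsto_log_atTop.comp tendsto_natCast_atTop_atTop
    have h4 := ((tendsto_rpow_atTop (by linarith : 0 < η - η₂)).comp hlog).eventually_ge_atTop 2
    filter_upwards [ev_log_ge 1 le_rfl ((2 : ℝ) ^ K), ev_log_ge 1 le_rfl ((2 : ℝ) ^ A), h1,
      Filter.eventually_ge_atTop 3, Filter.eventually_ge_atTop x₁, h4, hlog.eventually_ge_atTop 1,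
      Filter.eventually_ge_atTop (2 * n₀)]
      with X a1 a2 a3 a4 a5 a6 a7 a8
    simp only [Function.comp_apply] at a6
    refine ⟨a1, a2, a3, a4, a5, ?_, a8⟩
    have hL0 : 0 < Real.log X := by linarith
    calc 2 * (Real.log X) ^ (1 - η) ≤ (Real.log X) ^ (η - η₂) * (Real.log X) ^ (1 - η) := by
          gcongr
      _ = (Real.log X) ^ (1 - η₂) := by
          rw [← Real.rpow_add hL0]
          congr 1
          ring
  obtain ⟨X₀, hX₀⟩ := Filter.eventually_atTop.1 hev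
  refine ⟨X₀ + 1, fun x hx => ?_⟩
  have hx0 : (0 : ℝ) ≤ x := by
    have : (0 : ℝ) ≤ X₀ := Nat.cast_nonneg _
    linarith
  set X := ⌊x⌋₊ with hX
  have hXx : (X : ℝ) ≤ x := Nat.floor_le hx0
  have hxX : x < X + 1 := Nat.lt_floor_add_one x
  have hXX0 : X₀ ≤ X := by
    rw [hX, Nat.le_floor_iff hx0]
    linarith
  obtain ⟨a1, a2, a3, a4, a5, a6, a7⟩ := hX₀ X hXX0
  rw [pow_one] at a1 a2
  have hX3 : (3 : ℝ) ≤ X := by exact_mod_cast a4
  have hX0 : (0 : ℝ) < X := by linarith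
  have hL1 := one_le_log a4
  have hLx : Real.log X ≤ Real.log x := Real.log_le_log hX0 hXx
  have hLx2 : Real.log x ≤ 2 * Real.log X := by
    have h1 : x ≤ (X : ℝ) ^ 2 := by nlinarith
    calc Real.log x ≤ Real.log ((X : ℝ) ^ 2) := Real.log_le_log (by linarith) h1
      _ = 2 * Real.log X := by rw [Real.log_pow]; norm_num
  have hkey : ∀ k : ℕ, (2 : ℝ) ^ k ≤ Real.log X → (Real.log x) ^ k ≤ (Real.log X) ^ (k + 1) := by
    intro k hk
    calc (Real.log x) ^ k ≤ (2 * Real.log X) ^ k := pow_le_pow_left₀ (by linarith) hLx2 k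
      _ = 2 ^ k * (Real.log X) ^ k := by rw [mul_pow]
      _ ≤ Real.log X * (Real.log X) ^ k := mul_le_mul_of_nonneg_right hk (by positivity)
      _ = _ := by ring
  have hexp : (Real.log x) ^ (1 - η) ≤ (Real.log X) ^ (1 - η₂) := by
    refine le_trans ?_ a6
    have hp0 : 0 < (Real.log X) ^ (1 - η) := by
      have : 0 < Real.log X := by linarith
      positivity
    rcases le_or_gt 0 (1 - η) with h1 | h1
    · calc (Real.log x) ^ (1 - η) ≤ (2 * Real.log X) ^ (1 - η) :=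
            Real.rpow_le_rpow (by linarith) hLx2 h1
        _ = 2 ^ (1 - η) * (Real.log X) ^ (1 - η) := Real.mul_rpow (by norm_num) (by linarith)
        _ ≤ 2 ^ (1 : ℝ) * (Real.log X) ^ (1 - η) := by
            gcongr
            · norm_num
            · linarith
        _ = 2 * (Real.log X) ^ (1 - η) := by rw [Real.rpow_one]
    · calc (Real.log x) ^ (1 - η) ≤ (Real.log X) ^ (1 - η) :=
            Real.rpow_le_rpow_of_nonpos (by linarith) hLx h1.le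
        _ ≤ 2 * (Real.log X) ^ (1 - η) := by linarith
  obtain ⟨B, r₁, hB1, hr2, hB2, hB3⟩ := hx₁ X a5
  have hCC : (Real.log X) ^ C ≤ (Real.log x) ^ C := pow_le_pow_left₀ (by linarith) hLx C
  refine ⟨B, r₁, hB1.trans hCC, hr2, fun b hb => ?_, fun q hq hqx hqB S hS => ?_⟩
  · obtain ⟨b1, b2⟩ := hB2 b hb
    refine ⟨(hkey A a2).trans_lt b1, ?_⟩
    rcases b2 with b2 | ⟨g, hg1, hg2⟩
    · exact Or.inl ((Real.exp_le_exp.2 hexp).trans_lt b2)
    · exact Or.inr ⟨g, hg1.trans hCC, hg2⟩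
  · have hq0 : (0 : ℝ) < q := by exact_mod_cast hq
    have hq1 : (1 : ℝ) ≤ q := by exact_mod_cast hq
    have hqX : (q : ℝ) ≤ (X : ℝ) ^ (θ - ε / 2) := by
      rcases lt_or_ge (θ - ε) 0 with hneg | hpos
      · exfalso
        have : x ^ (θ - ε) < 1 := Real.rpow_lt_one_of_one_lt_of_neg (by linarith) hneg
        linarith
      · have h2X : x ≤ 2 * X := by linarith
        calc (q : ℝ) ≤ x ^ (θ - ε) := hqx
          _ ≤ (2 * X) ^ (θ - ε) := Real.rpow_le_rpow hx0 h2X hpos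
          _ = 2 ^ (θ - ε) * (X : ℝ) ^ (θ - ε) := Real.mul_rpow (by norm_num) hX0.le
          _ ≤ (X : ℝ) ^ (ε / 2) * (X : ℝ) ^ (θ - ε) := by
              apply mul_le_mul_of_nonneg_right _ (by positivity)
              refine le_trans ?_ a3
              exact Real.rpow_le_rpow_of_exponent_le (by norm_num) (le_abs_self _)
          _ = (X : ℝ) ^ (θ - ε / 2) := by
              rw [← Real.rpow_add hX0]
              congr 1
              ring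
    have hmain := hB3 q hq hqX hqB S fun n hn => by
      obtain ⟨h1, h2, h3, h4, h5, h6⟩ := hS n hn
      have e1 : (X : ℝ) < 2 * n := by linarith
      have e2 : X < 2 * n := by exact_mod_cast e1
      have e3 : n ≤ X := by
        rw [hX, Nat.le_floor_iff hx0]
        exact h3
      refine ⟨h1, e3, e2, h4, h5, hn₀ n (by omega) h6⟩
    refine hmain.trans ?_
    have hlx0 : 0 < (Real.log x) ^ K := by
      have : 0 < Real.log x := by linarith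
      positivity
    apply div_le_div₀ hx0 hXx (by positivity)
    exact mul_le_mul_of_nonneg_left (hkey K a1) hq0.le

end Pool.Agent.HLA
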