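import Pool.Agent.Work.MP_92f640_nt.HLA.SupL
import Pool.Agent.Work.MP_92f640_nt.HLA.BsetG
import Pool.Agent.Work.MP_92f640_nt.HLA.CountG
import Pool.Agent.Work.MP_92f640_nt.HLA.RealG

/-! # Module HLA.MainG: the asymptotic formula of Hardy and Littlewood for almost all multiples of `q ≤ x^(4/5 - ε)` -/

namespace Pool.Agent.HLA

open Finset Pool.Agent.BV Pool.Agent.HL Pool.Agent.HL.Sing Pool.Agent.HS Filter
open scoped ArithmeticFunction.vonMangoldt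

open Classical in
theorem nat_asym (C₂ : ℝ) (h : HasProd (fun p : {p : ℕ // p.Prime ∧ 2 < p} =>
    1 - 1 / (((p : ℕ) : ℝ) - 1) ^ 2) C₂) (ε η : ℝ) (hε : 0 < ε) (hη : 0 < η) (K : ℕ) :
    ∃ C : ℕ, ∀ A : ℕ, ∃ x₀ : ℕ, ∀ x : ℕ, x₀ ≤ x →
    ∃ (B : Finset ℕ) (r₁ : ℕ), (B.card : ℝ) ≤ (Real.log x) ^ C ∧
      r₁ ∣ 4 * ∏ p ∈ r₁.primeFactors, p ∧
      (∀ b ∈ B, (Real.log x) ^ A < ((∏ p ∈ b.primeFactors, p : ℕ) : ℝ) ∧
        (Real.exp ((Real.log x) ^ (1 - η)) < ((∏ p ∈ b.primeFactors, p : ℕ) : ℝ) ∨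
          ∃ g : ℕ, (g : ℝ) ≤ (Real.log x) ^ C ∧ b * g = r₁)) ∧
      ∀ q : ℕ, 1 ≤ q → (q : ℝ) ≤ (x : ℝ) ^ (4 / 5 - ε) → (∀ b ∈ B, ¬ b ∣ q) →
        (((Icc 1 x).filter (fun n => x < 2 * n ∧ Even n ∧ q ∣ n ∧
          ¬ |RR n - SS C₂ n * n| ≤ n / (Real.log n) ^ K)).card : ℝ) ≤
          (x : ℝ) / (q * (Real.log x) ^ K) := by
  set κ : ℝ := 1 / 100 with hκdef
  have hκ : 0 < κ := by norm_num [hκdef]
  obtain ⟨B₁, B', B₉, hB₁, hsup⟩ := sup_L κ ε hκ le_rfl hε (4 * K + 12)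
  obtain ⟨C, hbset⟩ := bset_radP κ ε η hκ (by norm_num [hκdef]) hε hη (B₁ + 1) B₉ B'
  obtain ⟨C₁, hC₁, hT⟩ := T_l2
  refine ⟨C, fun A => ?_⟩
  obtain ⟨x₁, hx₁⟩ := hsup (A + 1 + (B₁ + 1) + 1)
  obtain ⟨x₂, hx₂⟩ := hbset A
  have hev : ∀ᶠ x : ℕ in Filter.atTop, 4 * (1 + C₁) ≤ (Real.log x) ^ 2 ∧
      2 * C1 ≤ (Real.log x) ^ 1 ∧
      256 * (Real.log x) ^ (4 * B₁ + 1 + (K + 2)) ≤ (x : ℝ) ^ (1 / 5 : ℝ) ∧
      5 * (Real.log x) ^ (2 + (K + 2)) * Real.sqrt x ≤ x ∧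
      4 * (Real.log x) ^ (2 * B₁) * Real.sqrt x ≤ x ∧
      6 ≤ x ∧ x₁ ≤ x ∧ x₂ ≤ x ∧ 64 ≤ Real.log x := by
    filter_upwards [ev_log_ge 2 (by norm_num) (4 * (1 + C₁)),
      ev_log_ge 1 (by norm_num) (2 * C1),
      HL.evt_pow 256 (4 * B₁ + 1 + (K + 2)) (1 / 5) (by norm_num), ev_pow_log (2 + (K + 2)) 5,
      ev_pow_log (2 * B₁) 4, Filter.eventually_ge_atTop 6, Filter.eventually_ge_atTop x₁,
      Filter.eventually_ge_atTop x₂, HL.evt_log 64] with x a1 a2 a3 a4 a5 a6 a7 a8 a9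
    exact ⟨a1, a2, a3, a4, a5, a6, a7, a8, a9⟩
  obtain ⟨x₀, hx₀⟩ := Filter.eventually_atTop.1 hev
  refine ⟨x₀, fun x hx => ?_⟩
  obtain ⟨c1, c2, c3, c4, c5, h6, hxx1, hxx2, c9⟩ := hx₀ x hx
  obtain ⟨B, r₁, hB1, hB2, hB3, hB4⟩ := hx₂ x hxx2
  refine ⟨B, r₁, hB1, hB2, hB3, fun q hq hqx hqB => ?_⟩
  have hV := hx₁ x hxx1 q hq hqx (hB4 q hq hqx hqB)
  have h3 : 3 ≤ x := by omega
  have hL := one_le_log h3
  set L := Real.log x with hLdef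
  set Q := ⌈L ^ B₁⌉₊ with hQdef
  have hx0 : (0 : ℝ) < x := by exact_mod_cast (by omega : 0 < x)
  have hx1 : (1 : ℝ) ≤ x := by exact_mod_cast (by omega : 1 ≤ x)
  have hq0 : (0 : ℝ) < q := by exact_mod_cast hq
  have hsx1 : 1 ≤ Real.sqrt x := by rw [Real.one_le_sqrt]; exact hx1
  have hLB : 1 ≤ L ^ B₁ := one_le_pow₀ hL
  have hQle : (Q : ℝ) ≤ 2 * L ^ B₁ := by
    have := Nat.ceil_lt_add_one (by positivity : 0 ≤ L ^ B₁)
    linarith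
  have hQge : L ^ B₁ ≤ (Q : ℝ) := Nat.le_ceil _
  have hQ1 : 1 ≤ Q := by
    have : (1 : ℝ) ≤ Q := hLB.trans hQge
    exact_mod_cast this
  have hqs : (q : ℝ) ≤ (x : ℝ) ^ (4 / 5 : ℝ) :=
    hqx.trans (Real.rpow_le_rpow_of_exponent_le hx1 (by linarith))
  have hsx : (x : ℝ) ^ (4 / 5 : ℝ) ≤ x := by
    calc (x : ℝ) ^ (4 / 5 : ℝ) ≤ (x : ℝ) ^ (1 : ℝ) :=
          Real.rpow_le_rpow_of_exponent_le hx1 (by norm_num)
      _ = x := Real.rpow_one _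
  have hqx' : q ≤ x := by
    have : (q : ℝ) ≤ x := hqs.trans hsx
    exact_mod_cast this
  have hlogq : Real.log q ≤ L := Real.log_le_log hq0 (by exact_mod_cast hqx')
  have hQ2 : Q ^ 2 ≤ x := by
    have h1 : (Q : ℝ) ^ 2 ≤ x := by
      calc (Q : ℝ) ^ 2 ≤ (2 * L ^ B₁) ^ 2 := pow_le_pow_left₀ (by positivity) hQle 2
        _ = 4 * L ^ (2 * B₁) * 1 := by ring
        _ ≤ 4 * L ^ (2 * B₁) * Real.sqrt x := mul_le_mul_of_nonneg_left hsx1 (by positivity)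
        _ ≤ x := c5
    exact_mod_cast h1
  have hT2 := hT x q Q h3 hq hqx' hQ1 hQ2
  have hLK2 : 0 < L ^ (K + 2) := by positivity
  have hLK3 : 0 < L ^ (K + 3) := by positivity
  have hE1 := count_gen q x (4 * K + 12) Q C₁ (L ^ (K + 2)) hC₁.le hLK2 h3 hq hV hT2
  have hE2 := T_count q Q (x / q) hQ1 (1 / L ^ (K + 3)) (by positivity)
  have hratio : (q : ℝ) / q.totient ≤ 4 * L := (ratio_le q hq).trans (by linarith)
  have hratio0 : 0 ≤ (q : ℝ) / q.totient := by positivity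
  have he : 4 * ((q : ℝ) / q.totient) * q * (Q : ℝ) ^ 4 ≤ (x : ℝ) / L ^ (K + 2) := by
    have a1 : (Q : ℝ) ^ 4 ≤ 16 * L ^ (4 * B₁) := by
      calc (Q : ℝ) ^ 4 ≤ (2 * L ^ B₁) ^ 4 := pow_le_pow_left₀ (by positivity) hQle 4
        _ = 16 * L ^ (4 * B₁) := by ring
    rw [le_div_iff₀ hLK2]
    calc 4 * ((q : ℝ) / q.totient) * q * (Q : ℝ) ^ 4 * L ^ (K + 2) ≤
        4 * (4 * L) * (x : ℝ) ^ (4 / 5 : ℝ) * (16 * L ^ (4 * B₁)) * L ^ (K + 2) := by gcongr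
      _ = 256 * L ^ (4 * B₁ + 1 + (K + 2)) * (x : ℝ) ^ (4 / 5 : ℝ) := by ring
      _ ≤ (x : ℝ) ^ (1 / 5 : ℝ) * (x : ℝ) ^ (4 / 5 : ℝ) :=
          mul_le_mul_of_nonneg_right c3 (by positivity)
      _ = x := by
          rw [← Real.rpow_add hx0]
          norm_num
  have hp : 5 * Real.sqrt x * L ^ 2 ≤ (x : ℝ) / L ^ (K + 2) := by
    rw [le_div_iff₀ hLK2]
    calc 5 * Real.sqrt x * L ^ 2 * L ^ (K + 2) = 5 * L ^ (2 + (K + 2)) * Real.sqrt x := by ring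
      _ ≤ x := c4
  set D : ℕ → ℝ := fun m => ‖cv (FL q) (FL q) (q * m) - cv (TM q Q) (TM q Q) (q * m)‖ with hD
  set E1 := (Icc 1 (x / q)).filter (fun m => (x : ℝ) / L ^ (K + 2) ≤ D m) with hE1def
  set E2 := (Icc 1 (x / q)).filter (fun m => 1 / L ^ (K + 3) ≤ T q Q m) with hE2def
  have hsub : (Icc 1 x).filter (fun n => x < 2 * n ∧ Even n ∧ q ∣ n ∧
          ¬ |RR n - SS C₂ n * n| ≤ n / (Real.log n) ^ K) ⊆ (E1 ∪ E2).image (fun m => q * m) := by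
    intro n hn
    rw [mem_filter, mem_Icc] at hn
    obtain ⟨⟨hn1, hnx⟩, hx2, hev', ⟨m, rfl⟩, hbad⟩ := hn
    have hm : 1 ≤ m := by
      rcases Nat.eq_zero_or_pos m with h | h
      · subst h; simp at hn1
      · exact h
    have hmx : m ≤ x / q := by
      rw [Nat.le_div_iff_mul_le hq, mul_comm]
      exact hnx
    rw [mem_image]
    refine ⟨m, ?_, rfl⟩
    rw [mem_union]
    by_contra hcon
    push Not at hcon
    obtain ⟨k1, k2⟩ := hcon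
    rw [hE1def, mem_filter, mem_Icc] at k1
    rw [hE2def, mem_filter, mem_Icc] at k2
    have k1' : D m < (x : ℝ) / L ^ (K + 2) := by
      by_contra h
      exact k1 ⟨⟨hm, hmx⟩, not_lt.1 h⟩
    have k2' : T q Q m < 1 / L ^ (K + 3) := by
      by_contra h
      exact k2 ⟨⟨hm, hmx⟩, not_lt.1 h⟩
    exact hbad (good_asym C₂ h K q Q m x B₁ hq hm hB₁ h3 c9 (by omega) hnx hx2 hev' hQge hratio
      k1' k2' he hp)
  have hcard : (((Icc 1 x).filter (fun n => x < 2 * n ∧ Even n ∧ q ∣ n ∧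
          ¬ |RR n - SS C₂ n * n| ≤ n / (Real.log n) ^ K)).card : ℝ) ≤ (E1.card : ℝ) + E2.card := by
    have := (card_le_card hsub).trans (card_image_le.trans (card_union_le E1 E2))
    exact_mod_cast this
  refine hcard.trans ?_
  have hLK : 0 < L ^ K := by positivity
  have hb1 : (E1.card : ℝ) ≤ 1 / 2 * ((x : ℝ) / (q * L ^ K)) := by
    refine hE1.trans ?_
    have a1 : 2 * (L ^ (K + 2)) ^ 2 * (1 + C₁) * x * L ^ 3 / (q * L ^ (4 * K + 12)) =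
        2 * (1 + C₁) * ((x : ℝ) / (q * L ^ K)) / L ^ (K + 5) := by
      have : L ^ (4 * K + 12) = (L ^ (K + 2)) ^ 2 * L ^ 3 * (L ^ K * L ^ (K + 5)) := by ring
      rw [this]
      have hL0 : L ≠ 0 := by positivity
      field_simp
    rw [a1, div_le_iff₀ (by positivity)]
    have a2 : L ^ 2 ≤ L ^ (K + 5) := pow_le_pow_right₀ hL (by omega)
    have a3 : 0 ≤ (x : ℝ) / (q * L ^ K) := by positivity
    nlinarith [mul_le_mul_of_nonneg_right (c1.trans a2) a3]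
  have hb2 : (E2.card : ℝ) ≤ 1 / 2 * ((x : ℝ) / (q * L ^ K)) := by
    refine hE2.trans ?_
    have a1 : ((x / q : ℕ) : ℝ) ≤ (x : ℝ) / q := Nat.cast_div_le
    have a2 : L ^ (2 * K + 6) ≤ Real.sqrt Q := by
      apply Real.le_sqrt_of_sq_le
      calc (L ^ (2 * K + 6)) ^ 2 = L ^ (4 * K + 12) := by ring
        _ ≤ L ^ B₁ := pow_le_pow_right₀ hL hB₁
        _ ≤ Q := hQge
    have a3 : (0 : ℝ) < L ^ (2 * K + 6) := by positivity
    have hC1 : 0 ≤ C1 := by unfold C1; positivity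
    rw [div_div_eq_mul_div, div_one]
    calc C1 * ((x / q : ℕ) : ℝ) / Real.sqrt Q * L ^ (K + 3)
        ≤ C1 * ((x : ℝ) / q) / L ^ (2 * K + 6) * L ^ (K + 3) := by
          gcongr
      _ = (2 * C1) * (1 / 2 * ((x : ℝ) / (q * L ^ K))) / L ^ 3 := by
          have hL0 : L ≠ 0 := by positivity
          have : L ^ (2 * K + 6) = L ^ K * L ^ 3 * L ^ (K + 3) := by ring
          rw [this]
          field_simp
      _ ≤ L ^ 3 * (1 / 2 * ((x : ℝ) / (q * L ^ K))) / L ^ 3 := by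
          apply div_le_div_of_nonneg_right _ (by positivity)
          refine mul_le_mul_of_nonneg_right (c2.trans ?_) (by positivity)
          exact pow_le_pow_right₀ hL (by norm_num)
      _ = _ := by
          rw [mul_comm, mul_div_assoc, div_self (by positivity), mul_one]
  linarith

end Pool.Agent.HLA
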