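import Pool.Agent.Work.GBM.C14

/-! # Module HLA.PrimeId: the indicator of the primes in terms of sifted functions

For `x ≤ z^3`, `x ≤ D0^2` and `n ≤ x`: `Pf z n = aa cc0 z n - ∑_i [(gr η i)^2 < n] aa (cci i) z n + eP n`, where
`cc0` is the weight at `1`, `cci i` the indicator of the primes `≤ D0` in the `i`-th cell, and `eP n ≠ 0` only for
`n = 1` and `n = p p'`, `p < p' ≤ (1 + 39 η) p`. -/

namespace Pool.Agent.HLA

open Finset Pool.Agent.BV Pool.Agent.HL Pool.Agent.HS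

noncomputable section

/-- the primes `≥ z` -/
def Pf (z n : ℕ) : ℝ := if n.Prime ∧ z ≤ n then 1 else 0

/-- the weight at `1` -/
def cc0 (d : ℕ) : ℝ := if d = 1 then 1 else 0

/-- the weight at the primes of the `i`-th cell -/
def cci (z D0 : ℕ) (η : ℝ) (i d : ℕ) : ℝ :=
  if d.Prime ∧ z ≤ d ∧ d ≤ D0 ∧ gr η i ≤ d ∧ d < gr η (i + 1) then 1 else 0

/-- the error -/
def eP (z D0 J : ℕ) (η : ℝ) (n : ℕ) : ℝ :=
  Pf z n - aa cc0 z n + ∑ i ∈ range J, (if (gr η i) ^ 2 < n then aa (cci z D0 η i) z n else 0)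

theorem wt0 (z D0 : ℕ) (hD : 1 ≤ D0) : Wt z D0 cc0 where
  sf := by
    intro d hd
    have : d = 1 := by
      by_contra h
      exact hd (if_neg h)
    subst this
    exact ⟨squarefree_one, fun p hp h => absurd (Nat.dvd_one.1 h) hp.one_lt.ne'⟩
  le := by
    intro d hd
    have : d = 1 := by
      by_contra h
      exact hd (if_neg h)
    omega
  bd := by
    intro d
    unfold cc0
    split_ifs <;> simp

theorem wti (z D0 : ℕ) (η : ℝ) (i : ℕ) : Wt z D0 (cci z D0 η i) where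
  sf := by
    intro d hd
    have h : d.Prime ∧ z ≤ d ∧ d ≤ D0 ∧ gr η i ≤ d ∧ d < gr η (i + 1) := by
      by_contra h
      exact hd (if_neg h)
    refine ⟨h.1.prime.squarefree, fun p hp hpd => ?_⟩
    rw [(Nat.prime_dvd_prime_iff_eq hp h.1).1 hpd]
    exact h.2.1
  le := by
    intro d hd
    have h : d.Prime ∧ z ≤ d ∧ d ≤ D0 ∧ gr η i ≤ d ∧ d < gr η (i + 1) := by
      by_contra h
      exact hd (if_neg h)
    exact h.2.2.1
  bd := by
    intro d
    unfold cci
    split_ifs <;> simp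

/-- the number of cells that count the prime `p` -/
def cnt (z D0 J : ℕ) (η : ℝ) (p n : ℕ) : ℝ :=
  ∑ i ∈ range J, (if (gr η i) ^ 2 < n then cci z D0 η i p else 0)

theorem cnt_zero_or (z D0 J : ℕ) (η : ℝ) (hη : 0 < η) (p n : ℕ) :
    cnt z D0 J η p n = 0 ∨ (cnt z D0 J η p n = 1 ∧ ∃ i, gr η i ≤ p ∧ p < gr η (i + 1) ∧
      (gr η i) ^ 2 < n) := by
  by_cases h : ∃ i ∈ range J, (gr η i) ^ 2 < n ∧ cci z D0 η i p ≠ 0
  · right
    obtain ⟨i, hi, h1, h2⟩ := h
    have h3 : p.Prime ∧ z ≤ p ∧ p ≤ D0 ∧ gr η i ≤ p ∧ p < gr η (i + 1) := by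
      by_contra h
      exact h2 (if_neg h)
    refine ⟨?_, i, h3.2.2.2.1, h3.2.2.2.2, h1⟩
    unfold cnt
    rw [sum_eq_single i]
    · rw [if_pos h1]
      unfold cci
      rw [if_pos h3]
    · intro j _ hj
      split_ifs with h4
      · unfold cci
        rw [if_neg]
        rintro ⟨-, -, -, h5, h6⟩
        exact hj (CtlAA2.cell_unique hη h5 h6 h3.2.2.2.1 h3.2.2.2.2)
      · rfl
    · intro h
      exact absurd hi h
  · left
    push Not at h
    unfold cnt
    refine sum_eq_zero fun i hi => ?_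
    split_ifs with h1
    · exact h i hi h1
    · rfl

theorem cnt_one (z D0 J : ℕ) (η : ℝ) (hη : 0 < η) (p n : ℕ) (hp : p.Prime) (hz : z ≤ p)
    (hD : p ≤ D0) (hJ : p < gr η J) (hn : p ^ 2 < n) : cnt z D0 J η p n = 1 := by
  rcases cnt_zero_or z D0 J η hη p n with h | h
  · exfalso
    obtain ⟨i, hi, h1, h2⟩ := CtlAA2.cell J p hp.one_lt.le hJ
    have h3 : (gr η i) ^ 2 < n := lt_of_le_of_lt (Nat.pow_le_pow_left h1 2) hn
    have h4 : (1 : ℝ) ≤ cnt z D0 J η p n := by
      unfold cnt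
      refine le_trans ?_ (single_le_sum (f := fun i =>
        (if (gr η i) ^ 2 < n then cci z D0 η i p else 0)) (fun i _ => ?_) (mem_range.2 hi))
      · rw [if_pos h3]
        unfold cci
        rw [if_pos ⟨hp, hz, hD, h1, h2⟩]
      · unfold cci
        split_ifs <;> norm_num
    rw [h] at h4
    linarith
  · exact h.1

theorem gr_step' (η : ℝ) (hη : 0 < η) (i : ℕ) : (gr η (i + 1) : ℝ) ≤ (1 + η) * (gr η i + 1) := by
  have h1 : (gr η (i + 1) : ℝ) ≤ (1 + η) ^ (i + 1) := Nat.floor_le (by positivity)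
  have h2 : (1 + η) ^ i < (gr η i : ℝ) + 1 := Nat.lt_floor_add_one _
  calc (gr η (i + 1) : ℝ) ≤ (1 + η) ^ (i + 1) := h1
    _ = (1 + η) * (1 + η) ^ i := by ring
    _ ≤ (1 + η) * (gr η i + 1) := by gcongr

/-- the exceptional pairs -/
def BadPair (_z : ℕ) (η : ℝ) (n : ℕ) : Prop :=
  ∃ p p' : ℕ, n = p * p' ∧ p < p' ∧ (p' : ℝ) ≤ (1 + 39 * η) * p ∧ 1 ≤ p

theorem eP_bad (x z D0 J : ℕ) (η : ℝ) (hη : 0 < η) (hη1 : η ≤ 1) (hz : 10 ≤ z)
    (hzη : 1 ≤ η * z) (hz3 : x ≤ z ^ 3) (hD : x ≤ D0 ^ 2) (hJ : x ≤ gr η J) (n : ℕ)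
    (hn1 : 1 ≤ n) (hn : n ≤ x) :
    |eP z D0 J η n| ≤ 1 ∧ (eP z D0 J η n ≠ 0 → n = 1 ∨ BadPair z η n) := by
  have hD1 : 1 ≤ D0 := by
    rcases Nat.eq_zero_or_pos D0 with h | h
    · rw [h] at hD; omega
    · exact h
  by_cases hsf : Squarefree n
  swap
  · have h1 : ∀ cc : ℕ → ℝ, aa cc z n = 0 := fun cc => by
      unfold aa
      rw [if_neg hsf]
    have h2 : Pf z n = 0 := by
      unfold Pf
      rw [if_neg]
      rintro ⟨h, -⟩
      exact hsf h.prime.squarefree
    have h3 : eP z D0 J η n = 0 := by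
      unfold eP
      rw [h1, h2, sum_eq_zero]
      · ring
      · intro i _
        rw [h1]
        simp
    rw [h3]
    simp
  by_cases hr : ∀ p : ℕ, p.Prime → p ∣ n → z ≤ p
  swap
  · have h1 : ∀ cc : ℕ → ℝ, Wt z D0 cc → aa cc z n = 0 := fun cc hw => by
      by_contra h
      exact hr (aa_rough z D0 cc hw n h)
    have h2 : Pf z n = 0 := by
      unfold Pf
      rw [if_neg]
      rintro ⟨h, h'⟩
      refine hr fun p hp hpn => ?_
      rw [(Nat.prime_dvd_prime_iff_eq hp h).1 hpn]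
      exact h'
    have h3 : eP z D0 J η n = 0 := by
      unfold eP
      rw [h1 cc0 (wt0 z D0 hD1), h2, sum_eq_zero]
      · ring
      · intro i _
        rw [h1 _ (wti z D0 η i)]
        simp
    rw [h3]
    simp
  have haa : ∀ cc : ℕ → ℝ, aa cc z n = ∑ d ∈ n.divisors, cc d := fun cc => aa_eq z cc n hsf hr
  have hc1 : ∀ i, cci z D0 η i 1 = 0 := fun i => by
    unfold cci
    rw [if_neg]
    rintro ⟨h, -⟩
    exact Nat.not_prime_one h
  -- `n = 1`
  rcases Nat.eq_or_lt_of_le hn1 with h1 | h1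
  · subst h1
    have g1 : ∀ i, aa (cci z D0 η i) z 1 = 0 := fun i => by
      rw [haa, Nat.divisors_one, sum_singleton, hc1]
    have g2 : aa cc0 z 1 = 1 := by
      rw [haa, Nat.divisors_one, sum_singleton]
      exact if_pos rfl
    have g3 : Pf z 1 = 0 := if_neg fun h => Nat.not_prime_one h.1
    have h2 : eP z D0 J η 1 = -1 := by
      unfold eP
      rw [g2, g3, sum_eq_zero]
      · ring
      · intro i _
        rw [g1]
        simp
    rw [h2]
    simp
  -- the smallest prime factor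
  set p := n.minFac with hp
  have hpp : p.Prime := Nat.minFac_prime (by omega)
  have hpn : p ∣ n := Nat.minFac_dvd n
  obtain ⟨m, hm⟩ := hpn
  have hzp : z ≤ p := hr p hpp (Dvd.intro m hm.symm)
  have hm0 : 0 < m := Nat.pos_of_ne_zero (by rintro rfl; omega)
  rcases Nat.eq_or_lt_of_le (show 1 ≤ m from hm0) with h2 | h2
  · -- `n` prime
    rw [← h2, mul_one] at hm
    rw [hm]
    have h3 : cnt z D0 J η p p = 0 := by
      rcases cnt_zero_or z D0 J η hη p p with h | ⟨-, i, i1, i2, i3⟩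
      · exact h
      · exfalso
        have g1 := gr_step' η hη i
        have g2 : (p : ℝ) < (1 + η) * (gr η i + 1) := lt_of_lt_of_le (by exact_mod_cast i2) g1
        have g0 : (0 : ℝ) ≤ gr η i := Nat.cast_nonneg _
        have g3 : (p : ℝ) < 2 * (gr η i + 1) := by nlinarith
        have g4 : p < 2 * (gr η i + 1) := by exact_mod_cast g3
        have g5 : 4 ≤ gr η i := by omega
        nlinarith
    have h4 : eP z D0 J η p = 0 := by
      have e1 : ∀ i, aa (cci z D0 η i) z p = cci z D0 η i p := fun i => by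
        rw [hm] at haa
        rw [haa, hpp.sum_divisors, hc1]
        ring
      have e2 : aa cc0 z p = 1 := by
        rw [hm] at haa
        rw [haa, hpp.sum_divisors]
        simp [cc0, hpp.ne_one]
      have e3 : Pf z p = 1 := if_pos ⟨hpp, hzp⟩
      unfold eP
      rw [e2, e3]
      simp only [e1]
      have : cnt z D0 J η p p = ∑ i ∈ range J, (if (gr η i) ^ 2 < p then cci z D0 η i p else 0) := rfl
      rw [← this, h3]
      ring
    rw [h4]
    simp
  -- at least two prime factors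
  set p' := m.minFac with hp'
  have hpp' : p'.Prime := Nat.minFac_prime (by omega)
  have hpm : p' ∣ m := Nat.minFac_dvd m
  obtain ⟨m', hm'⟩ := hpm
  have hp'n : p' ∣ n := (Nat.minFac_dvd m).trans ⟨p, by rw [mul_comm]; exact hm⟩
  have hzp' : z ≤ p' := hr p' hpp' hp'n
  have hle : p ≤ p' := Nat.minFac_le_of_dvd hpp'.two_le hp'n
  have hne : p ≠ p' := by
    intro h
    rw [hm, hm', ← h] at hsf
    have : p * p ∣ p * (p * m') := by rw [← mul_assoc]; exact Dvd.intro _ rfl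
    have h3 := hsf p this
    exact hpp.one_lt.ne' (Nat.isUnit_iff.1 h3)
  have hlt : p < p' := lt_of_le_of_ne hle hne
  have hm'1 : m' = 1 := by
    by_contra h
    have h3 : m' ≠ 0 := by
      rintro rfl
      rw [mul_zero] at hm'
      omega
    have h4 : 2 ≤ m' := by omega
    have h5 : m'.minFac.Prime := Nat.minFac_prime h
    have hn3 : n = p * (p' * m') := by rw [← hm', ← hm]
    have h6 : m'.minFac ∣ n := (Nat.minFac_dvd m').trans ⟨p * p', by rw [hn3]; ring⟩
    have h7 := hr _ h5 h6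
    have h8 : m'.minFac ≤ m' := Nat.minFac_le (by omega)
    have h9 : z ^ 3 < n := by
      have h10 : z + 1 ≤ p' := by omega
      calc z ^ 3 < z ^ 3 + z * z :=
            Nat.lt_add_of_pos_right (Nat.mul_pos (by omega) (by omega))
        _ = z * ((z + 1) * z) := by ring
        _ ≤ p * (p' * m') := Nat.mul_le_mul hzp (Nat.mul_le_mul h10 (h7.trans h8))
        _ = n := hn3.symm
    omega
  rw [hm'1, mul_one] at hm'
  rw [hm'] at hm
  have hpp'' : ¬ p ∣ p' := fun h => hne ((Nat.prime_dvd_prime_iff_eq hpp hpp').1 h)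
  have hp'p : ¬ p' ∣ p := fun h => hne ((Nat.prime_dvd_prime_iff_eq hpp' hpp).1 h).symm
  have hnprime : ¬ (p * p').Prime := Nat.not_prime_mul hpp.ne_one hpp'.ne_one
  have hdiv : ∀ cc : ℕ → ℝ, aa cc z n = (cc 1 + cc p') + (cc p + cc (p * p')) := fun cc => by
    rw [haa, hm, divisors_mul_prime hpp.ne_zero hpp' hp'p, hpp.sum_divisors]
    ring_nf
  have e0 : aa cc0 z n = 1 := by
    rw [hdiv]
    have h3 : p * p' ≠ 1 := by
      have := hpp.two_le
      have := hpp'.two_le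
      nlinarith
    simp [cc0, hpp.ne_one, hpp'.ne_one, h3]
  have e1 : ∀ i, aa (cci z D0 η i) z n = cci z D0 η i p + cci z D0 η i p' := fun i => by
    have h3 : cci z D0 η i (p * p') = 0 := if_neg fun h => hnprime h.1
    rw [hdiv, hc1, h3]
    ring
  have e2 : Pf z n = 0 := by
    unfold Pf
    rw [if_neg]
    rintro ⟨h, -⟩
    rw [hm] at h
    exact hnprime h
  have e3 : eP z D0 J η n = -1 + cnt z D0 J η p n + cnt z D0 J η p' n := by
    unfold eP cnt
    rw [e0, e2, add_assoc (-1 : ℝ), ← sum_add_distrib]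
    congr 1
    · ring
    · refine sum_congr rfl fun i _ => ?_
      rw [e1]
      split_ifs <;> simp
  have hp2n : p ^ 2 < n := by
    rw [hm, sq]
    exact Nat.mul_lt_mul_of_pos_left hlt hpp.pos
  have hpD : p ≤ D0 := by
    have : p ^ 2 ≤ D0 ^ 2 := hp2n.le.trans (hn.trans hD)
    exact (Nat.pow_le_pow_iff_left (by norm_num)).1 this
  have hpx : p < n := by
    rw [hm]
    exact lt_mul_of_one_lt_right hpp.pos hpp'.one_lt
  have e4 := cnt_one z D0 J η hη p n hpp hzp hpD (by omega) hp2n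
  rw [e3, e4]
  rcases cnt_zero_or z D0 J η hη p' n with h | ⟨h, i, i1, i2, i3⟩
  · rw [h]
    simp
  · rw [h]
    refine ⟨by norm_num, fun _ => Or.inr ⟨p, p', hm, hlt, ?_, hpp.one_lt.le⟩⟩
    have g1 := gr_step' η hη i
    set E : ℝ := (gr η i : ℝ) with hE
    have g2 : (p' : ℝ) < (1 + η) * (E + 1) := lt_of_lt_of_le (by exact_mod_cast i2) g1
    have g0 : (0 : ℝ) ≤ E := Nat.cast_nonneg _
    have g3 : (p' : ℝ) < 2 * (E + 1) := by nlinarith
    have hz10 : (10 : ℝ) ≤ z := by exact_mod_cast hz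
    have hzp'R : (z : ℝ) ≤ p' := by exact_mod_cast hzp'
    have g4 : (z : ℝ) ≤ 3 * E := by linarith
    have g5 : E ^ 2 < p * p' := by
      rw [hm] at i3
      have : ((gr η i ^ 2 : ℕ) : ℝ) < ((p * p' : ℕ) : ℝ) := by exact_mod_cast i3
      push_cast at this
      exact this
    have hE0 : 0 < E := by linarith
    have g6 : 3 * E ≤ 9 * η * E ^ 2 := by
      have : 1 ≤ 3 * η * E := by nlinarith
      nlinarith
    have g7 : (E + 1) ^ 2 ≤ (1 + 9 * η) * E ^ 2 := by nlinarith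
    have hp'0 : (0 : ℝ) < p' := by exact_mod_cast hpp'.pos
    have hp0 : (0 : ℝ) < p := by exact_mod_cast hpp.pos
    have g8 : (p' : ℝ) ^ 2 ≤ ((1 + η) * (E + 1)) ^ 2 := pow_le_pow_left₀ hp'0.le g2.le 2
    have g9 : (p' : ℝ) * p' ≤ (1 + 39 * η) * p * p' := by
      calc (p' : ℝ) * p' = (p' : ℝ) ^ 2 := by ring
        _ ≤ (1 + η) ^ 2 * (E + 1) ^ 2 := by rw [← mul_pow]; exact g8
        _ ≤ (1 + η) ^ 2 * ((1 + 9 * η) * (p * p')) := by
            refine mul_le_mul_of_nonneg_left (g7.trans ?_) (by positivity)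
            exact mul_le_mul_of_nonneg_left g5.le (by positivity)
        _ = ((1 + η) ^ 2 * (1 + 9 * η)) * (p * p') := by ring
        _ ≤ (1 + 39 * η) * (p * p') := by
            refine mul_le_mul_of_nonneg_right ?_ (by positivity)
            nlinarith [mul_pos hη hη, mul_nonneg hη.le (mul_nonneg hη.le hη.le)]
        _ = (1 + 39 * η) * p * p' := by ring
    exact le_of_mul_le_mul_right g9 hp'0

/-- few exceptional pairs -/
theorem badPair_count (x z : ℕ) (η : ℝ) (hη : 0 < η) (S : Finset ℕ)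
    (hS : ∀ n ∈ S, n ≤ x ∧ BadPair z η n) : (S.card : ℝ) ≤ 39 * η * x := by
  classical
  set M : ℕ := Nat.sqrt x with hM
  have hsub : S ⊆ (Icc 1 M).biUnion (fun p => (Ioc p ⌊(1 + 39 * η) * p⌋₊).image (fun p' => p * p')) := by
    intro n hn
    obtain ⟨h1, p, p', rfl, h3, h4, h5⟩ := hS n hn
    rw [mem_biUnion]
    refine ⟨p, ?_, ?_⟩
    · rw [mem_Icc]
      refine ⟨h5, ?_⟩
      rw [hM, Nat.le_sqrt]
      exact (Nat.mul_le_mul_left p h3.le).trans h1
    · rw [mem_image]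
      refine ⟨p', ?_, rfl⟩
      rw [mem_Ioc]
      exact ⟨h3, Nat.le_floor h4⟩
  have hcard : ∀ p ∈ Icc 1 M, (((Ioc p ⌊(1 + 39 * η) * p⌋₊).image (fun p' => p * p')).card : ℝ) ≤
      39 * η * M := by
    intro p hp
    rw [mem_Icc] at hp
    have h1 : (((Ioc p ⌊(1 + 39 * η) * p⌋₊).image (fun p' => p * p')).card : ℝ) ≤
        ((⌊(1 + 39 * η) * p⌋₊ - p : ℕ) : ℝ) := by
      have := card_image_le (s := Ioc p ⌊(1 + 39 * η) * p⌋₊) (f := fun p' => p * p')
      rw [Nat.card_Ioc] at this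
      exact_mod_cast this
    have h2 : (⌊(1 + 39 * η) * (p : ℝ)⌋₊ : ℝ) ≤ (1 + 39 * η) * p := Nat.floor_le (by positivity)
    have h3 : p ≤ ⌊(1 + 39 * η) * (p : ℝ)⌋₊ := by
      refine Nat.le_floor ?_
      have : (0 : ℝ) ≤ 39 * η * p := by positivity
      linarith
    rw [Nat.cast_sub h3] at h1
    have h4 : (p : ℝ) ≤ M := by exact_mod_cast hp.2
    calc _ ≤ (⌊(1 + 39 * η) * (p : ℝ)⌋₊ : ℝ) - p := h1
      _ ≤ 39 * η * p := by linarith
      _ ≤ 39 * η * M := by gcongr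
  have h1 : (S.card : ℝ) ≤ ∑ p ∈ Icc 1 M, 39 * η * M := by
    refine le_trans ?_ (sum_le_sum hcard)
    have := (card_le_card hsub).trans card_biUnion_le
    exact_mod_cast this
  rw [sum_const, Nat.card_Icc, nsmul_eq_mul, Nat.add_sub_cancel] at h1
  have h2 : (M : ℝ) * M ≤ x := by
    have := Nat.sqrt_le x
    exact_mod_cast this
  calc (S.card : ℝ) ≤ M * (39 * η * M) := h1
    _ = 39 * η * (M * M) := by ring
    _ ≤ 39 * η * x := by gcongr

theorem eP_sq (x z D0 J : ℕ) (η : ℝ) (hη : 0 < η) (hη1 : η ≤ 1) (hz : 10 ≤ z)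
    (hzη : 1 ≤ η * z) (hz3 : x ≤ z ^ 3) (hD : x ≤ D0 ^ 2) (hJ : x ≤ gr η J) (hηx : 1 ≤ η * x) :
    ∑ n ∈ Icc 1 x, (eP z D0 J η n) ^ 2 ≤ 40 * η * x := by
  classical
  have h1 : ∀ n ∈ Icc 1 x, (eP z D0 J η n) ^ 2 ≤
      (if n = 1 then 1 else 0) + (if BadPair z η n then 1 else 0) := by
    intro n hn
    rw [mem_Icc] at hn
    obtain ⟨h2, h3⟩ := eP_bad x z D0 J η hη hη1 hz hzη hz3 hD hJ n hn.1 hn.2
    by_cases h4 : eP z D0 J η n = 0
    · rw [h4]
      split_ifs <;> norm_num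
    · have h5 : (eP z D0 J η n) ^ 2 ≤ 1 := by
        rw [← sq_abs]
        exact pow_le_one₀ (abs_nonneg _) h2
      rcases h3 h4 with h | h
      · rw [if_pos h]
        split_ifs <;> linarith
      · rw [if_pos h]
        split_ifs <;> linarith
  refine (sum_le_sum h1).trans ?_
  rw [sum_add_distrib]
  have h2 : ∑ n ∈ Icc 1 x, (if n = 1 then (1 : ℝ) else 0) ≤ 1 := by
    rw [sum_ite_eq']
    split_ifs <;> norm_num
  have h3 : ∑ n ∈ Icc 1 x, (if BadPair z η n then (1 : ℝ) else 0) ≤ 39 * η * x := by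
    rw [← sum_filter, sum_const, nsmul_eq_mul, mul_one]
    refine badPair_count x z η hη _ fun n hn => ?_
    rw [mem_filter, mem_Icc] at hn
    exact ⟨hn.1.2, hn.2⟩
  linarith

end

end Pool.Agent.HLA
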