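import Pool.Agent.Work.GBM.C23
import Pool.Agent.Work.MP_92f640_nt.HLA.PrimeId

/-! # Module HLA.SupA: the minor arcs for the primes

`minor_P`: for weights of level `D0P x = ⌈√x⌉` and `z = zx (2/3) x`: `VV q y (FA q (aa cc z)) α ≤ x²/(q L^B)` for all
`y ≤ x`, when `|q α - b/s| ≤ 1/s²`, `≤ q/x`, `s > L^B₁`, `q s ≤ x/L^B₁`, `q ≤ x^(4/5)`.
`minor_Pf`: the same for the primes, by `eP`. -/

namespace Pool.Agent.HLA

open Finset Filter Pool.Agent.BV Pool.Agent.HL Pool.Agent.HS Pool.Agent.HN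
open Pool.Agent.HN.CtlMinorN

noncomputable section

/-- the level -/
def D0P (x : ℕ) : ℕ := ⌈(x : ℝ) ^ (1 / 2 : ℝ)⌉₊

theorem VV_triv (q y : ℕ) (hq : 1 ≤ q) (f : ℕ → ℝ) (α M : ℝ) (hM : ∑ n ∈ Icc 1 y, (f n) ^ 2 ≤ M) :
    VV q y (FA q f) α ≤ M * (y / q + 1) := by
  have hM0 : 0 ≤ M := (sum_nonneg fun _ _ => sq_nonneg _).trans hM
  refine VV_FA_le hq _ α _ (by positivity) ?_
  intro φ hφ
  refine CtlMinor.trivial_le hq hφ y α (fun n => ((f n : ℝ) : ℂ)) M ?_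
  refine le_trans (le_of_eq ?_) hM
  refine sum_congr rfl fun n _ => ?_
  rw [Complex.norm_real, Real.norm_eq_abs, sq_abs]

theorem VV_gt (q y g : ℕ) (f : ℕ → ℝ) (α : ℝ) :
    VV q y (FA q (fun n => if g < n then f n else 0)) α ≤
      2 * VV q y (FA q f) α + 2 * VV q (min y g) (FA q f) α := by
  unfold VV
  rw [mul_sum, mul_sum, ← sum_add_distrib]
  refine sum_le_sum fun a _ => ?_
  have h1 : ∑ n ∈ (Icc 1 y).filter (fun n => n % q = a),
      FA q (fun n => if g < n then f n else 0) n * e (n * α) =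
      ∑ n ∈ (Icc 1 y).filter (fun n => n % q = a), FA q f n * e (n * α) -
      ∑ n ∈ (Icc 1 (min y g)).filter (fun n => n % q = a), FA q f n * e (n * α) := by
    have hsub : (Icc 1 (min y g)).filter (fun n => n % q = a) =
        ((Icc 1 y).filter (fun n => n % q = a)).filter (fun n => n ≤ g) := by
      ext n
      simp only [mem_filter, mem_Icc, le_min_iff]
      tauto
    rw [hsub, sum_filter (p := fun n => n ≤ g), ← sum_sub_distrib]
    refine sum_congr rfl fun n hn => ?_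
    by_cases h : n ≤ g
    · rw [if_pos h, sub_self]
      simp only [FA, if_neg (show ¬ g < n by omega)]
      split_ifs <;> simp
    · rw [if_neg h, sub_zero]
      simp only [FA, if_pos (show g < n by omega)]
  rw [h1]
  exact SupFaux.norm_sub_sq_le _ _

theorem minor_P (κ : ℝ) (hκ : 0 < κ) (hκ1 : κ ≤ 1 / 100) (B'' : ℕ) :
    ∃ B₀ : ℕ, B'' + 5 ≤ B₀ ∧ ∀ B₁ : ℕ, B₀ ≤ B₁ → ∃ x₁ : ℕ, ∀ x : ℕ, x₁ ≤ x →
    ∀ q s : ℕ, 1 ≤ q → (q : ℝ) ≤ (x : ℝ) ^ (4 / 5 : ℝ) → 1 ≤ s → (Real.log x) ^ B₁ < s →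
    (q : ℝ) * s ≤ x / (Real.log x) ^ B₁ → ∀ (b : ℤ) (α : ℝ), IsCoprime b (s : ℤ) →
    |(q : ℝ) * α - b / s| ≤ 1 / (s : ℝ) ^ 2 → |(q : ℝ) * α - b / s| ≤ (q : ℝ) / x →
    ∀ cc : ℕ → ℝ, Wt (zx (2 / 3) x) (D0P x) cc → ∀ y ≤ x,
    VV q y (FA q (aa cc (zx (2 / 3) x))) α ≤ (x : ℝ) ^ 2 / (q * (Real.log x) ^ B'') := by
  have hθ : (1 : ℝ) / 2 ≤ 2 / 3 := by norm_num
  have hθ1 : (2 : ℝ) / 3 < 1 := by norm_num
  have hκ8 : κ ≤ 1 / 8 := by linarith
  obtain ⟨Cm, cm, hCm, hmin⟩ := ctl_minorN (1 / 5) (by norm_num)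
  obtain ⟨Bp, xa, hxa⟩ := aa_ctl (2 / 3) κ hθ hθ1 hκ hκ8 (cm + B'' + 2)
  set e₀ : ℕ := 2 * Bp + 4 + cm + B'' + 3 with he₀
  set e1 : ℕ := 2 * Bp + 4 + 4 * e₀ + cm + B'' + 3 with he1
  refine ⟨4 * e1, by omega, fun B₁ hB₁ => ?_⟩
  have hev : ∀ᶠ x : ℕ in atTop, ∀ q s : ℕ, 1 ≤ q → (q : ℝ) ≤ (x : ℝ) ^ (4 / 5 : ℝ) → 1 ≤ s →
      (Real.log x) ^ B₁ < s →
      (q : ℝ) * s ≤ x / (Real.log x) ^ B₁ → ∀ (b : ℤ) (α : ℝ), IsCoprime b (s : ℤ) →
      |(q : ℝ) * α - b / s| ≤ 1 / (s : ℝ) ^ 2 → |(q : ℝ) * α - b / s| ≤ (q : ℝ) / x →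
      ∀ cc : ℕ → ℝ, Wt (zx (2 / 3) x) (D0P x) cc → ∀ y ≤ x,
      VV q y (FA q (aa cc (zx (2 / 3) x))) α ≤ (x : ℝ) ^ 2 / (q * (Real.log x) ^ B'') := by
    filter_upwards [eventually_ge_atTop xa, eventually_ge_atTop 24, evt_log 1000,
      evt_log (800 * Cm), evt_pow 2 (2 * e₀ + e1) κ hκ, evt_pow 8 0 (1 / 8) (by norm_num),
      evt_pow 2 (2 * e₀) (1 / 5) (by norm_num), evt_pow 4 e1 (1 / 2) (by norm_num),
      evt_pow 64 e1 (1 / 10) (by norm_num)]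
      with x hxxa hx24 hL1000 hLCm hp2 hp5 hp6 hp7 hp8
    intro q s hq hqx hs1 hsL hqsB₁ b α hbs hα2 hα3 cc hcc y hyx
    set X : ℝ := (x : ℝ) with hX
    set L : ℝ := Real.log X with hL
    have hx3 : 3 ≤ x := by omega
    have hX24 : (24 : ℝ) ≤ X := by rw [hX]; exact_mod_cast hx24
    have toN : ∀ n : ℕ, (n : ℝ) ≤ X → n ≤ x := fun n h => by
      rw [hX] at h; exact_mod_cast h
    have hX0 : 0 < X := by linarith
    have hX1 : 1 ≤ X := by linarith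
    have hL0 : 0 < L := by linarith
    have hL1 : 1 ≤ L := by linarith
    have hqR : (1 : ℝ) ≤ q := by exact_mod_cast hq
    have hq0 : (0 : ℝ) < q := by linarith
    have hsR : (1 : ℝ) ≤ s := by exact_mod_cast hs1
    have hs0 : (0 : ℝ) < s := by linarith
    rw [pow_zero, mul_one] at hp5
    have mono : ∀ a b : ℝ, a ≤ b → X ^ a ≤ X ^ b := fun a b h =>
      Real.rpow_le_rpow_of_exponent_le hX1 h
    have hqX : (q : ℝ) ≤ X := by
      calc (q : ℝ) ≤ X ^ (4 / 5 : ℝ) := hqx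
        _ ≤ X ^ (1 : ℝ) := mono _ _ (by norm_num)
        _ = X := Real.rpow_one X
    have hXq : X ^ (1 / 5 : ℝ) ≤ X / q := by
      rw [le_div_iff₀ hq0]
      calc X ^ (1 / 5 : ℝ) * q ≤ X ^ (1 / 5 : ℝ) * X ^ (4 / 5 : ℝ) := by gcongr
        _ = X := by rw [← Real.rpow_add hX0]; norm_num
    have hLB₁ : 1 ≤ L ^ B₁ := one_le_pow₀ hL1
    -- sizes
    obtain ⟨hw1, hw2, hz1, hz2, -⟩ := SupFaux.sizes (2 / 3) κ x hθ hθ1 hκ (by linarith) (by omega)
    rw [← hX] at hw1 hw2 hz1 hz2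
    rw [show (1 : ℝ) - 2 / 3 = 1 / 3 by norm_num] at hz1 hz2
    set w : ℕ := wk κ x with hw
    set z : ℕ := zx (2 / 3) x with hz
    set D0 : ℕ := D0P x with hD0
    have hD1 : (D0 : ℝ) ≤ 2 * X ^ (1 / 2 : ℝ) := by
      have h1 : 1 ≤ X ^ (1 / 2 : ℝ) := Real.one_le_rpow hX1 (by norm_num)
      have h2 := Nat.ceil_lt_add_one (show 0 ≤ X ^ (1 / 2 : ℝ) by linarith)
      have h3 : (D0 : ℝ) < X ^ (1 / 2 : ℝ) + 1 := h2
      linarith
    set D : ℕ := w ^ 2 * D0 with hD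
    set w₂ : ℕ := w * z with hw₂
    have hXκ : 0 < X ^ κ := by positivity
    have hw0 : (0 : ℝ) < w := hXκ.trans_le hw1
    have hz0 : (0 : ℝ) < z := lt_of_lt_of_le (by positivity) hz1
    have hw₂R : (w₂ : ℝ) ≤ 4 * X ^ (κ + 1 / 3) := by
      calc (w₂ : ℝ) = w * z := by rw [hw₂]; push_cast; ring
        _ ≤ (2 * X ^ κ) * (2 * X ^ (1 / 3 : ℝ)) := by gcongr
        _ = 4 * (X ^ κ * X ^ (1 / 3 : ℝ)) := by ring
        _ = 4 * X ^ (κ + 1 / 3) := by rw [← Real.rpow_add hX0]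
    have hDR : (D : ℝ) ≤ 8 * X ^ (2 * κ + 1 / 2) := by
      calc (D : ℝ) = (w : ℝ) ^ 2 * D0 := by rw [hD]; push_cast; ring
        _ ≤ (2 * X ^ κ) ^ 2 * (2 * X ^ (1 / 2 : ℝ)) := by gcongr
        _ = 8 * ((X ^ κ) ^ 2 * X ^ (1 / 2 : ℝ)) := by ring
        _ = 8 * X ^ (2 * κ + 1 / 2) := by
            rw [← Real.rpow_natCast (X ^ κ) 2, ← Real.rpow_mul hX0.le, ← Real.rpow_add hX0]
            congr 2
            push_cast
            ring
    have hD2 : (D : ℝ) ^ 2 ≤ 64 * X ^ (4 * κ + 1) := by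
      calc (D : ℝ) ^ 2 ≤ (8 * X ^ (2 * κ + 1 / 2)) ^ 2 := by gcongr
        _ = 64 * (X ^ (2 * κ + 1 / 2)) ^ 2 := by ring
        _ = 64 * X ^ (4 * κ + 1) := by
            rw [← Real.rpow_natCast (X ^ (2 * κ + 1 / 2)) 2, ← Real.rpow_mul hX0.le]
            congr 2
            push_cast
            ring
    have hDX : (D : ℝ) ≤ X := by
      calc (D : ℝ) ≤ 8 * X ^ (2 * κ + 1 / 2) := hDR
        _ ≤ X ^ (1 / 8 : ℝ) * X ^ (7 / 8 : ℝ) :=
            mul_le_mul hp5 (mono _ _ (by linarith)) (by positivity) (by positivity)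
        _ = X := by rw [← Real.rpow_add hX0]; norm_num
    have hDx : D ≤ x := toN _ hDX
    have hw₂X2 : (w₂ : ℝ) ≤ X ^ (1 / 2 : ℝ) := by
      calc (w₂ : ℝ) ≤ 4 * X ^ (κ + 1 / 3) := hw₂R
        _ ≤ X ^ (1 / 8 : ℝ) * X ^ (3 / 8 : ℝ) :=
            mul_le_mul (by linarith) (mono _ _ (by linarith)) (by positivity) (by positivity)
        _ = X ^ (1 / 2 : ℝ) := by rw [← Real.rpow_add hX0]; norm_num
    have hw₂X : (w₂ : ℝ) ≤ X := by
      calc (w₂ : ℝ) ≤ X ^ (1 / 2 : ℝ) := hw₂X2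
        _ ≤ X ^ (1 : ℝ) := mono _ _ (by norm_num)
        _ = X := Real.rpow_one X
    have hw₂x : w₂ ≤ x := toN _ hw₂X
    have hw1n : 1 ≤ w := by
      have : (0 : ℝ) < w := hw0
      have : 0 < w := by exact_mod_cast this
      omega
    have hz1n : 1 ≤ z := by
      have : 0 < z := by exact_mod_cast hz0
      omega
    have hww₂ : w ≤ w₂ := by
      rw [hw₂]
      exact Nat.le_mul_of_pos_right _ (by omega)
    have hJle : ∀ b : ℕ, (JJ x b : ℝ) ≤ 3 * L ^ (b + 1) := by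
      intro b
      have h1 : 1 ≤ L ^ (b + 1) := one_le_pow₀ hL1
      have h2 := Nat.ceil_lt_add_one (show 0 ≤ 2 * L ^ (b + 1) by positivity)
      unfold JJ
      rw [← hX, ← hL]
      linarith
    obtain ⟨Bf, β, err, hctl, herr⟩ := hxa x hxxa D0 cc hcc
    have hLe1 : L ^ e1 ≤ L ^ B₁ := pow_le_pow_right₀ hL1 (by omega)
    by_cases hqsy : q * s ≤ y
    · have hs1000 : (1000 : ℝ) ≤ s := by
        have h1 : (1000 : ℝ) ≤ L ^ B₁ := by
          calc (1000 : ℝ) ≤ L ^ 1 := by rw [pow_one]; exact hL1000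
            _ ≤ L ^ B₁ := pow_le_pow_right₀ hL1 (by omega)
        linarith
      have hy3 : 3 ≤ y := by
        have h1 : 1000 ≤ s := by exact_mod_cast hs1000
        have h2 : s ≤ q * s := Nat.le_mul_of_pos_left _ hq
        omega
      have hτ1 : 1 / (s : ℝ) ≤ 1 / L ^ e1 :=
        div_le_div_of_nonneg_left zero_le_one (by positivity) (hLe1.trans hsL.le)
      have hτ2 : (q : ℝ) * s / X ≤ 1 / L ^ e1 := by
        rw [div_le_iff₀ hX0]
        calc (q : ℝ) * s ≤ X / L ^ B₁ := hqsB₁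
          _ ≤ X / L ^ e1 := by gcongr
          _ = 1 / L ^ e1 * X := by ring
      have hτ3 : (q : ℝ) * (D : ℝ) ^ 2 / X ^ 2 ≤ 1 / L ^ e1 := by
        rw [div_le_div_iff₀ (by positivity) (by positivity), one_mul]
        calc (q : ℝ) * (D : ℝ) ^ 2 * L ^ e1
            ≤ X ^ (4 / 5 : ℝ) * (64 * X ^ (4 * κ + 1)) * L ^ e1 := by gcongr
          _ = (64 * L ^ e1) * (X ^ (4 / 5 : ℝ) * X ^ (4 * κ + 1)) := by ring
          _ ≤ X ^ (1 / 10 : ℝ) * (X ^ (4 / 5 : ℝ) * X ^ (4 * κ + 1)) := by gcongr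
          _ = X ^ (19 / 10 + 4 * κ) := by
              rw [← Real.rpow_add hX0, ← Real.rpow_add hX0]
              congr 1
              ring
          _ ≤ X ^ (2 : ℝ) := mono _ _ (by linarith)
          _ = X ^ 2 := by rw [← Real.rpow_natCast]; norm_num
      have hτ4 : 1 / (w : ℝ) ≤ 1 / L ^ e1 := by
        refine div_le_div_of_nonneg_left zero_le_one (by positivity) ?_
        refine le_trans ?_ (hp2.trans hw1)
        have h1 : L ^ e1 ≤ L ^ (2 * e₀ + e1) := pow_le_pow_right₀ hL1 (by omega)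
        have h0 : 0 ≤ L ^ (2 * e₀ + e1) := by positivity
        linarith
      have hτ5 : (w₂ : ℝ) / X ≤ 1 / L ^ e1 := by
        rw [div_le_div_iff₀ hX0 (by positivity), one_mul]
        calc (w₂ : ℝ) * L ^ e1 ≤ X ^ (1 / 2 : ℝ) * (4 * L ^ e1) := by
              have h0 : 0 ≤ L ^ e1 := by positivity
              exact mul_le_mul hw₂X2 (by linarith) h0 (by positivity)
          _ ≤ X ^ (1 / 2 : ℝ) * X ^ (1 / 2 : ℝ) := by gcongr
          _ = X := by rw [← Real.rpow_add hX0]; norm_num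
      have hτ6 : 1 / (s : ℝ) ^ (1 / 4 : ℝ) ≤ 1 / L ^ e1 := by
        refine div_le_div_of_nonneg_left zero_le_one (by positivity) ?_
        have h0 : L ^ (4 * e1) ≤ s := (pow_le_pow_right₀ hL1 hB₁).trans hsL.le
        have h1 : (L ^ (4 * e1)) ^ (1 / 4 : ℝ) ≤ (s : ℝ) ^ (1 / 4 : ℝ) :=
          Real.rpow_le_rpow (by positivity) h0 (by norm_num)
        refine le_trans (le_of_eq ?_) h1
        rw [mul_comm 4 e1, pow_mul, ← Real.rpow_natCast (L ^ e1) 4, ← Real.rpow_mul (by positivity)]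
        norm_num
      have hη0 : 0 < 1 / L ^ (2 * e₀) := by positivity
      have hη1 : 1 / L ^ (2 * e₀) ≤ 1 := by
        rw [div_le_one (by positivity)]
        exact one_le_pow₀ hL1
      have hηw : 2 ≤ 1 / L ^ (2 * e₀) * (w : ℝ) := by
        rw [one_div, ← div_eq_inv_mul, le_div_iff₀ (by positivity)]
        refine le_trans ?_ (hp2.trans hw1)
        have : L ^ (2 * e₀) ≤ L ^ (2 * e₀ + e1) := pow_le_pow_right₀ hL1 (by omega)
        linarith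
      have hηq : (q : ℝ) ≤ 1 / L ^ (2 * e₀) * X := by
        have h1 : L ^ (2 * e₀) ≤ X / q := by
          refine le_trans ?_ (hp6.trans hXq)
          have h0 : 0 ≤ L ^ (2 * e₀) := by positivity
          linarith
        rw [le_div_iff₀ hq0] at h1
        rw [one_div, ← div_eq_inv_mul, le_div_iff₀ (by positivity)]
        linarith
      have h1 := hmin x y q s D w w₂ (JJ x Bp) (AJ (y0 x) z w (1 / L ^ Bp)) Bf β err (aa cc z)
        (X / L ^ (cm + B'' + 2)) α (1 / L ^ (2 * e₀)) b hctl herr hy3 hyx hq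
        (by rw [← hX, show (1 : ℝ) - 1 / 5 = 4 / 5 by norm_num]; exact hqx) hw1n hww₂ hw₂x hDx
        hs1 hqsy hbs hα2 hα3 hη0 hη1 hηw hηq
      have h2 : VV q y (FA q (aa cc z)) α ≤ 1 / 16 * (X ^ 2 / (q * L ^ B'')) := by
        refine h1.trans ?_
        rw [← hX, ← hL]
        exact SupNaux.minor_arithN B'' cm Bp e₀ e1 (cm + B'' + 2) Cm X L q s D w w₂ (JJ x Bp)
          (X / L ^ (cm + B'' + 2)) (1 / L ^ (2 * e₀)) ((s : ℝ) ^ (1 / 4 : ℝ)) (1 / L ^ e1) hCm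
          hL1000 hLCm hX1 hqR hqX rfl he₀ he1 rfl rfl hτ1 hτ2 hτ3 hτ4 hτ5 hτ6
          (Nat.cast_nonneg _) (hJle Bp) rfl
      have h3 : 0 ≤ X ^ 2 / (q * L ^ B'') := by positivity
      linarith
    · push Not at hqsy
      have hz2n : 2 ≤ z := by
        have h1 : (2 : ℝ) ≤ z := by
          calc (2 : ℝ) ≤ 8 := by norm_num
            _ ≤ X ^ (1 / 8 : ℝ) := hp5
            _ ≤ X ^ (1 / 3 : ℝ) := mono _ _ (by norm_num)
            _ ≤ z := hz1
        exact_mod_cast h1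
      have hzK : x < z ^ 4 := by
        have h1 : X < (z : ℝ) ^ 4 := by
          calc X = X ^ (1 : ℝ) := (Real.rpow_one X).symm
            _ < X ^ (4 / 3 : ℝ) := Real.rpow_lt_rpow_of_exponent_lt (by linarith) (by norm_num)
            _ = (X ^ (1 / 3 : ℝ)) ^ 4 := by
                rw [← Real.rpow_natCast (X ^ (1 / 3 : ℝ)) 4, ← Real.rpow_mul hX0.le]
                norm_num
            _ ≤ (z : ℝ) ^ 4 := by gcongr
        rw [hX] at h1
        exact_mod_cast h1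
      have hFabs : ∀ n, n ≤ x → |aa cc z n| ≤ (2 : ℝ) ^ 4 := fun n hn =>
        aa_abs x z D0 4 cc hcc hz2n hzK n hn
      have h1 : ∑ n ∈ Icc 1 y, (aa cc z n) ^ 2 ≤ 256 * y := by
        calc ∑ n ∈ Icc 1 y, (aa cc z n) ^ 2 ≤ ∑ _n ∈ Icc 1 y, (256 : ℝ) := by
              refine sum_le_sum fun n hn => ?_
              have h2 := hFabs n ((mem_Icc.1 hn).2.trans hyx)
              rw [← sq_abs]
              nlinarith [abs_nonneg (aa cc z n)]
          _ = 256 * y := by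
              rw [sum_const, Nat.card_Icc, nsmul_eq_mul]
              push_cast [Nat.add_sub_cancel]
              ring
      have h2 := VV_triv q y hq (aa cc z) α _ h1
      refine h2.trans ?_
      have hyqs : (y : ℝ) ≤ q * s := by exact_mod_cast hqsy.le
      have h3 : (y : ℝ) / q + 1 ≤ 2 * s := by
        have : (y : ℝ) / q ≤ s := by
          rw [div_le_iff₀ hq0]
          linarith
        linarith
      calc 256 * (y : ℝ) * ((y : ℝ) / q + 1) ≤ 256 * (q * s) * (2 * s) := by gcongr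
        _ = 512 * ((q * s) * (q * s)) / q := by field_simp; ring
        _ ≤ 512 * ((X / L ^ B₁) * (X / L ^ B₁)) / q := by gcongr
        _ = 512 * (X ^ 2 / (q * (L ^ B₁ * L ^ B₁))) := by field_simp
        _ ≤ L * (X ^ 2 / (q * (L * L ^ B''))) := by
            have h4 : L * L ^ B'' ≤ L ^ B₁ * L ^ B₁ := by
              rw [← pow_succ', ← pow_add]
              exact pow_le_pow_right₀ hL1 (by omega)
            gcongr
            linarith
        _ = X ^ 2 / (q * L ^ B'') := by field_simp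
  obtain ⟨x₀, hx₀⟩ := eventually_atTop.1 hev
  exact ⟨x₀, hx₀⟩

/-- the decomposition of the primes -/
theorem Pf_eq (z D0 J : ℕ) (η : ℝ) (n : ℕ) :
    Pf z n = aa cc0 z n + ∑ i ∈ range J, (-(if (gr η i) ^ 2 < n then aa (cci z D0 η i) z n else 0)) +
      eP z D0 J η n := by
  unfold eP
  rw [sum_neg_distrib]
  ring

theorem FA_neg' (q : ℕ) (f : ℕ → ℝ) (n : ℕ) : FA q (fun n => -f n) n = -FA q f n := by
  unfold FA
  split_ifs <;> simp

theorem FA_Pf (z D0 J q : ℕ) (η : ℝ) (n : ℕ) :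
    FA q (Pf z) n = FA q (aa cc0 z) n +
      ∑ i ∈ range J, FA q (fun n => -(if (gr η i) ^ 2 < n then aa (cci z D0 η i) z n else 0)) n +
      FA q (eP z D0 J η) n := by
  unfold FA
  split_ifs
  · rw [Pf_eq z D0 J η n]
    push_cast
    rfl
  · simp

theorem VV_neg (q y : ℕ) (f : ℕ → ℝ) (α : ℝ) :
    VV q y (FA q (fun n => -f n)) α = VV q y (FA q f) α := by
  unfold VV
  refine sum_congr rfl fun a _ => ?_
  rw [← norm_neg]
  congr 2
  rw [← sum_neg_distrib]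
  refine sum_congr rfl fun n _ => ?_
  rw [FA_neg']
  ring

/-- the sizes for the identity -/
theorem sizesP (b : ℕ) : ∀ᶠ x : ℕ in atTop, 10 ≤ zx (2 / 3) x ∧
    1 ≤ 1 / (Real.log x) ^ b * (zx (2 / 3) x : ℝ) ∧ x ≤ (zx (2 / 3) x) ^ 3 ∧ x ≤ (D0P x) ^ 2 ∧
    x ≤ gr (1 / (Real.log x) ^ b) (JJ x b) ∧ 1 ≤ 1 / (Real.log x) ^ b * (x : ℝ) ∧
    0 < 1 / (Real.log x) ^ b ∧ 1 / (Real.log x) ^ b ≤ 1 ∧
    (JJ x b : ℝ) ≤ 3 * (Real.log x) ^ (b + 1) ∧ 1 ≤ D0P x := by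
  filter_upwards [eventually_ge_atTop 3, evt_log 1000, evt_pow 10 b (1 / 3) (by norm_num)] with
    x hx3 hL1000 hp
  set X : ℝ := (x : ℝ) with hX
  set L : ℝ := Real.log X with hL
  have hL0 : 0 < L := by linarith
  have hL1 : 1 ≤ L := by linarith
  have hX3 : (3 : ℝ) ≤ X := by rw [hX]; exact_mod_cast hx3
  have hX0 : 0 < X := by linarith
  have hX1 : 1 ≤ X := by linarith
  have hLb : 1 ≤ L ^ b := one_le_pow₀ hL1
  have hz1 : X ^ (1 / 3 : ℝ) ≤ zx (2 / 3) x := by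
    have h1 : X ^ (1 - 2 / 3 : ℝ) ≤ zx (2 / 3) x := Nat.le_ceil _
    rwa [show (1 : ℝ) - 2 / 3 = 1 / 3 by norm_num] at h1
  have hD : X ^ (1 / 2 : ℝ) ≤ D0P x := Nat.le_ceil _
  refine ⟨?_, ?_, ?_, ?_, CtlA.gr_JJ b x hx3, ?_, by positivity, ?_, ?_, ?_⟩
  · have h1 : (10 : ℝ) ≤ zx (2 / 3) x := by
      calc (10 : ℝ) ≤ 10 * L ^ b := by linarith
        _ ≤ _ := hp.trans hz1
    exact_mod_cast h1
  · rw [one_div, ← div_eq_inv_mul, le_div_iff₀ (by positivity), one_mul]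
    refine le_trans ?_ (hp.trans hz1)
    linarith
  · have h1 : X ≤ (zx (2 / 3) x : ℝ) ^ 3 := by
      calc X = (X ^ (1 / 3 : ℝ)) ^ 3 := by
            rw [← Real.rpow_natCast (X ^ (1 / 3 : ℝ)) 3, ← Real.rpow_mul hX0.le]
            norm_num
        _ ≤ _ := by gcongr
    rw [hX] at h1
    exact_mod_cast h1
  · have h1 : X ≤ (D0P x : ℝ) ^ 2 := by
      calc X = (X ^ (1 / 2 : ℝ)) ^ 2 := by
            rw [← Real.rpow_natCast (X ^ (1 / 2 : ℝ)) 2, ← Real.rpow_mul hX0.le]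
            norm_num
        _ ≤ _ := by gcongr
    rw [hX] at h1
    exact_mod_cast h1
  · rw [one_div, ← div_eq_inv_mul, le_div_iff₀ (by positivity), one_mul]
    have h1 : X ^ (1 / 3 : ℝ) ≤ X := by
      calc X ^ (1 / 3 : ℝ) ≤ X ^ (1 : ℝ) := Real.rpow_le_rpow_of_exponent_le hX1 (by norm_num)
        _ = X := Real.rpow_one X
    linarith
  · rw [div_le_one (by positivity)]
    exact hLb
  · have h1 : 1 ≤ L ^ (b + 1) := one_le_pow₀ hL1
    have h2 := Nat.ceil_lt_add_one (show 0 ≤ 2 * L ^ (b + 1) by positivity)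
    unfold JJ
    rw [← hX, ← hL]
    linarith
  · have h1 : 1 ≤ X ^ (1 / 2 : ℝ) := Real.one_le_rpow hX1 (by norm_num)
    have h2 : (1 : ℝ) ≤ D0P x := h1.trans hD
    exact_mod_cast h2

theorem minor_Pf (κ : ℝ) (hκ : 0 < κ) (hκ1 : κ ≤ 1 / 100) (B : ℕ) :
    ∃ B₀ : ℕ, B + 5 ≤ B₀ ∧ ∀ B₁ : ℕ, B₀ ≤ B₁ → ∃ x₁ : ℕ, ∀ x : ℕ, x₁ ≤ x →
    ∀ q s : ℕ, 1 ≤ q → (q : ℝ) ≤ (x : ℝ) ^ (4 / 5 : ℝ) → 1 ≤ s → (Real.log x) ^ B₁ < s →
    (q : ℝ) * s ≤ x / (Real.log x) ^ B₁ → ∀ (b : ℤ) (α : ℝ), IsCoprime b (s : ℤ) →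
    |(q : ℝ) * α - b / s| ≤ 1 / (s : ℝ) ^ 2 → |(q : ℝ) * α - b / s| ≤ (q : ℝ) / x →
    ∀ y ≤ x, VV q y (FA q (Pf (zx (2 / 3) x))) α ≤ 1 / 4 * ((x : ℝ) ^ 2 / (q * (Real.log x) ^ B)) := by
  set b₁ : ℕ := B + 2 with hb₁
  set Bm : ℕ := 2 * b₁ + 2 + B + 1 with hBm
  obtain ⟨B₀, hB₀, h⟩ := minor_P κ hκ hκ1 Bm
  refine ⟨B₀, by omega, fun B₁ hB₁ => ?_⟩
  obtain ⟨x₁, hx₁⟩ := h B₁ hB₁
  have hev := (sizesP b₁).and ((evt_log 1000).and ((eventually_ge_atTop x₁).and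
    (eventually_ge_atTop 3)))
  obtain ⟨x₂, hx₂⟩ := eventually_atTop.1 hev
  refine ⟨x₂, fun x hx q s hq hqx hs hsL hqs b α hbs hα1 hα2 y hyx => ?_⟩
  obtain ⟨⟨hz10, hzη, hz3, hD, hJ, hηx, hη0, hη1, hJle, hD1⟩, hL1000, hxx, hx3⟩ := hx₂ x hx
  have hmin := hx₁ x hxx q s hq hqx hs hsL hqs b α hbs hα1 hα2
  set X : ℝ := (x : ℝ) with hX
  set L : ℝ := Real.log X with hL
  set z : ℕ := zx (2 / 3) x with hz
  set D0 : ℕ := D0P x with hD0
  set η : ℝ := 1 / L ^ b₁ with hη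
  set J : ℕ := JJ x b₁ with hJd
  have hL0 : 0 < L := by linarith
  have hL1 : 1 ≤ L := by linarith
  have hX3 : (3 : ℝ) ≤ X := by rw [hX]; exact_mod_cast hx3
  have hX0 : 0 < X := by linarith
  have hX1 : 1 ≤ X := by linarith
  have hqR : (1 : ℝ) ≤ q := by exact_mod_cast hq
  have hq0 : (0 : ℝ) < q := by linarith
  have hqX : (q : ℝ) ≤ X := by
    calc (q : ℝ) ≤ X ^ (4 / 5 : ℝ) := hqx
      _ ≤ X ^ (1 : ℝ) := Real.rpow_le_rpow_of_exponent_le hX1 (by norm_num)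
      _ = X := Real.rpow_one X
  have hz0 : (0 : ℝ) < z := by
    have : (10 : ℝ) ≤ z := by exact_mod_cast hz10
    linarith
  set W : ℝ := X ^ 2 / (q * L ^ Bm) with hW
  have hW0 : 0 ≤ W := by positivity
  have h1 : VV q y (FA q (Pf z)) α ≤ 3 * (VV q y (FA q (aa cc0 z)) α +
      VV q y (fun n => ∑ i ∈ range J,
        FA q (fun n => -(if (gr η i) ^ 2 < n then aa (cci z D0 η i) z n else 0)) n) α +
      VV q y (FA q (eP z D0 J η)) α) := by
    rw [VV_congr α (fun n _ _ => FA_Pf z D0 J q η n)]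
    exact VV_add3 q y _ _ _ α
  have h2 : VV q y (FA q (aa cc0 z)) α ≤ W := hmin cc0 (wt0 z D0 hD1) y hyx
  have h3 : VV q y (fun n => ∑ i ∈ range J,
        FA q (fun n => -(if (gr η i) ^ 2 < n then aa (cci z D0 η i) z n else 0)) n) α ≤
      (J : ℝ) ^ 2 * (4 * W) := by
    refine (VV_sum q y J (fun i => FA q (fun n => -(if (gr η i) ^ 2 < n then
      aa (cci z D0 η i) z n else 0))) α).trans ?_
    calc (J : ℝ) * ∑ i ∈ range J, VV q y (FA q (fun n => -(if (gr η i) ^ 2 < n then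
          aa (cci z D0 η i) z n else 0))) α ≤ J * ∑ _i ∈ range J, 4 * W := by
          refine mul_le_mul_of_nonneg_left (sum_le_sum fun i _ => ?_) (Nat.cast_nonneg _)
          rw [VV_neg]
          refine (VV_gt q y ((gr η i) ^ 2) (aa (cci z D0 η i) z) α).trans ?_
          have e1 := hmin (cci z D0 η i) (wti z D0 η i) y hyx
          have e2 := hmin (cci z D0 η i) (wti z D0 η i) (min y ((gr η i) ^ 2))
            ((min_le_left _ _).trans hyx)
          linarith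
      _ = _ := by
          rw [sum_const, card_range, nsmul_eq_mul]
          ring
  have h4 : VV q y (FA q (eP z D0 J η)) α ≤ 80 * η * X ^ 2 / q := by
    have e1 := eP_sq x z D0 J η hη0 hη1 hz10 hzη hz3 hD hJ hηx
    have e2 : ∑ n ∈ Icc 1 y, (eP z D0 J η n) ^ 2 ≤ 40 * η * x :=
      le_trans (sum_le_sum_of_subset_of_nonneg (Icc_subset_Icc_right hyx)
        (fun _ _ _ => sq_nonneg _)) e1
    have e3 := VV_triv q y hq (eP z D0 J η) α _ e2
    refine e3.trans ?_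
    have e4 : (y : ℝ) / q + 1 ≤ 2 * (X / q) := by
      have hyX : (y : ℝ) ≤ X := by rw [hX]; exact_mod_cast hyx
      have e5 : (y : ℝ) / q ≤ X / q := by gcongr
      have e6 : 1 ≤ X / q := by rw [le_div_iff₀ hq0]; linarith
      linarith
    calc 40 * η * x * ((y : ℝ) / q + 1) ≤ 40 * η * x * (2 * (X / q)) := by gcongr
      _ = 80 * η * X ^ 2 / q := by rw [← hX]; ring
  have h5 : (J : ℝ) ^ 2 * (4 * W) ≤ 36 * (X ^ 2 / (q * L ^ (B + 1))) := by
    have hJ2 : (J : ℝ) ^ 2 ≤ 9 * L ^ (2 * b₁ + 2) := by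
      calc (J : ℝ) ^ 2 ≤ (3 * L ^ (b₁ + 1)) ^ 2 := pow_le_pow_left₀ (Nat.cast_nonneg _) hJle 2
        _ = _ := by ring
    calc (J : ℝ) ^ 2 * (4 * W) ≤ 9 * L ^ (2 * b₁ + 2) * (4 * W) := by gcongr
      _ = 36 * (X ^ 2 / (q * L ^ (B + 1))) := by
          rw [hW, hBm, show 2 * b₁ + 2 + B + 1 = (2 * b₁ + 2) + (B + 1) by ring, pow_add L (2 * b₁ + 2)]
          field_simp
          norm_num
  set R : ℝ := X ^ 2 / (q * L ^ B) with hR
  have hR0 : 0 ≤ R := by positivity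
  have h6 : X ^ 2 / (q * L ^ (B + 1)) ≤ R / 1000 := by
    rw [hR, pow_succ L B, div_div]
    refine div_le_div_of_nonneg_left (by positivity) (by positivity) ?_
    rw [← mul_assoc]
    exact mul_le_mul_of_nonneg_left hL1000 (by positivity)
  have h7 : W ≤ R / 1000 := by
    refine le_trans ?_ h6
    rw [hW]
    refine div_le_div_of_nonneg_left (by positivity) (by positivity) ?_
    have : L ^ (B + 1) ≤ L ^ Bm := pow_le_pow_right₀ hL1 (by omega)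
    gcongr
  have h8 : 80 * η * X ^ 2 / q ≤ R * (80 / 1000000) := by
    rw [hη, hR, hb₁]
    have e1 : 80 * (1 / L ^ (B + 2)) * X ^ 2 / q = X ^ 2 / (q * L ^ B) * (80 / L ^ 2) := by
      rw [pow_add]
      field_simp
    rw [e1]
    have e2 : (1000000 : ℝ) ≤ L ^ 2 := by nlinarith
    gcongr
  linarith

end

end Pool.Agent.HLA
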