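import Pool.Agent.Work.MP_92f640_nt.HLA.SupA
import Pool.Agent.Work.MP_92f640_nt.HLA.LargeV2

/-! # Module HLA.SupB: the variance for the primes

`var_P`: for good `q ≤ x^(4/5 - ε)`, `s ≤ L^(B₁+1)`, weights of level `D0P x`: `∑_{χ ≠ 1 mod q s} |∑_{n ≤ y} aa cc z n χ n|² ≤ x²/L^E`.
`var_Pf`: the same for the primes. -/

namespace Pool.Agent.HLA

open Finset Filter Pool.Agent.BV Pool.Agent.HL Pool.Agent.HS Pool.Agent.HN

noncomputable section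

/-- the large value terms -/
theorem large_arith2 (X k w₂ ε R : ℝ) (hX : 1 ≤ X) (hε : 0 < ε) (hk0 : 0 ≤ k) (hw0 : 0 ≤ w₂)
    (hR : 0 < R) (hk : k ≤ X ^ (4 / 5 - 3 * ε / 4)) (hw : w₂ ≤ X ^ (2 / 5 : ℝ))
    (h3 : 3 * R ≤ X ^ (ε / 4)) :
    X ^ 2 / X ^ (ε / 4) + X ^ (ε / 4) * (w₂ ^ 2 * k * Real.sqrt k + k ^ 2 * Real.sqrt k) ≤
      X ^ 2 / R := by
  have hX0 : 0 < X := by linarith
  have mono : ∀ a b : ℝ, a ≤ b → X ^ a ≤ X ^ b := fun a b h =>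
    Real.rpow_le_rpow_of_exponent_le hX h
  have pw : ∀ (a : ℝ) (n : ℕ), (X ^ a) ^ n = X ^ (a * n) := fun a n => by
    rw [Real.rpow_mul hX0.le, Real.rpow_natCast]
  have hsk : Real.sqrt k ≤ X ^ (2 / 5 - 3 * ε / 8) := by
    refine (Real.sqrt_le_sqrt hk).trans_eq ?_
    rw [Real.sqrt_eq_rpow, ← Real.rpow_mul hX0.le]
    congr 1
    ring
  have hX2 : X ^ 2 = X ^ (2 : ℝ) := by rw [← Real.rpow_natCast]; norm_num
  have t1' : w₂ ^ 2 * k * Real.sqrt k ≤ X ^ (2 - ε / 2) := by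
    calc w₂ ^ 2 * k * Real.sqrt k
        ≤ (X ^ (2 / 5 : ℝ)) ^ 2 * X ^ (4 / 5 - 3 * ε / 4) * X ^ (2 / 5 - 3 * ε / 8) := by gcongr
      _ = X ^ (2 - 9 * ε / 8) := by
          rw [pw, ← Real.rpow_add hX0, ← Real.rpow_add hX0]
          congr 1
          push_cast
          ring
      _ ≤ _ := mono _ _ (by linarith)
  have t2' : k ^ 2 * Real.sqrt k ≤ X ^ (2 - ε / 2) := by
    calc k ^ 2 * Real.sqrt k
        ≤ (X ^ (4 / 5 - 3 * ε / 4)) ^ 2 * X ^ (2 / 5 - 3 * ε / 8) := by gcongr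
      _ = X ^ (2 - 15 * ε / 8) := by
          rw [pw, ← Real.rpow_add hX0]
          congr 1
          push_cast
          ring
      _ ≤ _ := mono _ _ (by linarith)
  have e1 : X ^ 2 / X ^ (ε / 4) = X ^ (2 - ε / 4) := by
    rw [hX2, ← Real.rpow_sub hX0]
  have e4 : X ^ (ε / 4) * (w₂ ^ 2 * k * Real.sqrt k + k ^ 2 * Real.sqrt k) ≤
      2 * X ^ (2 - ε / 4) := by
    calc X ^ (ε / 4) * (w₂ ^ 2 * k * Real.sqrt k + k ^ 2 * Real.sqrt k)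
        ≤ X ^ (ε / 4) * (X ^ (2 - ε / 2) + X ^ (2 - ε / 2)) := by gcongr
      _ = 2 * (X ^ (ε / 4) * X ^ (2 - ε / 2)) := by ring
      _ = 2 * X ^ (2 - ε / 4) := by
          rw [← Real.rpow_add hX0]
          congr 2
          ring
  calc _ ≤ X ^ (2 - ε / 4) + 2 * X ^ (2 - ε / 4) := by rw [e1]; gcongr
    _ = 3 * X ^ (2 - ε / 4) := by ring
    _ ≤ X ^ 2 / R := by
      rw [le_div_iff₀ hR]
      calc 3 * X ^ (2 - ε / 4) * R = X ^ (2 - ε / 4) * (3 * R) := by ring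
        _ ≤ X ^ (2 - ε / 4) * X ^ (ε / 4) := by gcongr
        _ = X ^ 2 := by
          rw [hX2, ← Real.rpow_add hX0]
          congr 1
          ring

theorem var_P (κ ε : ℝ) (hκ : 0 < κ) (hκ1 : κ ≤ 1 / 100) (hε : 0 < ε) (E : ℕ) :
    ∃ B' B9 : ℕ, ∀ A₁ B₁ : ℕ, ∃ x₁ : ℕ, ∀ x : ℕ, x₁ ≤ x →
    ∀ q : ℕ, 1 ≤ q → (q : ℝ) ≤ (x : ℝ) ^ (4 / 5 - ε) →
    GoodF x (wk κ x) (wk κ x * zx (2 / 3) x) (JJ x B') B9
      (AJ (y0 x) (zx (2 / 3) x) (wk κ x) (1 / (Real.log x) ^ B')) ((Real.log x) ^ A₁)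
      ((Real.log x) ^ (B₁ + 1)) q →
    ∀ s : ℕ, 1 ≤ s → (s : ℝ) ≤ (Real.log x) ^ (B₁ + 1) → ∀ [NeZero (q * s)],
    ∀ cc : ℕ → ℝ, Wt (zx (2 / 3) x) (D0P x) cc → ∀ y ≤ x,
    ∑ χ ∈ (univ : Finset (DirichletCharacter ℂ (q * s))).erase 1,
      ‖∑ n ∈ Icc 1 y, ((aa cc (zx (2 / 3) x) n : ℝ) : ℂ) * χ (n : ZMod (q * s))‖ ^ 2 ≤
      (x : ℝ) ^ 2 / (Real.log x) ^ E := by
  have hθ : (1 : ℝ) / 2 ≤ 2 / 3 := by norm_num
  have hθ1 : (2 : ℝ) / 3 < 1 := by norm_num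
  have hκ8 : κ ≤ 1 / 8 := by linarith
  obtain ⟨Cv, cv, hCv, hvar⟩ := ctl_var2
  obtain ⟨B', xb, hxb⟩ := aa_ctl (2 / 3) κ hθ hθ1 hκ hκ8 (E + cv + 1)
  set b₃ : ℕ := 2 * B' + 2 + E + cv + 1 with hb₃
  refine ⟨B', 3 * b₃, fun A₁ B₁ => ?_⟩
  obtain ⟨xc, hxc⟩ := goodF_all (2 / 3) κ hθ hθ1 hκ hκ8 B' A₁ (B₁ + 1) (3 * b₃)
  have hev : ∀ᶠ x : ℕ in atTop, ∀ q : ℕ, 1 ≤ q → (q : ℝ) ≤ (x : ℝ) ^ (4 / 5 - ε) →
      GoodF x (wk κ x) (wk κ x * zx (2 / 3) x) (JJ x B') (3 * b₃)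
        (AJ (y0 x) (zx (2 / 3) x) (wk κ x) (1 / (Real.log x) ^ B')) ((Real.log x) ^ A₁)
        ((Real.log x) ^ (B₁ + 1)) q →
      ∀ s : ℕ, 1 ≤ s → (s : ℝ) ≤ (Real.log x) ^ (B₁ + 1) → ∀ [NeZero (q * s)],
      ∀ cc : ℕ → ℝ, Wt (zx (2 / 3) x) (D0P x) cc → ∀ y ≤ x,
      ∑ χ ∈ (univ : Finset (DirichletCharacter ℂ (q * s))).erase 1,
        ‖∑ n ∈ Icc 1 y, ((aa cc (zx (2 / 3) x) n : ℝ) : ℂ) * χ (n : ZMod (q * s))‖ ^ 2 ≤
        (x : ℝ) ^ 2 / (Real.log x) ^ E := by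
    filter_upwards [eventually_ge_atTop xb, eventually_ge_atTop xc, eventually_ge_atTop 24,
      evt_log 1000, evt_log (66 * Cv), evt_pow 2 (2 * b₃) κ hκ, evt_pow 8 0 (1 / 8) (by norm_num),
      evt_pow 1 (B₁ + 1) (1 / 5) (by norm_num), evt_pow 1 (B₁ + 1) (ε / 4) (by linarith),
      evt_pow 65 (E + cv + 1) (1 / 10) (by norm_num), evt_pow 3 (5 * b₃) (ε / 4) (by linarith),
      evt_pow 4 0 (1 / 20) (by norm_num)]
      with x hxxb hxxc hx24 hL1000 hLCv hp2 hp5 hp1 hp3 hp4 hp11 hp12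
    intro q hq hqx hgood s hs1 hsL hne cc hcc y' hy'
    set X : ℝ := (x : ℝ) with hX
    set L : ℝ := Real.log X with hL
    have hx3 : 3 ≤ x := by omega
    have hX24 : (24 : ℝ) ≤ X := by rw [hX]; exact_mod_cast hx24
    have toN : ∀ n : ℕ, (n : ℝ) ≤ X → n ≤ x := fun n h => by
      rw [hX] at h; exact_mod_cast h
    have hX0 : 0 < X := by linarith
    have hX1 : 1 ≤ X := by linarith
    have hL0 : 0 < L := by linarith
    have hL1 : 1 ≤ L := by linarith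
    have hqR : (1 : ℝ) ≤ q := by exact_mod_cast hq
    have hq0 : (0 : ℝ) < q := by linarith
    have hsR : (1 : ℝ) ≤ s := by exact_mod_cast hs1
    rw [pow_zero, mul_one] at hp5 hp12
    rw [one_mul] at hp1 hp3
    have mono : ∀ a b : ℝ, a ≤ b → X ^ a ≤ X ^ b := fun a b h =>
      Real.rpow_le_rpow_of_exponent_le hX1 h
    have hqθ : (q : ℝ) ≤ X ^ (4 / 5 : ℝ) := hqx.trans (mono _ _ (by linarith))
    have hXq : X ^ (1 / 5 : ℝ) ≤ X / q := by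
      rw [le_div_iff₀ hq0]
      calc X ^ (1 / 5 : ℝ) * q ≤ X ^ (1 / 5 : ℝ) * X ^ (4 / 5 : ℝ) := by gcongr
        _ = X := by rw [← Real.rpow_add hX0]; norm_num
    have hqL : (q : ℝ) * L ^ (B₁ + 1) ≤ X := by
      have h1 : L ^ (B₁ + 1) ≤ X / q := hp1.trans hXq
      rw [le_div_iff₀ hq0] at h1
      linarith
    have hqsR : (q : ℝ) * s ≤ X := by
      refine le_trans ?_ hqL
      gcongr
    have hqs : q * s ≤ x := toN _ (by push_cast; exact hqsR)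
    have hkε : (q : ℝ) * s ≤ X ^ (4 / 5 - 3 * ε / 4) := by
      calc (q : ℝ) * s ≤ X ^ (4 / 5 - ε) * L ^ (B₁ + 1) := by gcongr
        _ ≤ X ^ (4 / 5 - ε) * X ^ (ε / 4) := by gcongr
        _ = X ^ (4 / 5 - 3 * ε / 4) := by
            rw [← Real.rpow_add hX0]
            congr 1
            ring
    -- sizes
    obtain ⟨hw1, hw2, hz1, hz2, -⟩ := SupFaux.sizes (2 / 3) κ x hθ hθ1 hκ (by linarith) (by omega)
    rw [← hX] at hw1 hw2 hz1 hz2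
    rw [show (1 : ℝ) - 2 / 3 = 1 / 3 by norm_num] at hz1 hz2
    set w : ℕ := wk κ x with hw
    set z : ℕ := zx (2 / 3) x with hz
    set D0 : ℕ := D0P x with hD0
    have hD1 : (D0 : ℝ) ≤ 2 * X ^ (1 / 2 : ℝ) := by
      have h1 : 1 ≤ X ^ (1 / 2 : ℝ) := Real.one_le_rpow hX1 (by norm_num)
      have h2 := Nat.ceil_lt_add_one (show 0 ≤ X ^ (1 / 2 : ℝ) by linarith)
      have h3 : (D0 : ℝ) < X ^ (1 / 2 : ℝ) + 1 := h2
      linarith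
    set D : ℕ := w ^ 2 * D0 with hD
    set w₂ : ℕ := w * z with hw₂
    have hXκ : 0 < X ^ κ := by positivity
    have hw0 : (0 : ℝ) < w := hXκ.trans_le hw1
    have hz0 : (0 : ℝ) < z := lt_of_lt_of_le (by positivity) hz1
    have hw₂R : (w₂ : ℝ) ≤ 4 * X ^ (κ + 1 / 3) := by
      calc (w₂ : ℝ) = w * z := by rw [hw₂]; push_cast; ring
        _ ≤ (2 * X ^ κ) * (2 * X ^ (1 / 3 : ℝ)) := by gcongr
        _ = 4 * (X ^ κ * X ^ (1 / 3 : ℝ)) := by ring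
        _ = 4 * X ^ (κ + 1 / 3) := by rw [← Real.rpow_add hX0]
    have hDR : (D : ℝ) ≤ 8 * X ^ (2 * κ + 1 / 2) := by
      calc (D : ℝ) = (w : ℝ) ^ 2 * D0 := by rw [hD]; push_cast; ring
        _ ≤ (2 * X ^ κ) ^ 2 * (2 * X ^ (1 / 2 : ℝ)) := by gcongr
        _ = 8 * ((X ^ κ) ^ 2 * X ^ (1 / 2 : ℝ)) := by ring
        _ = 8 * X ^ (2 * κ + 1 / 2) := by
            rw [← Real.rpow_natCast (X ^ κ) 2, ← Real.rpow_mul hX0.le, ← Real.rpow_add hX0]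
            congr 2
            push_cast
            ring
    have hD2 : (D : ℝ) ^ 2 ≤ 64 * X ^ (4 * κ + 1) := by
      calc (D : ℝ) ^ 2 ≤ (8 * X ^ (2 * κ + 1 / 2)) ^ 2 := by gcongr
        _ = 64 * (X ^ (2 * κ + 1 / 2)) ^ 2 := by ring
        _ = 64 * X ^ (4 * κ + 1) := by
            rw [← Real.rpow_natCast (X ^ (2 * κ + 1 / 2)) 2, ← Real.rpow_mul hX0.le]
            congr 2
            push_cast
            ring
    have hDX : (D : ℝ) ≤ X := by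
      calc (D : ℝ) ≤ 8 * X ^ (2 * κ + 1 / 2) := hDR
        _ ≤ X ^ (1 / 8 : ℝ) * X ^ (7 / 8 : ℝ) :=
            mul_le_mul hp5 (mono _ _ (by linarith)) (by positivity) (by positivity)
        _ = X := by rw [← Real.rpow_add hX0]; norm_num
    have hDx : D ≤ x := toN _ hDX
    have hw₂X2 : (w₂ : ℝ) ≤ X ^ (2 / 5 : ℝ) := by
      calc (w₂ : ℝ) ≤ 4 * X ^ (κ + 1 / 3) := hw₂R
        _ ≤ X ^ (1 / 20 : ℝ) * X ^ (7 / 20 : ℝ) :=
            mul_le_mul hp12 (mono _ _ (by linarith)) (by positivity) (by positivity)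
        _ = X ^ (2 / 5 : ℝ) := by rw [← Real.rpow_add hX0]; norm_num
    have hw₂X : (w₂ : ℝ) ≤ X := by
      calc (w₂ : ℝ) ≤ X ^ (2 / 5 : ℝ) := hw₂X2
        _ ≤ X ^ (1 : ℝ) := mono _ _ (by norm_num)
        _ = X := Real.rpow_one X
    have hw₂x : w₂ ≤ x := toN _ hw₂X
    have hw1n : 1 ≤ w := by
      have : (0 : ℝ) < w := hw0
      have : 0 < w := by exact_mod_cast this
      omega
    have hz1n : 1 ≤ z := by
      have : 0 < z := by exact_mod_cast hz0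
      omega
    have hww₂ : w ≤ w₂ := by
      rw [hw₂]
      exact Nat.le_mul_of_pos_right _ (by omega)
    have hJle : (JJ x B' : ℝ) ≤ 3 * L ^ (B' + 1) := by
      have h1 : 1 ≤ L ^ (B' + 1) := one_le_pow₀ hL1
      have h2 := Nat.ceil_lt_add_one (show 0 ≤ 2 * L ^ (B' + 1) by positivity)
      unfold JJ
      rw [← hX, ← hL]
      linarith
    obtain ⟨Bf, β, err, hctl, herr⟩ := hxb x hxxb D0 cc hcc
    have hchar := hxc x hxxc q hq hqL hgood s hs1 hsL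
    have hη0 : 0 < 1 / L ^ (2 * b₃) := by positivity
    have hη1 : 1 / L ^ (2 * b₃) ≤ 1 := by
      rw [div_le_one (by positivity)]
      exact one_le_pow₀ hL1
    have hηw : 2 ≤ 1 / L ^ (2 * b₃) * (w : ℝ) := by
      rw [one_div, ← div_eq_inv_mul, le_div_iff₀ (by positivity)]
      exact hp2.trans hw1
    have hkD : ((q * s : ℕ) : ℝ) * ((D : ℝ) ^ 2 + X) ≤ X ^ 2 / L ^ (E + cv + 1) := by
      have h1 : (D : ℝ) ^ 2 + X ≤ 65 * X ^ (4 * κ + 1) := by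
        have h2 : X ≤ X ^ (4 * κ + 1) := by
          calc X = X ^ (1 : ℝ) := (Real.rpow_one X).symm
            _ ≤ _ := mono _ _ (by linarith)
        linarith
      rw [le_div_iff₀ (by positivity)]
      calc ((q * s : ℕ) : ℝ) * ((D : ℝ) ^ 2 + X) * L ^ (E + cv + 1)
          ≤ X ^ (4 / 5 - 3 * ε / 4) * (65 * X ^ (4 * κ + 1)) * L ^ (E + cv + 1) := by
            push_cast
            gcongr
        _ = (65 * L ^ (E + cv + 1)) * (X ^ (4 / 5 - 3 * ε / 4) * X ^ (4 * κ + 1)) := by ring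
        _ ≤ X ^ (1 / 10 : ℝ) * (X ^ (4 / 5 - 3 * ε / 4) * X ^ (4 * κ + 1)) := by gcongr
        _ = X ^ (19 / 10 + 4 * κ - 3 * ε / 4) := by
            rw [← Real.rpow_add hX0, ← Real.rpow_add hX0]
            congr 1
            ring
        _ ≤ X ^ (2 : ℝ) := mono _ _ (by linarith)
        _ = X ^ 2 := by rw [← Real.rpow_natCast]; norm_num
    have hΔ1 : 1 ≤ X ^ (ε / 4) := Real.one_le_rpow hX1 (by linarith)
    have hlarge := large_arith2 X ((q * s : ℕ) : ℝ) w₂ ε (L ^ (5 * b₃)) hX1 hε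
      (Nat.cast_nonneg _) (Nat.cast_nonneg _) (by positivity) (by push_cast; exact hkε) hw₂X2 hp11
    have h1 := hvar x D w w₂ (JJ x B') (q * s) (AJ (y0 x) z w (1 / L ^ B')) Bf β err
      (aa cc z) (X / L ^ (E + cv + 1)) (1 / L ^ (2 * b₃)) (2 / L ^ (3 * b₃)) (X ^ (ε / 4))
      hctl herr hx3 hqs
      hDx hw1n hww₂ hw₂x hη0 hη1 hηw (by positivity) hΔ1
      ((univ : Finset (DirichletCharacter ℂ (q * s))).erase 1)
      (fun χ hχ => (mem_erase.1 hχ).1)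
      (fun χ hχ j hj u hu1 hu2 => hchar χ (mem_erase.1 hχ).1 j hj u hu1 hu2) y' hy'
    refine h1.trans ?_
    rw [← hX, ← hL]
    exact SupNaux.var_arithN E cv B' b₃ Cv X L ((q * s : ℕ) : ℝ) D (JJ x B')
      (X / L ^ (E + cv + 1)) (1 / L ^ (2 * b₃)) (2 / L ^ (3 * b₃)) _ _ hCv hL1000 hLCv hX1
      (Nat.cast_nonneg _) (by push_cast; exact hqsR) hb₃ rfl rfl rfl
      (Nat.cast_nonneg _) hJle hkD hlarge
  obtain ⟨x₀, hx₀⟩ := eventually_atTop.1 hev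
  exact ⟨x₀, hx₀⟩

theorem var_Pf (κ ε : ℝ) (hκ : 0 < κ) (hκ1 : κ ≤ 1 / 100) (hε : 0 < ε) (E : ℕ) :
    ∃ B' B9 : ℕ, ∀ A₁ B₁ : ℕ, ∃ x₁ : ℕ, ∀ x : ℕ, x₁ ≤ x →
    ∀ q : ℕ, 1 ≤ q → (q : ℝ) ≤ (x : ℝ) ^ (4 / 5 - ε) →
    GoodF x (wk κ x) (wk κ x * zx (2 / 3) x) (JJ x B') B9
      (AJ (y0 x) (zx (2 / 3) x) (wk κ x) (1 / (Real.log x) ^ B')) ((Real.log x) ^ A₁)
      ((Real.log x) ^ (B₁ + 1)) q →
    ∀ s : ℕ, 1 ≤ s → (s : ℝ) ≤ (Real.log x) ^ (B₁ + 1) → ∀ [NeZero (q * s)],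
    ∀ y ≤ x, ∑ χ ∈ (univ : Finset (DirichletCharacter ℂ (q * s))).erase 1,
      ‖∑ n ∈ Icc 1 y, ((Pf (zx (2 / 3) x) n : ℝ) : ℂ) * χ (n : ZMod (q * s))‖ ^ 2 ≤
      (x : ℝ) ^ 2 / (Real.log x) ^ E := by
  set b₁ : ℕ := E + 1 with hb₁
  set Em : ℕ := 2 * b₁ + 2 + E + 1 with hEm
  obtain ⟨B', B9, h⟩ := var_P κ ε hκ hκ1 hε Em
  refine ⟨B', B9, fun A₁ B₁ => ?_⟩
  obtain ⟨x₁, hx₁⟩ := h A₁ B₁
  have hev := (sizesP b₁).and ((evt_log 1000).and ((eventually_ge_atTop x₁).and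
    ((eventually_ge_atTop 3).and (evt_pow 1 (B₁ + 1) (1 / 5) (by norm_num)))))
  obtain ⟨x₂, hx₂⟩ := eventually_atTop.1 hev
  refine ⟨x₂, fun x hx q hq hqx hgood s hs hsL hne y hyx => ?_⟩
  obtain ⟨⟨hz10, hzη, hz3, hD, hJ, hηx, hη0, hη1, hJle, hD1⟩, hL1000, hxx, hx3, hp1⟩ := hx₂ x hx
  have hv := hx₁ x hxx q hq hqx hgood s hs hsL
  set X : ℝ := (x : ℝ) with hX
  set L : ℝ := Real.log X with hL
  set z : ℕ := zx (2 / 3) x with hz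
  set D0 : ℕ := D0P x with hD0
  set η : ℝ := 1 / L ^ b₁ with hη
  set J : ℕ := JJ x b₁ with hJd
  have hL0 : 0 < L := by linarith
  have hL1 : 1 ≤ L := by linarith
  have hX3 : (3 : ℝ) ≤ X := by rw [hX]; exact_mod_cast hx3
  have hX0 : 0 < X := by linarith
  have hX1 : 1 ≤ X := by linarith
  have hqR : (1 : ℝ) ≤ q := by exact_mod_cast hq
  have hq0 : (0 : ℝ) < q := by linarith
  rw [one_mul] at hp1
  have hqsR : (q : ℝ) * s ≤ X := by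
    calc (q : ℝ) * s ≤ X ^ (4 / 5 - ε) * L ^ (B₁ + 1) := by gcongr
      _ ≤ X ^ (4 / 5 : ℝ) * X ^ (1 / 5 : ℝ) := by
          have : X ^ (4 / 5 - ε) ≤ X ^ (4 / 5 : ℝ) :=
            Real.rpow_le_rpow_of_exponent_le hX1 (by linarith)
          gcongr
      _ = X := by rw [← Real.rpow_add hX0]; norm_num
  set W : ℝ := X ^ 2 / L ^ Em with hW
  have hW0 : 0 ≤ W := by positivity
  set CH := (univ : Finset (DirichletCharacter ℂ (q * s))).erase 1 with hCH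
  set S0 : DirichletCharacter ℂ (q * s) → ℂ := fun χ =>
    ∑ n ∈ Icc 1 y, ((aa cc0 z n : ℝ) : ℂ) * χ (n : ZMod (q * s)) with hS0
  set S1 : ℕ → DirichletCharacter ℂ (q * s) → ℂ := fun i χ =>
    ∑ n ∈ Icc 1 y, ((aa (cci z D0 η i) z n : ℝ) : ℂ) * χ (n : ZMod (q * s)) with hS1
  set S2 : ℕ → DirichletCharacter ℂ (q * s) → ℂ := fun i χ =>
    ∑ n ∈ Icc 1 (min y ((gr η i) ^ 2)), ((aa (cci z D0 η i) z n : ℝ) : ℂ) *
      χ (n : ZMod (q * s)) with hS2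
  set SE : DirichletCharacter ℂ (q * s) → ℂ := fun χ =>
    ∑ n ∈ Icc 1 y, ((eP z D0 J η n : ℝ) : ℂ) * χ (n : ZMod (q * s)) with hSE
  have hcell : ∀ i χ, ∑ n ∈ Icc 1 y, (((if (gr η i) ^ 2 < n then aa (cci z D0 η i) z n else 0 : ℝ)) : ℂ) *
      χ (n : ZMod (q * s)) = S1 i χ - S2 i χ := by
    intro i χ
    have hsub : Icc 1 (min y ((gr η i) ^ 2)) = (Icc 1 y).filter (fun n => n ≤ (gr η i) ^ 2) := by
      ext n
      simp only [mem_filter, mem_Icc, le_min_iff]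
      tauto
    rw [hS1, hS2]
    simp only
    rw [hsub, sum_filter, ← sum_sub_distrib]
    refine sum_congr rfl fun n _ => ?_
    by_cases h : n ≤ (gr η i) ^ 2
    · rw [if_pos h, if_neg (show ¬ (gr η i) ^ 2 < n by omega), sub_self]
      simp
    · rw [if_neg h, if_pos (show (gr η i) ^ 2 < n by omega), sub_zero]
  have hsplit : ∀ χ ∈ CH, ‖∑ n ∈ Icc 1 y, ((Pf z n : ℝ) : ℂ) * χ (n : ZMod (q * s))‖ ^ 2 ≤
      3 * ‖S0 χ‖ ^ 2 + 3 * (J * ∑ i ∈ range J, (2 * ‖S1 i χ‖ ^ 2 + 2 * ‖S2 i χ‖ ^ 2)) +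
        3 * ‖SE χ‖ ^ 2 := by
    intro χ _
    have e1 : ∑ n ∈ Icc 1 y, ((Pf z n : ℝ) : ℂ) * χ (n : ZMod (q * s)) =
        S0 χ + -∑ i ∈ range J, (S1 i χ - S2 i χ) + SE χ := by
      have e2 : ∑ i ∈ range J, (S1 i χ - S2 i χ) = ∑ n ∈ Icc 1 y,
          ∑ i ∈ range J, (((if (gr η i) ^ 2 < n then aa (cci z D0 η i) z n else 0 : ℝ)) : ℂ) *
            χ (n : ZMod (q * s)) := by
        rw [sum_comm]
        exact sum_congr rfl fun i _ => (hcell i χ).symm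
      rw [e2, ← sum_neg_distrib, hS0, hSE]
      simp only
      rw [← sum_add_distrib, ← sum_add_distrib]
      refine sum_congr rfl fun n _ => ?_
      rw [Pf_eq z D0 J η n, ← sum_mul]
      push_cast
      rw [sum_neg_distrib]
      ring
    have e3 : ‖-∑ i ∈ range J, (S1 i χ - S2 i χ)‖ ^ 2 ≤
        J * ∑ i ∈ range J, (2 * ‖S1 i χ‖ ^ 2 + 2 * ‖S2 i χ‖ ^ 2) := by
      rw [norm_neg]
      have e4 := Pool.Agent.HT.IIMinor.sq_sum_le (range J) (fun i => S1 i χ - S2 i χ)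
      rw [card_range] at e4
      refine e4.trans ?_
      refine mul_le_mul_of_nonneg_left (sum_le_sum fun i _ => ?_) (Nat.cast_nonneg _)
      exact SupFaux.norm_sub_sq_le _ _
    rw [e1]
    refine (CtlMinorN.norm3_sq _ _ _).trans ?_
    linarith
  have h1 : ∑ χ ∈ CH, ‖S0 χ‖ ^ 2 ≤ W := hv cc0 (wt0 z D0 hD1) y hyx
  have h2 : ∀ i, ∑ χ ∈ CH, ‖S1 i χ‖ ^ 2 ≤ W := fun i => hv _ (wti z D0 η i) y hyx
  have h3 : ∀ i, ∑ χ ∈ CH, ‖S2 i χ‖ ^ 2 ≤ W := fun i => hv _ (wti z D0 η i) _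
    ((min_le_left _ _).trans hyx)
  have h4 : ∑ χ ∈ CH, ‖SE χ‖ ^ 2 ≤ 80 * η * X ^ 2 := by
    refine (CtlVar.mv1 (q * s) y (fun n => ((eP z D0 J η n : ℝ) : ℂ)) CH).trans ?_
    have e1 := eP_sq x z D0 J η hη0 hη1 hz10 hzη hz3 hD hJ hηx
    have e2 : ∑ n ∈ Icc 1 y, ‖((eP z D0 J η n : ℝ) : ℂ)‖ ^ 2 ≤ 40 * η * X := by
      refine le_trans ?_ e1
      calc ∑ n ∈ Icc 1 y, ‖((eP z D0 J η n : ℝ) : ℂ)‖ ^ 2 = ∑ n ∈ Icc 1 y, (eP z D0 J η n) ^ 2 := by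
            refine sum_congr rfl fun n _ => ?_
            rw [Complex.norm_real, Real.norm_eq_abs, sq_abs]
        _ ≤ _ := sum_le_sum_of_subset_of_nonneg (Icc_subset_Icc_right hyx)
            (fun _ _ _ => sq_nonneg _)
    have e3 : (y : ℝ) + ((q * s : ℕ) : ℝ) ≤ 2 * X := by
      have hyX : (y : ℝ) ≤ X := by rw [hX]; exact_mod_cast hyx
      push_cast
      linarith
    calc ((y : ℝ) + ((q * s : ℕ) : ℝ)) * ∑ n ∈ Icc 1 y, ‖((eP z D0 J η n : ℝ) : ℂ)‖ ^ 2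
        ≤ 2 * X * (40 * η * X) := by gcongr
      _ = 80 * η * X ^ 2 := by ring
  have h5 : ∑ χ ∈ CH, ‖∑ n ∈ Icc 1 y, ((Pf z n : ℝ) : ℂ) * χ (n : ZMod (q * s))‖ ^ 2 ≤
      3 * W + 3 * ((J : ℝ) ^ 2 * (4 * W)) + 3 * (80 * η * X ^ 2) := by
    refine (sum_le_sum hsplit).trans ?_
    rw [sum_add_distrib, sum_add_distrib, ← mul_sum, ← mul_sum, ← mul_sum, ← mul_sum]
    have e1 : ∑ χ ∈ CH, ∑ i ∈ range J, (2 * ‖S1 i χ‖ ^ 2 + 2 * ‖S2 i χ‖ ^ 2) ≤ J * (4 * W) := by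
      rw [sum_comm]
      calc ∑ i ∈ range J, ∑ χ ∈ CH, (2 * ‖S1 i χ‖ ^ 2 + 2 * ‖S2 i χ‖ ^ 2)
          ≤ ∑ _i ∈ range J, 4 * W := by
            refine sum_le_sum fun i _ => ?_
            rw [sum_add_distrib, ← mul_sum, ← mul_sum]
            have := h2 i
            have := h3 i
            linarith
        _ = J * (4 * W) := by rw [sum_const, card_range, nsmul_eq_mul]
    have e2 : (J : ℝ) * ∑ χ ∈ CH, ∑ i ∈ range J, (2 * ‖S1 i χ‖ ^ 2 + 2 * ‖S2 i χ‖ ^ 2) ≤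
        (J : ℝ) ^ 2 * (4 * W) := by
      calc _ ≤ (J : ℝ) * (J * (4 * W)) := by gcongr
        _ = _ := by ring
    linarith
  have h6 : (J : ℝ) ^ 2 * (4 * W) ≤ 36 * (X ^ 2 / L ^ (E + 1)) := by
    have hJ2 : (J : ℝ) ^ 2 ≤ 9 * L ^ (2 * b₁ + 2) := by
      calc (J : ℝ) ^ 2 ≤ (3 * L ^ (b₁ + 1)) ^ 2 := pow_le_pow_left₀ (Nat.cast_nonneg _) hJle 2
        _ = _ := by ring
    calc (J : ℝ) ^ 2 * (4 * W) ≤ 9 * L ^ (2 * b₁ + 2) * (4 * W) := by gcongr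
      _ = 36 * (X ^ 2 / L ^ (E + 1)) := by
          rw [hW, hEm, show 2 * b₁ + 2 + E + 1 = (2 * b₁ + 2) + (E + 1) by ring,
            pow_add L (2 * b₁ + 2)]
          field_simp
          norm_num
  set R : ℝ := X ^ 2 / L ^ E with hR
  have hR0 : 0 ≤ R := by positivity
  have h7 : X ^ 2 / L ^ (E + 1) ≤ R / 1000 := by
    rw [hR, pow_succ L E, div_div]
    refine div_le_div_of_nonneg_left (by positivity) (by positivity) ?_
    exact mul_le_mul_of_nonneg_left hL1000 (by positivity)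
  have h8 : W ≤ R / 1000 := by
    refine le_trans ?_ h7
    rw [hW]
    refine div_le_div_of_nonneg_left (by positivity) (by positivity) ?_
    exact pow_le_pow_right₀ hL1 (by omega)
  have h9 : 80 * η * X ^ 2 ≤ 80 * (R / 1000) := by
    have e1 : 80 * η * X ^ 2 = 80 * (X ^ 2 / L ^ (E + 1)) := by
      rw [hη, hb₁]
      ring
    rw [e1]
    linarith
  linarith

end

end Pool.Agent.HLA
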