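import Pool.Agent.Work.MP_92f640_nt.HLA.SupP
import Pool.Agent.Work.MP_92f640_nt.HLA.DensG
import Pool.Agent.Work.MP_92f640_nt.HLA.TL2G

/-! # Module HLA.SupL: the von Mangoldt function is close to the model

From `sup_P` with `v = vv z` by Abel summation with the weight `log n`; prime powers and `n < z` trivially. -/

namespace Pool.Agent.HLA

open Finset Filter Pool.Agent.BV Pool.Agent.HL Pool.Agent.HS Pool.Agent.HN
open Pool.Agent.HN.CtlMinorN
open scoped ArithmeticFunction.vonMangoldt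

noncomputable section

/-- trivial bound for complex functions -/
theorem VV_trivC (q y : ℕ) (hq : 1 ≤ q) (f : ℕ → ℂ) (α : ℝ) :
    VV q y f α ≤ ((y : ℝ) / q + 1) * ∑ n ∈ Icc 1 y, ‖f n‖ ^ 2 := by
  have hq0 : (0 : ℝ) < q := by exact_mod_cast hq
  unfold VV
  have h1 : ∀ a ∈ range q, ‖∑ n ∈ (Icc 1 y).filter (fun n => n % q = a), f n * e (n * α)‖ ^ 2 ≤
      ((y : ℝ) / q + 1) * ∑ n ∈ (Icc 1 y).filter (fun n => n % q = a), ‖f n‖ ^ 2 := by
    intro a _
    have h2 : ‖∑ n ∈ (Icc 1 y).filter (fun n => n % q = a), f n * e (n * α)‖ ≤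
        ∑ n ∈ (Icc 1 y).filter (fun n => n % q = a), ‖f n‖ := by
      refine (norm_sum_le _ _).trans (sum_le_sum fun n _ => ?_)
      rw [norm_mul, add_norm_e, mul_one]
    have h3 : (((Icc 1 y).filter (fun n => n % q = a)).card : ℝ) ≤ (y : ℝ) / q + 1 := by
      have h4 : ((Icc 1 y).filter (fun n => n % q = a)).card ≤ y / q + 1 := by
        have h5 : ((Icc 1 y).filter (fun n => n % q = a)) ⊆
            (range (y / q + 1)).image (fun j => q * j + a) := by
          intro n hn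
          rw [mem_filter, mem_Icc] at hn
          rw [mem_image]
          refine ⟨n / q, ?_, ?_⟩
          · rw [mem_range]
            have := Nat.div_le_div_right (c := q) hn.1.2
            omega
          · rw [← hn.2]
            exact Nat.div_add_mod n q
        refine (card_le_card h5).trans (card_image_le.trans ?_)
        rw [card_range]
      calc (((Icc 1 y).filter (fun n => n % q = a)).card : ℝ) ≤ ((y / q + 1 : ℕ) : ℝ) := by
            exact_mod_cast h4
        _ ≤ (y : ℝ) / q + 1 := by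
            push_cast
            have : ((y / q : ℕ) : ℝ) ≤ (y : ℝ) / q := Nat.cast_div_le
            linarith
    calc ‖∑ n ∈ (Icc 1 y).filter (fun n => n % q = a), f n * e (n * α)‖ ^ 2
        ≤ (∑ n ∈ (Icc 1 y).filter (fun n => n % q = a), ‖f n‖) ^ 2 :=
          pow_le_pow_left₀ (norm_nonneg _) h2 2
      _ ≤ (((Icc 1 y).filter (fun n => n % q = a)).card : ℝ) *
          ∑ n ∈ (Icc 1 y).filter (fun n => n % q = a), ‖f n‖ ^ 2 := sq_sum_le_card_mul_sum_sq
      _ ≤ _ := by gcongr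
  refine (sum_le_sum h1).trans ?_
  rw [← mul_sum]
  apply mul_le_mul_of_nonneg_left _ (by positivity)
  refine le_of_eq ?_
  exact sum_fiberwise_of_maps_to (fun n _ => mem_range.2 (Nat.mod_lt _ hq)) _

/-- Abel summation with the weight `log n` -/
theorem VV_log (q x : ℕ) (hx : 1 ≤ x) (h : ℕ → ℂ) (α M : ℝ)
    (hM : ∀ y ≤ x, VV q y h α ≤ M) :
    VV q x (fun n => ((Real.log n : ℝ) : ℂ) * h n) α ≤ 4 * (Real.log x) ^ 2 * M := by
  have hL0 : 0 ≤ Real.log x := Real.log_natCast_nonneg x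
  set L := Real.log x with hL
  set S : ℕ → ℕ → ℂ := fun a y => ∑ n ∈ (Icc 1 y).filter (fun n => n % q = a), h n * e (n * α)
    with hS
  have hVV : ∀ y, VV q y h α = ∑ a ∈ range q, ‖S a y‖ ^ 2 := fun y => rfl
  set w : ℕ → ℝ := fun n => if n = 0 then 0 else Real.log ((n + 1 : ℕ) : ℝ) - Real.log (n : ℝ) with hw
  have hw0 : ∀ n, 0 ≤ w n := by
    intro n
    rw [hw]
    simp only
    split_ifs with h0
    · exact le_rfl
    · have h1 : (0 : ℝ) < n := by exact_mod_cast Nat.pos_of_ne_zero h0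
      have : Real.log (n : ℝ) ≤ Real.log ((n + 1 : ℕ) : ℝ) :=
        Real.log_le_log h1 (by push_cast; linarith)
      linarith
  have hwsum : ∀ y : ℕ, 1 ≤ y → ∑ n ∈ range y, w n = Real.log (y : ℝ) := by
    intro y hy
    induction y, hy using Nat.le_induction with
    | base => simp [hw]
    | succ y hy ih =>
      rw [sum_range_succ, ih, hw]
      simp only
      rw [if_neg (by omega)]
      ring
  have hab : ∀ a, ∑ n ∈ (Icc 1 x).filter (fun n => n % q = a),
      (((Real.log n : ℝ) : ℂ) * h n) * e (n * α) =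
      ((L : ℝ) : ℂ) * S a x - ∑ n ∈ range x, ((w n : ℝ) : ℂ) * S a n := by
    intro a
    have key : ∀ y : ℕ, 1 ≤ y → ∑ n ∈ (Icc 1 y).filter (fun n => n % q = a),
        (((Real.log n : ℝ) : ℂ) * h n) * e (n * α) =
        ((Real.log (y : ℝ) : ℝ) : ℂ) * S a y - ∑ n ∈ range y, ((w n : ℝ) : ℂ) * S a n := by
      intro y hy
      induction y, hy using Nat.le_induction with
      | base =>
        rw [hS]
        simp only [range_one, sum_singleton, hw, if_true]
        simp only [Icc_self, sum_filter, sum_singleton]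
        simp
      | succ y hy ih =>
        have e1 : ∀ F : ℕ → ℂ, ∑ n ∈ (Icc 1 (y + 1)).filter (fun n => n % q = a), F n =
            ∑ n ∈ (Icc 1 y).filter (fun n => n % q = a), F n +
              (if (y + 1) % q = a then F (y + 1) else 0) := by
          intro F
          rw [sum_filter, sum_filter, sum_Icc_succ_top (by omega)]
        rw [sum_range_succ, e1, ih]
        have e2 : S a (y + 1) = S a y + (if (y + 1) % q = a then h (y + 1) *
            e (((y + 1 : ℕ) : ℝ) * α) else 0) := by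
          rw [hS]
          exact e1 _
        have e3 : w y = Real.log ((y + 1 : ℕ) : ℝ) - Real.log (y : ℝ) := by
          rw [hw]
          simp only
          rw [if_neg (by omega)]
        rw [e2, e3]
        by_cases hc : (y + 1) % q = a
        · rw [if_pos hc, if_pos hc]
          rw [Complex.ofReal_sub]
          ring
        · rw [if_neg hc, if_neg hc]
          rw [Complex.ofReal_sub]
          ring
    exact key x hx
  have hnorm : ∀ a, ‖∑ n ∈ (Icc 1 x).filter (fun n => n % q = a),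
      (((Real.log n : ℝ) : ℂ) * h n) * e (n * α)‖ ^ 2 ≤
      2 * L ^ 2 * ‖S a x‖ ^ 2 + 2 * L * ∑ n ∈ range x, w n * ‖S a n‖ ^ 2 := by
    intro a
    rw [hab]
    refine (SupFaux.norm_sub_sq_le _ _).trans ?_
    have e1 : ‖((L : ℝ) : ℂ) * S a x‖ ^ 2 = L ^ 2 * ‖S a x‖ ^ 2 := by
      rw [norm_mul, mul_pow, Complex.norm_real, Real.norm_eq_abs, sq_abs]
    have e2 : ‖∑ n ∈ range x, ((w n : ℝ) : ℂ) * S a n‖ ^ 2 ≤ L * ∑ n ∈ range x, w n * ‖S a n‖ ^ 2 := by
      have e3 : ‖∑ n ∈ range x, ((w n : ℝ) : ℂ) * S a n‖ ≤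
          ∑ n ∈ range x, Real.sqrt (w n) * (Real.sqrt (w n) * ‖S a n‖) := by
        refine (norm_sum_le _ _).trans (sum_le_sum fun n _ => ?_)
        rw [norm_mul, Complex.norm_real, Real.norm_eq_abs, abs_of_nonneg (hw0 n), ← mul_assoc,
          Real.mul_self_sqrt (hw0 n)]
      calc ‖∑ n ∈ range x, ((w n : ℝ) : ℂ) * S a n‖ ^ 2
          ≤ (∑ n ∈ range x, Real.sqrt (w n) * (Real.sqrt (w n) * ‖S a n‖)) ^ 2 :=
            pow_le_pow_left₀ (norm_nonneg _) e3 2
        _ ≤ (∑ n ∈ range x, Real.sqrt (w n) ^ 2) *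
            ∑ n ∈ range x, (Real.sqrt (w n) * ‖S a n‖) ^ 2 := sum_mul_sq_le_sq_mul_sq _ _ _
        _ = L * ∑ n ∈ range x, w n * ‖S a n‖ ^ 2 := by
            congr 1
            · rw [hL, ← hwsum x hx]
              exact sum_congr rfl fun n _ => Real.sq_sqrt (hw0 n)
            · refine sum_congr rfl fun n _ => ?_
              rw [mul_pow, Real.sq_sqrt (hw0 n)]
    rw [e1]
    linarith
  unfold VV
  refine (sum_le_sum fun a _ => hnorm a).trans ?_
  rw [sum_add_distrib, ← mul_sum, ← mul_sum, sum_comm]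
  have h1 : ∑ n ∈ range x, ∑ a ∈ range q, w n * ‖S a n‖ ^ 2 ≤ L * M := by
    rw [hL, ← hwsum x hx, sum_mul]
    refine sum_le_sum fun n hn => ?_
    rw [← mul_sum, ← hVV]
    exact mul_le_mul_of_nonneg_left (hM n (mem_range.1 hn).le) (hw0 n)
  have h2 := hM x le_rfl
  rw [hVV] at h2
  calc 2 * L ^ 2 * ∑ a ∈ range q, ‖S a x‖ ^ 2 + 2 * L * ∑ n ∈ range x, ∑ a ∈ range q, w n * ‖S a n‖ ^ 2
      ≤ 2 * L ^ 2 * M + 2 * L * (L * M) := by gcongr
    _ = 4 * L ^ 2 * M := by ring

theorem TM_norm (q Q n : ℕ) : ‖TM q Q n‖ ≤ (q : ℝ) / q.totient * Q := by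
  unfold TM
  split_ifs
  · rw [norm_mul, norm_div, Complex.norm_natCast, Complex.norm_natCast]
    refine mul_le_mul_of_nonneg_left ?_ (by positivity)
    refine (norm_sum_le _ _).trans ?_
    calc ∑ s ∈ (Icc 1 Q).filter (fun s => s.Coprime q),
          ‖((ArithmeticFunction.moebius s : ℤ) : ℂ) / (s.totient : ℂ) * ram s n‖
        ≤ ∑ _s ∈ (Icc 1 Q).filter (fun s => s.Coprime q), (1 : ℝ) := by
          refine sum_le_sum fun s hs => ?_
          rw [mem_filter, mem_Icc] at hs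
          have hφ : 0 < s.totient := Nat.totient_pos.2 (by omega)
          have hφR : (0 : ℝ) < s.totient := by exact_mod_cast hφ
          rw [norm_mul, norm_div, Complex.norm_natCast]
          have h1 : ‖((ArithmeticFunction.moebius s : ℤ) : ℂ)‖ ≤ 1 := by
            rw [Complex.norm_intCast]
            exact_mod_cast ArithmeticFunction.abs_moebius_le_one
          calc ‖((ArithmeticFunction.moebius s : ℤ) : ℂ)‖ / (s.totient : ℝ) * ‖ram s n‖
              ≤ 1 / (s.totient : ℝ) * s.totient := by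
                have := ram_norm_le s n
                gcongr
            _ = 1 := by field_simp
      _ ≤ Q := by
          rw [sum_const, nsmul_eq_mul, mul_one]
          have h1 := card_filter_le (Icc 1 Q) (fun s => s.Coprime q)
          rw [Nat.card_Icc, Nat.add_sub_cancel] at h1
          exact_mod_cast h1
  · rw [norm_zero]
    positivity

/-- the prime powers and the small primes -/
theorem f2_sq (x z q : ℕ) (hx : 3 ≤ x) :
    ∑ n ∈ Icc 1 x, ‖FL q n - ((Real.log n : ℝ) : ℂ) * FA q (Pf z) n‖ ^ 2 ≤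
      (z : ℝ) * (Real.log x) ^ 2 + 8 * Real.sqrt x * (Real.log x) ^ 2 := by
  have hx0 : (0 : ℝ) < x := by exact_mod_cast (by omega : 0 < x)
  have hx3 : (3 : ℝ) ≤ x := by exact_mod_cast hx
  have hL0 : 0 ≤ Real.log x := Real.log_natCast_nonneg x
  set L := Real.log x with hL
  have h1 : ∀ n ∈ Icc 1 x, ‖FL q n - ((Real.log n : ℝ) : ℂ) * FA q (Pf z) n‖ ^ 2 ≤
      (if n < z then L ^ 2 else 0) + (if ¬ n.Prime then Λ n else 0) * L := by
    intro n hn
    rw [mem_Icc] at hn
    have hΛ0 : 0 ≤ Λ n := ArithmeticFunction.vonMangoldt_nonneg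
    have hΛL : Λ n ≤ L := mangoldt_le_log' hn.1 hn.2
    have hFL : ‖FL q n‖ ≤ Λ n := by
      unfold FL
      split_ifs
      · rw [Complex.norm_real, Real.norm_of_nonneg hΛ0]
      · rw [norm_zero]
        exact hΛ0
    have hsq : ‖FL q n‖ ^ 2 ≤ Λ n * L := by
      calc ‖FL q n‖ ^ 2 ≤ Λ n ^ 2 := pow_le_pow_left₀ (norm_nonneg _) hFL 2
        _ = Λ n * Λ n := by ring
        _ ≤ _ := by gcongr
    by_cases hp : n.Prime
    · rw [if_neg (not_not.2 hp), zero_mul, add_zero]
      by_cases hz : n < z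
      · have h2 : FA q (Pf z) n = 0 := by
          unfold FA Pf
          rw [if_neg (show ¬ (n.Prime ∧ z ≤ n) from fun h => by omega)]
          split_ifs <;> simp
        rw [h2, mul_zero, sub_zero, if_pos hz]
        refine hsq.trans ?_
        rw [sq]
        gcongr
      · have h2 : FL q n - ((Real.log n : ℝ) : ℂ) * FA q (Pf z) n = 0 := by
          unfold FL FA Pf
          rw [if_pos (show n.Prime ∧ z ≤ n from ⟨hp, by omega⟩),
            ArithmeticFunction.vonMangoldt_apply_prime hp]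
          split_ifs
          · push_cast
            ring
          · ring
        rw [h2, norm_zero, if_neg hz]
        norm_num
    · have h2 : FA q (Pf z) n = 0 := by
        unfold FA Pf
        rw [if_neg (show ¬ (n.Prime ∧ z ≤ n) from fun h => hp h.1)]
        split_ifs <;> simp
      rw [h2, mul_zero, sub_zero, if_pos hp]
      have h3 : (0 : ℝ) ≤ (if n < z then L ^ 2 else 0) := by split_ifs <;> positivity
      linarith
  refine (sum_le_sum h1).trans ?_
  rw [sum_add_distrib, ← sum_mul]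
  have h2 : ∑ n ∈ Icc 1 x, (if n < z then L ^ 2 else 0) ≤ z * L ^ 2 := by
    rw [← sum_filter, sum_const, nsmul_eq_mul]
    refine mul_le_mul_of_nonneg_right ?_ (by positivity)
    have h3 : (Icc 1 x).filter (fun n => n < z) ⊆ range z := by
      intro n hn
      rw [mem_filter] at hn
      exact mem_range.2 hn.2
    have h4 := card_le_card h3
    rw [card_range] at h4
    exact_mod_cast h4
  have h3 : ∑ n ∈ Icc 1 x, (if ¬ n.Prime then Λ n else 0) ≤ 8 * Real.sqrt x * L := by
    rw [← sum_filter]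
    have h4 := not_prime_sum_le (x + 1)
    have h5 : Ico 1 (x + 1) = Icc 1 x := by
      ext k
      rw [mem_Ico, mem_Icc]
      omega
    rw [h5] at h4
    refine h4.trans ?_
    have h6 := primes_sub_le (x := x + 1) (y := x + 1) (by omega) le_rfl
    refine h6.trans ?_
    have h7 : Real.sqrt ((x + 1 : ℕ) : ℝ) ≤ 2 * Real.sqrt x := by
      rw [show (2 : ℝ) * Real.sqrt x = Real.sqrt (4 * x) by
        rw [Real.sqrt_mul (by norm_num), show (4 : ℝ) = 2 ^ 2 by norm_num,
          Real.sqrt_sq (by norm_num)]]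
      apply Real.sqrt_le_sqrt
      push_cast
      linarith
    have h8 : Real.log ((x + 1 : ℕ) : ℝ) ≤ 2 * L := by
      have : Real.log ((x + 1 : ℕ) : ℝ) ≤ Real.log ((x : ℝ) ^ 2) := by
        apply Real.log_le_log
        · positivity
        · push_cast
          nlinarith
      rw [Real.log_pow] at this
      push_cast at this ⊢
      linarith
    have h9 : 0 ≤ Real.log ((x + 1 : ℕ) : ℝ) := Real.log_natCast_nonneg _
    calc 2 * Real.sqrt ((x + 1 : ℕ) : ℝ) * Real.log ((x + 1 : ℕ) : ℝ)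
        ≤ 2 * (2 * Real.sqrt x) * (2 * L) := by gcongr
      _ = 8 * Real.sqrt x * L := by ring
  calc ∑ n ∈ Icc 1 x, (if n < z then L ^ 2 else 0) + (∑ n ∈ Icc 1 x, (if ¬ n.Prime then Λ n else 0)) * L
      ≤ z * L ^ 2 + 8 * Real.sqrt x * L * L := by gcongr
    _ = _ := by ring

theorem sup_L (κ ε : ℝ) (hκ : 0 < κ) (hκ1 : κ ≤ 1 / 100) (hε : 0 < ε) (B : ℕ) :
    ∃ B₁ B' B9 : ℕ, B ≤ B₁ ∧ ∀ A₁ : ℕ, ∃ x₁ : ℕ, ∀ x : ℕ, x₁ ≤ x →
    ∀ q : ℕ, 1 ≤ q → (q : ℝ) ≤ (x : ℝ) ^ (4 / 5 - ε) →
    GoodF x (wk κ x) (wk κ x * zx (2 / 3) x) (JJ x B') B9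
      (AJ (y0 x) (zx (2 / 3) x) (wk κ x) (1 / (Real.log x) ^ B')) ((Real.log x) ^ A₁)
      ((Real.log x) ^ (B₁ + 1)) q →
    ∀ α : ℝ, VV q x (fun n => FL q n - TM q ⌈(Real.log x) ^ B₁⌉₊ n) α ≤
      (x : ℝ) ^ 2 / (q * (Real.log x) ^ B) := by
  obtain ⟨B₁, B', B9, BD, hB₁, hsup⟩ := sup_P κ ε 2 hκ hκ1 hε (by norm_num) (B + 3)
  refine ⟨B₁, B', B9, by omega, fun A₁ => ?_⟩
  obtain ⟨xa, hxa⟩ := hsup A₁
  obtain ⟨xb, hxb⟩ := dens_P BD
  have hev : ∀ᶠ x : ℕ in atTop, ∀ q : ℕ, 1 ≤ q → (q : ℝ) ≤ (x : ℝ) ^ (4 / 5 - ε) →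
      GoodF x (wk κ x) (wk κ x * zx (2 / 3) x) (JJ x B') B9
        (AJ (y0 x) (zx (2 / 3) x) (wk κ x) (1 / (Real.log x) ^ B')) ((Real.log x) ^ A₁)
        ((Real.log x) ^ (B₁ + 1)) q →
      ∀ α : ℝ, VV q x (fun n => FL q n - TM q ⌈(Real.log x) ^ B₁⌉₊ n) α ≤
        (x : ℝ) ^ 2 / (q * (Real.log x) ^ B) := by
    filter_upwards [eventually_ge_atTop xa, eventually_ge_atTop xb, eventually_ge_atTop 24,
      HL.evt_log 1000, sizesP 0, evt_pow 100 (B + 3) (1 / 2) (by norm_num),
      evt_pow 1000 (2 * B₁ + 3 + B) (1 / 2) (by norm_num)]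
      with x hxxa hxxb hx24 hL1000 hsz hp1 hp2
    intro q hq hqx hgood α
    obtain ⟨hz10, -, -, -, -, -, -, -, -, -⟩ := hsz
    set X : ℝ := (x : ℝ) with hX
    set L : ℝ := Real.log X with hL
    have hx3 : 3 ≤ x := by omega
    have hX24 : (24 : ℝ) ≤ X := by rw [hX]; exact_mod_cast hx24
    have hX0 : 0 < X := by linarith
    have hX1 : 1 ≤ X := by linarith
    have hL0 : 0 < L := by linarith
    have hL1 : 1 ≤ L := by linarith
    have hqR : (1 : ℝ) ≤ q := by exact_mod_cast hq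
    have hq0 : (0 : ℝ) < q := by linarith
    have hqX : (q : ℝ) ≤ X := by
      calc (q : ℝ) ≤ X ^ (4 / 5 - ε) := hqx
        _ ≤ X ^ (1 : ℝ) := Real.rpow_le_rpow_of_exponent_le hX1 (by linarith)
        _ = X := Real.rpow_one X
    rw [← Real.sqrt_eq_rpow] at hp1 hp2
    have hsq : Real.sqrt X * Real.sqrt X = X := Real.mul_self_sqrt hX0.le
    have hsq0 : 0 < Real.sqrt X := Real.sqrt_pos.2 hX0
    set z : ℕ := zx (2 / 3) x with hz
    have hzs : (z : ℝ) ≤ 2 * Real.sqrt X := by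
      have h1 : 1 ≤ X ^ (1 / 3 : ℝ) := Real.one_le_rpow hX1 (by norm_num)
      have h2 := Nat.ceil_lt_add_one (show 0 ≤ X ^ (1 / 3 : ℝ) by linarith)
      have h3 : X ^ (1 / 3 : ℝ) ≤ Real.sqrt X := by
        rw [Real.sqrt_eq_rpow]
        exact Real.rpow_le_rpow_of_exponent_le hX1 (by norm_num)
      have h4 : (z : ℝ) < X ^ (1 / 3 : ℝ) + 1 := by
        have h5 : z = ⌈X ^ (1 / 3 : ℝ)⌉₊ := by
          rw [hz]
          unfold zx
          rw [← hX, show (1 : ℝ) - 2 / 3 = 1 / 3 by norm_num]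
        rw [h5]
        exact h2
      linarith
    set Q : ℕ := ⌈L ^ B₁⌉₊ with hQ
    have hLB₁ : 1 ≤ L ^ B₁ := one_le_pow₀ hL1
    have hQle : (Q : ℝ) ≤ 2 * L ^ B₁ := by
      have := Nat.ceil_lt_add_one (show 0 ≤ L ^ B₁ by positivity)
      rw [← hQ] at this
      linarith
    have hρ : (q : ℝ) / q.totient ≤ 4 * L := by
      have h1 := ratio_le q hq
      have h2 : Real.log q ≤ L := Real.log_le_log hq0 hqX
      linarith
    have hρ0 : 0 ≤ (q : ℝ) / q.totient := by positivity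
    have hv := vv_bvar x z (by omega)
    have hsupx := hxa x hxxa q hq hqx hgood (vv z) hv (hxb x hxxb)
    set M : ℝ := X ^ 2 / (q * L ^ (B + 3)) with hM
    -- the three parts
    set f1 : ℕ → ℂ := fun n => ((Real.log n : ℝ) : ℂ) *
      (FA q (Pf z) n - ((vv z n : ℝ) : ℂ) * TM q Q n) with hf1
    set f2 : ℕ → ℂ := fun n => FL q n - ((Real.log n : ℝ) : ℂ) * FA q (Pf z) n with hf2
    set f3 : ℕ → ℂ := fun n => if n < z then -TM q Q n else 0 with hf3
    have hsplit : VV q x (fun n => FL q n - TM q Q n) α =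
        VV q x (fun n => f1 n + f2 n + f3 n) α := by
      refine VV_congr α fun n hn1 hnx => ?_
      rw [hf1, hf2, hf3]
      simp only
      unfold vv
      by_cases h : n < z
      · rw [if_pos h, if_neg (by omega)]
        push_cast
        ring
      · rw [if_neg h, if_pos (by omega)]
        have hlt : Real.log (n : ℝ) ≠ 0 := by
          have : (1 : ℝ) < n := by exact_mod_cast (by omega : 1 < n)
          exact (Real.log_pos this).ne'
        have e1 : ((Real.log (n : ℝ) : ℝ) : ℂ) * ((1 / Real.log (n : ℝ) : ℝ) : ℂ) = 1 := by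
          rw [← Complex.ofReal_mul, mul_one_div, div_self hlt, Complex.ofReal_one]
        linear_combination (TM q Q n) * e1
    rw [hsplit]
    refine (VV_add3 q x f1 f2 f3 α).trans ?_
    have b1 : VV q x f1 α ≤ 4 * L ^ 2 * M := VV_log q x (by omega) _ α M fun y hy => hsupx y hy α
    have hXq : X / q + 1 ≤ 2 * (X / q) := by
      have : 1 ≤ X / q := by rw [le_div_iff₀ hq0]; linarith
      linarith
    have b2 : VV q x f2 α ≤ 2 * (X / q) * (10 * Real.sqrt X * L ^ 2) := by
      have h1 := VV_trivC q x hq f2 α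
      have h2 := f2_sq x z q hx3
      calc VV q x f2 α ≤ (X / q + 1) * ∑ n ∈ Icc 1 x, ‖f2 n‖ ^ 2 := h1
        _ ≤ 2 * (X / q) * (z * L ^ 2 + 8 * Real.sqrt X * L ^ 2) := by gcongr
        _ ≤ 2 * (X / q) * (2 * Real.sqrt X * L ^ 2 + 8 * Real.sqrt X * L ^ 2) := by gcongr
        _ = _ := by ring
    have b3 : VV q x f3 α ≤ 2 * (X / q) * (2 * Real.sqrt X * (8 * L ^ (B₁ + 1)) ^ 2) := by
      have h1 := VV_trivC q x hq f3 α
      have h2 : ∑ n ∈ Icc 1 x, ‖f3 n‖ ^ 2 ≤ z * (8 * L ^ (B₁ + 1)) ^ 2 := by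
        have h3 : ∀ n ∈ Icc 1 x, ‖f3 n‖ ^ 2 ≤ if n < z then (8 * L ^ (B₁ + 1)) ^ 2 else 0 := by
          intro n _
          rw [hf3]
          simp only
          split_ifs
          · rw [norm_neg]
            refine pow_le_pow_left₀ (norm_nonneg _) ?_ 2
            refine (TM_norm q Q n).trans ?_
            calc (q : ℝ) / q.totient * Q ≤ 4 * L * (2 * L ^ B₁) := by gcongr
              _ = 8 * L ^ (B₁ + 1) := by ring
          · simp
        refine (sum_le_sum h3).trans ?_
        rw [← sum_filter, sum_const, nsmul_eq_mul]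
        refine mul_le_mul_of_nonneg_right ?_ (by positivity)
        have h4 : (Icc 1 x).filter (fun n => n < z) ⊆ range z := by
          intro n hn
          rw [mem_filter] at hn
          exact mem_range.2 hn.2
        have h5 := card_le_card h4
        rw [card_range] at h5
        exact_mod_cast h5
      calc VV q x f3 α ≤ (X / q + 1) * ∑ n ∈ Icc 1 x, ‖f3 n‖ ^ 2 := h1
        _ ≤ 2 * (X / q) * (z * (8 * L ^ (B₁ + 1)) ^ 2) := by gcongr
        _ ≤ 2 * (X / q) * (2 * Real.sqrt X * (8 * L ^ (B₁ + 1)) ^ 2) := by gcongr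
    set R : ℝ := X ^ 2 / (q * L ^ B) with hR
    have hR0 : 0 ≤ R := by positivity
    have c1 : 4 * L ^ 2 * M = 4 / L * R := by
      rw [hM, hR, pow_add]
      field_simp
    have c1' : 4 / L * R ≤ 4 / 1000 * R := by gcongr
    have c2 : 2 * (X / q) * (10 * Real.sqrt X * L ^ 2) ≤ 1 / 5 * R := by
      have e1 : 20 * L ^ (B + 2) ≤ 1 / 5 * Real.sqrt X := by
        have e2 : L ^ (B + 2) ≤ L ^ (B + 3) := pow_le_pow_right₀ hL1 (by omega)
        linarith
      have e3 : 1 / 5 * R = 1 / 5 * Real.sqrt X * (Real.sqrt X * X / (q * L ^ B)) := by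
        rw [hR, show X ^ 2 = Real.sqrt X * Real.sqrt X * X by rw [hsq]; ring]
        ring
      have e4 : 2 * (X / q) * (10 * Real.sqrt X * L ^ 2) =
          20 * L ^ (B + 2) * (Real.sqrt X * X / (q * L ^ B)) := by
        rw [pow_add]
        field_simp
        norm_num
      rw [e3, e4]
      gcongr
    have c3 : 2 * (X / q) * (2 * Real.sqrt X * (8 * L ^ (B₁ + 1)) ^ 2) ≤ 1 / 3 * R - 1 / 5 * R - 4 / 1000 * R := by
      have e1 : 256 * L ^ (2 * B₁ + 2 + B) ≤ 1 / 10 * Real.sqrt X := by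
        have e2 : L ^ (2 * B₁ + 3 + B) = L * L ^ (2 * B₁ + 2 + B) := by ring
        have e5 : 0 ≤ L ^ (2 * B₁ + 2 + B) := by positivity
        have e6 : 1000 * L ^ (2 * B₁ + 2 + B) ≤ L ^ (2 * B₁ + 3 + B) := by
          rw [e2]
          gcongr
        linarith
      have e3 : 1 / 10 * R = 1 / 10 * Real.sqrt X * (Real.sqrt X * X / (q * L ^ B)) := by
        rw [hR, show X ^ 2 = Real.sqrt X * Real.sqrt X * X by rw [hsq]; ring]
        ring
      have e4 : 2 * (X / q) * (2 * Real.sqrt X * (8 * L ^ (B₁ + 1)) ^ 2) =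
          256 * L ^ (2 * B₁ + 2 + B) * (Real.sqrt X * X / (q * L ^ B)) := by
        rw [show 2 * B₁ + 2 + B = (B₁ + 1) * 2 + B by ring, pow_add L ((B₁ + 1) * 2), pow_mul]
        field_simp
        norm_num
      have e7 : 2 * (X / q) * (2 * Real.sqrt X * (8 * L ^ (B₁ + 1)) ^ 2) ≤ 1 / 10 * R := by
        rw [e3, e4]
        gcongr
      linarith
    linarith
  obtain ⟨x₀, hx₀⟩ := eventually_atTop.1 hev
  exact ⟨x₀, hx₀⟩

end

end Pool.Agent.HLA
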