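import Pool.Agent.Work.MP_92f640_nt.HLA.SupB
import Pool.Agent.Work.MP_92f640_nt.HLA.ClassP
import Pool.Agent.Work.GBM.C25

/-! # Module HLA.SupP: the primes are close to the model, for all `α` and all `y ≤ x` -/

namespace Pool.Agent.HLA

open Finset Filter Pool.Agent.BV Pool.Agent.HL Pool.Agent.HS Pool.Agent.HN

noncomputable section

theorem Pf_abs (z n : ℕ) : |Pf z n| ≤ 1 := by
  unfold Pf
  split_ifs <;> simp

theorem Pf_rough (z n : ℕ) (h : Pf z n ≠ 0) : ∀ p : ℕ, p.Prime → p ∣ n → z ≤ p := by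
  have h1 : n.Prime ∧ z ≤ n := by
    by_contra h2
    exact h (if_neg h2)
  intro p hp hpn
  rw [(Nat.prime_dvd_prime_iff_eq hp h1.1).1 hpn]
  exact h1.2

theorem bvar_mono {x y : ℕ} (h : y ≤ x) {V : ℝ} {v : ℕ → ℝ} (hv : BVar x V v) : BVar y V v where
  bd := hv.bd
  tv := le_trans (sum_le_sum_of_subset_of_nonneg (range_mono h) (fun _ _ _ => abs_nonneg _)) hv.tv

theorem sup_P (κ ε V : ℝ) (hκ : 0 < κ) (hκ1 : κ ≤ 1 / 100) (hε : 0 < ε)
    (hV : 0 < V) (B'' : ℕ) :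
    ∃ B₁ B' B9 BD : ℕ, B'' ≤ B₁ ∧ ∀ A₁ : ℕ, ∃ x₁ : ℕ, ∀ x : ℕ, x₁ ≤ x →
    ∀ q : ℕ, 1 ≤ q → (q : ℝ) ≤ (x : ℝ) ^ (4 / 5 - ε) →
    GoodF x (wk κ x) (wk κ x * zx (2 / 3) x) (JJ x B') B9
      (AJ (y0 x) (zx (2 / 3) x) (wk κ x) (1 / (Real.log x) ^ B')) ((Real.log x) ^ A₁)
      ((Real.log x) ^ (B₁ + 1)) q →
    ∀ v : ℕ → ℝ, BVar x V v →
    (∀ y ≤ x, |∑ n ∈ Icc 1 y, (Pf (zx (2 / 3) x) n - v n)| ≤ (x : ℝ) / (Real.log x) ^ BD) →
    ∀ y ≤ x, ∀ α : ℝ, VV q y (fun n => FA q (Pf (zx (2 / 3) x)) n -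
      ((v n : ℝ) : ℂ) * TM q ⌈(Real.log x) ^ B₁⌉₊ n) α ≤
      (x : ℝ) ^ 2 / (q * (Real.log x) ^ B'') := by
  obtain ⟨CT, hCT, hTm⟩ := T_minor2
  obtain ⟨B₀, hB₀, hmin⟩ := minor_Pf κ hκ hκ1 B''
  set B₁ : ℕ := B₀ with hB₁
  obtain ⟨xa, hxa⟩ := hmin B₁ le_rfl
  set E : ℕ := B'' + 2 * B₁ + 2 with hE
  obtain ⟨B', B9, hvar⟩ := var_Pf κ ε hκ hκ1 hε E
  refine ⟨B₁, B', B9, E, by omega, fun A₁ => ?_⟩
  obtain ⟨xb, hxb⟩ := hvar A₁ B₁
  set K : ℕ := 4 with hK
  set G : ℝ := 1000 * (K : ℝ) ^ 2 * (1 : ℝ) ^ 2 * (1 + V) ^ 2 with hG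
  have hG0 : 0 < G := by
    rw [hG, hK]
    positivity
  have hev : ∀ᶠ x : ℕ in atTop, ∀ q : ℕ, 1 ≤ q → (q : ℝ) ≤ (x : ℝ) ^ (4 / 5 - ε) →
      GoodF x (wk κ x) (wk κ x * zx (2 / 3) x) (JJ x B') B9
        (AJ (y0 x) (zx (2 / 3) x) (wk κ x) (1 / (Real.log x) ^ B')) ((Real.log x) ^ A₁)
        ((Real.log x) ^ (B₁ + 1)) q →
      ∀ v : ℕ → ℝ, BVar x V v →
      (∀ y ≤ x, |∑ n ∈ Icc 1 y, (Pf (zx (2 / 3) x) n - v n)| ≤ (x : ℝ) / (Real.log x) ^ E) →
      ∀ y ≤ x, ∀ α : ℝ, VV q y (fun n => FA q (Pf (zx (2 / 3) x)) n -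
        ((v n : ℝ) : ℂ) * TM q ⌈(Real.log x) ^ B₁⌉₊ n) α ≤
        (x : ℝ) ^ 2 / (q * (Real.log x) ^ B'') := by
    filter_upwards [eventually_ge_atTop xa, eventually_ge_atTop xb, sizesP 0,
      eventually_ge_atTop 24, evt_log 1000, evt_log (1148 * G), evt_log (2 ^ 17 * (CT * V) ^ 2),
      evt_pow 4 (2 * B₁) (1 / 5) (by norm_num), evt_pow 1 (8 * B₁) (2 / 5) (by norm_num),
      evt_pow 1 E (1 / 3) (by norm_num), evt_pow 1024 (6 * B₁ + 2 + E) (2 / 5) (by norm_num)]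
      with x hxxa hxxb hsz hx24 hL1000 hLG hLT hp1 hp8 hp12 hp13
    intro q hq hqx hgood v hv hδ y hyx α
    obtain ⟨hz10, -, -, -, -, -, -, -, -, -⟩ := hsz
    set X : ℝ := (x : ℝ) with hX
    set L : ℝ := Real.log X with hL
    have hx3 : 3 ≤ x := by omega
    have hX24 : (24 : ℝ) ≤ X := by rw [hX]; exact_mod_cast hx24
    have toN : ∀ n : ℕ, (n : ℝ) ≤ X → n ≤ x := fun n h => by
      rw [hX] at h; exact_mod_cast h
    have hX0 : 0 < X := by linarith
    have hX1 : 1 ≤ X := by linarith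
    have hL0 : 0 < L := by linarith
    have hL1 : 1 ≤ L := by linarith
    have hqR : (1 : ℝ) ≤ q := by exact_mod_cast hq
    have hq0 : (0 : ℝ) < q := by linarith
    rw [one_mul] at hp8 hp12
    have mono : ∀ a b : ℝ, a ≤ b → X ^ a ≤ X ^ b := fun a b h =>
      Real.rpow_le_rpow_of_exponent_le hX1 h
    have hqθ : (q : ℝ) ≤ X ^ (4 / 5 : ℝ) := hqx.trans (mono _ _ (by linarith))
    have hqX : (q : ℝ) ≤ X := by
      calc (q : ℝ) ≤ X ^ (4 / 5 : ℝ) := hqθ
        _ ≤ X ^ (1 : ℝ) := mono _ _ (by norm_num)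
        _ = X := Real.rpow_one X
    have hXq : X ^ (1 / 5 : ℝ) ≤ X / q := by
      rw [le_div_iff₀ hq0]
      calc X ^ (1 / 5 : ℝ) * q ≤ X ^ (1 / 5 : ℝ) * X ^ (4 / 5 : ℝ) := by gcongr
        _ = X := by rw [← Real.rpow_add hX0]; norm_num
    have hLB₁ : 1 ≤ L ^ B₁ := one_le_pow₀ hL1
    have hz1 : X ^ (1 / 3 : ℝ) ≤ zx (2 / 3) x := by
      have h1 : X ^ (1 - 2 / 3 : ℝ) ≤ zx (2 / 3) x := Nat.le_ceil _
      rwa [show (1 : ℝ) - 2 / 3 = 1 / 3 by norm_num] at h1
    set z : ℕ := zx (2 / 3) x with hz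
    have hz0 : (0 : ℝ) < z := lt_of_lt_of_le (by positivity) hz1
    -- S
    set S : ℝ := X / (q * L ^ B₁) with hS
    have hS0 : 0 < S := by positivity
    have hS4' : 4 * L ^ B₁ ≤ S := by
      have : S = X / q / L ^ B₁ := by rw [hS, div_div]
      rw [this, le_div_iff₀ (by positivity)]
      calc 4 * L ^ B₁ * L ^ B₁ = 4 * L ^ (2 * B₁) := by ring
        _ ≤ X ^ (1 / 5 : ℝ) := hp1
        _ ≤ X / q := hXq
    have hS1 : 1 ≤ S := by linarith
    have hSX : S ≤ X := by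
      rw [hS, div_le_iff₀ (by positivity)]
      exact le_mul_of_one_le_right hX0.le (one_le_mul_of_one_le_of_one_le hqR hLB₁)
    set Q : ℕ := ⌈L ^ B₁⌉₊ with hQ
    have hQge : L ^ B₁ ≤ Q := Nat.le_ceil _
    have hQle : (Q : ℝ) ≤ 2 * L ^ B₁ := by
      have := Nat.ceil_lt_add_one (show 0 ≤ L ^ B₁ by positivity)
      rw [← hQ] at this
      linarith
    have hQ1 : 1 ≤ Q := by
      have : (1 : ℝ) ≤ Q := hLB₁.trans hQge
      exact_mod_cast this
    have hρ : (q : ℝ) / q.totient ≤ 4 * L := by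
      have h1 := ratio_le q hq
      have h2 : Real.log q ≤ L := Real.log_le_log hq0 hqX
      linarith
    have hρ0 : 0 ≤ (q : ℝ) / q.totient := by positivity
    -- Dirichlet
    have hSf : 0 < ⌊S⌋₊ := Nat.floor_pos.2 hS1
    obtain ⟨r, hr1, hr2⟩ := Real.exists_rat_abs_sub_le_and_den_le ((q : ℝ) * α) hSf
    set s : ℕ := r.den with hs
    have hs1 : 1 ≤ s := r.pos
    have hsR : (1 : ℝ) ≤ s := by exact_mod_cast hs1
    have hs0 : (0 : ℝ) < s := by linarith
    have hsS : (s : ℝ) ≤ S := by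
      calc (s : ℝ) ≤ (⌊S⌋₊ : ℝ) := by exact_mod_cast hr2
        _ ≤ S := Nat.floor_le hS0.le
    have hbs : IsCoprime r.num (s : ℤ) := by
      rw [Int.isCoprime_iff_gcd_eq_one]
      exact r.reduced
    have hrcast : (r : ℝ) = (r.num : ℝ) / s := by
      rw [hs]
      exact_mod_cast (Rat.num_div_den r).symm
    have hα : |(q : ℝ) * α - r.num / s| ≤ 1 / (s * S) := by
      rw [← hrcast]
      refine hr1.trans (div_le_div_of_nonneg_left zero_le_one (by positivity) ?_)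
      have h1 : S < ⌊S⌋₊ + 1 := Nat.lt_floor_add_one S
      rw [mul_comm]
      exact mul_le_mul_of_nonneg_right h1.le hs0.le
    have hqsB₁ : (q : ℝ) * s ≤ X / L ^ B₁ := by
      calc (q : ℝ) * s ≤ q * S := by gcongr
        _ = X / L ^ B₁ := by rw [hS]; field_simp
    by_cases hcase : s ≤ Q
    · -- major arcs
      have hsQR : (s : ℝ) ≤ 2 * L ^ B₁ := le_trans (by exact_mod_cast hcase) hQle
      have hsL : (s : ℝ) ≤ L ^ (B₁ + 1) := by
        refine hsQR.trans ?_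
        rw [pow_succ, mul_comm]
        exact mul_le_mul_of_nonneg_left (by linarith) (by positivity)
      have hqsR : (q : ℝ) * s ≤ X := hqsB₁.trans (div_le_self hX0.le hLB₁)
      have hqs : q * s ≤ x := toN _ (by push_cast; exact hqsR)
      have : NeZero (q * s) := ⟨by positivity⟩
      have hVb : ∀ y' ≤ x, ∑ χ ∈ (univ : Finset (DirichletCharacter ℂ (q * s))).erase 1,
          ‖∑ n ∈ Icc 1 y', ((Pf z n : ℝ) : ℂ) * χ (n : ZMod (q * s))‖ ^ 2 ≤ X ^ 2 / L ^ E :=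
        hxb x hxxb q hq hqx hgood s hs1 hsL
      have hz2n : 2 ≤ z := by omega
      have hzK : x < z ^ K := by
        have h1 : X < (z : ℝ) ^ K := by
          calc X = X ^ (1 : ℝ) := (Real.rpow_one X).symm
            _ < X ^ (4 / 3 : ℝ) := Real.rpow_lt_rpow_of_exponent_lt (by linarith) (by norm_num)
            _ = (X ^ (1 / 3 : ℝ)) ^ K := by
                rw [← Real.rpow_natCast (X ^ (1 / 3 : ℝ)) K, ← Real.rpow_mul hX0.le, hK]
                norm_num
            _ ≤ (z : ℝ) ^ K := by gcongr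
        rw [hX] at h1
        exact_mod_cast h1
      have hcl : ∀ y' ≤ y, ∑ c ∈ range (q * s), ‖∑ n ∈ (Icc 1 y').filter
          (fun n => n ≡ c [MOD q * s]), (FA q (Pf z) n -
            ((v n : ℝ) : ℂ) * TM q Q n)‖ ^ 2 ≤
          G * ((X ^ 2 / L ^ E + (X / L ^ E) ^ 2 + (X / z) ^ 2) / (q * s).totient +
            X ^ 2 / (q * s * z) + (q * s) * ((q : ℝ) / q.totient * Q ^ 2) ^ 2) := by
        intro y' hy
        exact class_P x z K q Q s y' (X ^ 2 / L ^ E) V (X / L ^ E) 1 (Pf z) v hx3 hz2n hzK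
          hq hs1 hcase hqs (hy.trans hyx) le_rfl (Pf_abs z)
          (fun n hn => Pf_rough z n hn) hv hV.le hδ hVb
      have hΘ : |(q : ℝ) * α - r.num / s| ≤ 1 / S := by
        refine hα.trans ?_
        refine div_le_div_of_nonneg_left zero_le_one hS0 ?_
        exact le_mul_of_one_le_left hS0.le hsR
      have h3 := major_gen (fun n => FA q (Pf z) n - ((v n : ℝ) : ℂ) * TM q Q n)
        y q s hq hs1 α (1 / S) _ r.num hΘ hcl
      have h4 : 2 * Real.pi * (1 / S) * y / q ≤ 2 * Real.pi * L ^ B₁ := by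
        have hyX : (y : ℝ) ≤ X := by rw [hX]; exact_mod_cast hyx
        calc 2 * Real.pi * (1 / S) * y / q ≤ 2 * Real.pi * (1 / S) * X / q := by
              have := Real.pi_pos
              gcongr
          _ = 2 * Real.pi * L ^ B₁ := by
              rw [hS]
              field_simp
      have hLE : L ^ E ≤ z := hp12.trans hz1
      have hLE1 : 1 ≤ L ^ E := one_le_pow₀ hL1
      have hz1R : (1 : ℝ) ≤ z := hLE1.trans hLE
      have htot : 0 < (q * s).totient := Nat.totient_pos.2 (Nat.mul_pos (by omega) (by omega))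
      have htotR : (0 : ℝ) < (q * s).totient := by exact_mod_cast htot
      have h3' : 2 * s * (1 + (2 * Real.pi * (1 / S) * y / q) ^ 2) *
          (G * ((X ^ 2 / L ^ E + (X / L ^ E) ^ 2 + (X / z) ^ 2) / (q * s).totient +
            X ^ 2 / (q * s * z) + (q * s) * ((q : ℝ) / q.totient * Q ^ 2) ^ 2)) ≤
          2 * s * (1 + (2 * Real.pi * L ^ B₁) ^ 2) *
          (G * ((X ^ 2 / L ^ E + (X / L ^ E) ^ 2 + (X / z) ^ 2) / (q * s).totient +
            X ^ 2 / (q * s * z) + (q * s) * ((q : ℝ) / q.totient * Q ^ 2) ^ 2)) := by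
        have h0 : 0 ≤ 2 * Real.pi * (1 / S) * y / q := by
          have := Real.pi_pos
          positivity
        refine mul_le_mul_of_nonneg_right ?_ (by positivity)
        refine mul_le_mul_of_nonneg_left ?_ (by positivity)
        have := pow_le_pow_left₀ h0 h4 2
        linarith
      refine (h3.trans h3').trans ?_
      refine SupFaux.major_arith B'' B₁ E G X L q s ((q * s).totient : ℝ) z (X ^ 2 / L ^ E)
        ((X / L ^ E) ^ 2) (((q : ℝ) / q.totient * Q ^ 2) ^ 2) hG0 hL1000 hLG hX1 hqR hsR rfl hz0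
        htotR ?_ le_rfl ?_ ?_ ?_ ?_
      · have h1 := ratio_le (q * s) (Nat.mul_pos (by omega) (by omega))
        have h2 : Real.log ((q * s : ℕ) : ℝ) ≤ L :=
          Real.log_le_log (by push_cast; positivity) (by push_cast; exact hqsR)
        push_cast at h1 h2
        linarith
      · rw [div_pow]
        refine div_le_div_of_nonneg_left (by positivity) (by positivity) ?_
        rw [sq]
        exact le_mul_of_one_le_left (by positivity) hLE1
      · rw [div_pow]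
        refine div_le_div_of_nonneg_left (by positivity) (by positivity) ?_
        rw [sq]
        exact hLE.trans (le_mul_of_one_le_left hz0.le hz1R)
      · exact div_le_div_of_nonneg_left (by positivity) (by positivity) hLE
      · rw [le_div_iff₀ (by positivity)]
        have h2 : (q : ℝ) * s ≤ X ^ (4 / 5 : ℝ) * (2 * L ^ B₁) := by gcongr
        calc (q : ℝ) * s * (q * s * ((q : ℝ) / q.totient * Q ^ 2) ^ 2) * L ^ E
            ≤ (X ^ (4 / 5 : ℝ) * (2 * L ^ B₁)) * ((X ^ (4 / 5 : ℝ) * (2 * L ^ B₁)) *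
              (4 * L * (2 * L ^ B₁) ^ 2) ^ 2) * L ^ E := by
              gcongr
          _ = (1024 * L ^ (6 * B₁ + 2 + E)) * (X ^ (4 / 5 : ℝ) * X ^ (4 / 5 : ℝ)) := by ring
          _ ≤ X ^ (2 / 5 : ℝ) * (X ^ (4 / 5 : ℝ) * X ^ (4 / 5 : ℝ)) := by gcongr
          _ = X ^ 2 := by
              rw [← Real.rpow_add hX0, ← Real.rpow_add hX0, ← Real.rpow_natCast]
              congr 1
              norm_num
    · -- minor arcs
      push Not at hcase
      have hsL : L ^ B₁ < s := lt_of_le_of_lt hQge (by exact_mod_cast hcase)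
      have hα2 : |(q : ℝ) * α - r.num / s| ≤ 1 / (s : ℝ) ^ 2 := by
        refine hα.trans ?_
        refine div_le_div_of_nonneg_left zero_le_one (by positivity) ?_
        rw [sq]
        exact mul_le_mul_of_nonneg_left hsS hs0.le
      have hα3 : |(q : ℝ) * α - r.num / s| ≤ (q : ℝ) / X := by
        refine hα.trans ?_
        have e1 : 1 / (s * S) = (q : ℝ) / X * (L ^ B₁ / s) := by rw [hS]; field_simp
        rw [e1]
        refine mul_le_of_le_one_right (by positivity) ?_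
        rw [div_le_one hs0]
        exact hsL.le
      have hα4 : |(q : ℝ) * α - r.num / s| ≤ 1 / (2 * s * Q) := by
        refine hα.trans ?_
        have hQ0 : (0 : ℝ) < Q := by exact_mod_cast hQ1
        refine div_le_div_of_nonneg_left zero_le_one (by positivity) ?_
        have : 2 * (Q : ℝ) ≤ S := by linarith
        calc 2 * (s : ℝ) * Q = s * (2 * Q) := by ring
          _ ≤ s * S := mul_le_mul_of_nonneg_left this hs0.le
      have hF := hxa x hxxa q s hq hqθ hs1 hsL hqsB₁ r.num α hbs hα2 hα3 y hyx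
      have hT := SupNaux.VV_vT2 CT hCT hTm y q Q s V α r.num v (bvar_mono hyx hv) hV.le hq hQ1
        hcase hbs hα4
      have hlogQ : Real.log Q ≤ L := by
        have hQ0 : (0 : ℝ) < Q := by exact_mod_cast hQ1
        refine Real.log_le_log hQ0 ?_
        linarith
      have hT3 : VV q y (fun n => ((v n : ℝ) : ℂ) * TM q Q n) α ≤
          1 / 4 * (X ^ 2 / (q * L ^ B'')) := by
        refine hT.trans ?_
        refine SupNaux.T_arith B'' B₁ CT V X L q ((q : ℝ) / q.totient) s Q (Real.log Q) hCT hV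
          hL1000 hLT hX1 hqR hρ0 hρ hs0.le hqsB₁ (Nat.cast_nonneg _) hQle
          (Real.log_natCast_nonneg Q) hlogQ (by omega) ?_
        calc (q : ℝ) ^ 2 * (L ^ (6 * B₁) * L ^ (2 * B₁))
            ≤ (X ^ (4 / 5 : ℝ)) ^ 2 * (L ^ (6 * B₁) * L ^ (2 * B₁)) := by gcongr
          _ = (X ^ (4 / 5 : ℝ) * X ^ (4 / 5 : ℝ)) * L ^ (8 * B₁) := by ring
          _ ≤ (X ^ (4 / 5 : ℝ) * X ^ (4 / 5 : ℝ)) * X ^ (2 / 5 : ℝ) := by gcongr
          _ = X ^ 2 := by
              rw [← Real.rpow_add hX0, ← Real.rpow_add hX0, ← Real.rpow_natCast]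
              congr 1
              norm_num
      have h5 := VV_sub_le q y (FA q (Pf z)) (fun n => ((v n : ℝ) : ℂ) * TM q Q n) α
      refine h5.trans ?_
      have h7 : 0 ≤ X ^ 2 / (q * L ^ B'') := by positivity
      linarith
  obtain ⟨x₀, hx₀⟩ := eventually_atTop.1 hev
  exact ⟨x₀, hx₀⟩

end

end Pool.Agent.HLA
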